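import Pool.Agent.Helper891_JO.Va

/-!
# The vanishing theorem for `J ⊗ M`, from the invariance of the Selmer elements
-/

set_option autoImplicit false
set_option linter.unusedSectionVars false
set_option linter.style.haveILetI false

namespace Pool.Agent.Helper891_EG

open Polynomial NumberField IsDedekindDomain Module
open Pool.Agent.Y723.HJ
open Pool.Agent.Y682 (NCl)
open Pool.Agent.TH841.NF (lf mem_lf)
open Pool.Agent.Helper891_RP (resA resA_spec)
open Pool.Agent.Helper891_JO

section main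

variable {F : Type} [Field F] [NumberField F] [IsGalois ℚ F] (i : F →+* QB)
  {g : ℕ} {a : Fin (2 * g + 1) → ℤ} {r : ℕ} {R : GQ → Matrix (Fin r) (Fin r) ℤ}
  {γ : F ≃ₐ[ℚ] F}

/-- all the Selmer elements over `F` are invariant under `γ` -/
def Ratio (γ : F ≃ₐ[ℚ] F) (a : Fin (2 * g + 1) → ℤ) : Prop :=
  ∀ e : Fin (2 * g + 1) → F, (∀ i, e i ≠ 0) →
    (∀ φ : F →+* ℝ, LocD ℝ a (fun i => φ (e i))) →
    (∀ (p : ℕ) [Fact p.Prime] (j : F →+* PadicAlgCl p),
      LocD (lf j) a (fun i => ⟨j (e i), mem_lf j _⟩)) →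
    ∀ (i : Fin (2 * g + 1)), ∃ y : F, γ (e i) = e i * y ^ 2

lemma zero_of_fix {σ : GQ} {m : ℕ} (hm : Odd m) (hRm : ∀ σ τ, R (σ * τ) = R σ * R τ)
    (hR1 : R 1 = 1) (hσ : R (σ ^ m) = 1) (hinv : ∀ x : Fin r → ℤ, (R σ).mulVec x = x → x = 0)
    {G : Type} [AddCommGroup G] {P : Fin r → G} (h2 : P + P = 0) (hP : mat (R σ) P = P) :
    P = 0 := by
  classical
  set N := ∑ k ∈ Finset.range m, R (σ ^ k) with hN
  have h1 : R σ * N = N := by
    have h3 := Finset.sum_range_succ (fun k => R (σ ^ k)) m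
    rw [Finset.sum_range_succ', pow_zero, hR1, hσ] at h3
    have h4 := add_right_cancel h3
    rw [hN, Finset.mul_sum, ← h4]
    refine Finset.sum_congr rfl fun k _ => ?_
    rw [← hRm, ← pow_succ']
  have hN0 : N = 0 := by
    ext k j
    have h3 : N.mulVec (Pi.single j 1) = 0 := hinv _ (by rw [Matrix.mulVec_mulVec, h1])
    have h4 := congrFun h3 k
    rw [Matrix.mulVec_single_one] at h4
    exact h4
  have hk : ∀ k : ℕ, mat (R (σ ^ k)) P = P := by
    intro k
    induction k with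
    | zero => rw [pow_zero, hR1, mat_one]
    | succ k ih => rw [pow_succ, hRm, mat_mul, hP, ih]
  have h5 := congrArg (fun B => mat B P) hN0
  simp only [hN, mat_sum, mat_zerom, hk, Finset.sum_const, Finset.card_range] at h5
  obtain ⟨n, rfl⟩ := hm
  rw [add_smul, mul_smul, one_smul, smul_comm, two_smul, h2, smul_zero, zero_add] at h5
  exact h5

/-- **the vanishing theorem** -/
theorem vanish (hodd : Odd (finrank ℚ F)) (ha : Function.Injective a) (hrat : Ratio γ a) (hRm : ∀ σ τ, R (σ * τ) = R σ * R τ) (hRH : ∀ σ ∈ HQ i, R σ = 1)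
    {σ0 : GQ} (hσ0 : resA i σ0⁻¹ = γ) {m : ℕ} (hm : Odd m) (hσm : R (σ0 ^ m) = 1)
    (hinv : ∀ x : Fin r → ℤ, (R σ0).mulVec x = x → x = 0)
    {t : GQ → Fin r → Jac a QB} (ht : IsCoc a R t) (h2t : ∀ σ, t σ + t σ = 0)
    (hp : ∀ (p : ℕ) [Fact p.Prime], LocT a R ℚ_[p] t) (hr : LocT a R ℝ t) :
    ∃ T : Fin r → Jac a QB, T + T = 0 ∧ ∀ σ, t σ = actM a R σ T - T := by
  classical
  haveI := charQB
  haveI hHF : HF (hpol a QB) := hpolHF ha _
  have hR1 : R 1 = 1 := hRH 1 (one_mem _)
  -- the action on the values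
  have hact : ∀ σ τ, actM a R σ (t τ) = mat (R σ) (t τ) := fun σ τ => actM_tor σ (h2t τ)
  have hone : t 1 = 0 := by
    have h := ht.2 1 1
    rw [mul_one, hact, hR1, mat_one] at h
    exact left_eq_add.1 h
  -- the restriction to the subgroup
  have hH : ∀ h ∈ HQ i, t h = 0 := by
    have hadd : ∀ σ ∈ HQ i, ∀ τ, t (σ * τ) = t σ + t τ := by
      intro σ hσ τ
      rw [ht.2, hact, hRH σ hσ, mat_one]
    have hconj : ∀ σ, ∀ h ∈ HQ i, t (σ * h * σ⁻¹) = mat (R σ) (t h) := by
      intro σ h hh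
      have h1 := ht.2 σ σ⁻¹
      rw [mul_inv_cancel, hone, hact] at h1
      rw [mul_assoc, ht.2, hadd h hh]
      have h3 : actM a R σ (t h + t σ⁻¹) = mat (R σ) (t h) + mat (R σ) (t σ⁻¹) := by
        rw [actM_tor σ (by rw [add_add_add_comm, h2t, h2t, add_zero]), mat_add]
      rw [h3, add_left_comm, ← h1, add_zero]
    have hinvt : ∀ h ∈ HQ i, t (σ0 * h * σ0⁻¹) = t h := by
      intro h hh
      funext k
      -- Kummer theory
      have hk : ∀ l : Fin (2 * g + 1), ∃ s : QB, s ≠ 0 ∧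
          (∀ σ ∈ HQ i, σ s = sgn (t σ k) l * s) ∧ ∃ e : F, i e = s ^ 2 := fun l =>
        kumQ i (χ := fun σ => sgn (t σ k) l) (ht.1.comp (fun T => sgn (T k) l))
          (fun σ _ => sgn_sq (congrFun (h2t σ) k) l) (fun σ hσ τ _ => by
            show sgn (t (σ * τ) k) l = sgn (t σ k) l * sgn (t τ k) l
            rw [hadd σ hσ τ]
            exact sgn_add (congrFun (h2t σ) k) (congrFun (h2t τ) k) l)
      choose s hs0 hsσ e hse using hk
      have he0 : ∀ l, e l ≠ 0 := by
        intro l h0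
        have := hse l
        rw [h0, map_zero] at this
        exact hs0 l (pow_eq_zero_iff two_ne_zero |>.1 this.symm)
      have hRl : ∀ φ : F →+* ℝ, LocD ℝ a (fun l => φ (e l)) := by
        intro φ
        haveI : CharZero (AlgebraicClosure ℝ) :=
          charZero_of_injective_algebraMap (algebraMap ℝ (AlgebraicClosure ℝ)).injective
        haveI : HF (hpol a (AlgebraicClosure ℝ)) := hpolHF ha _
        haveI : HF (hpol a ℝ) := hpolHF ha _
        obtain ⟨ι, hι⟩ := exists_extF i ((algebraMap ℝ (AlgebraicClosure ℝ)).comp φ)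
        obtain ⟨P, hP⟩ := hr ι
        refine loc_gen i (K := ℝ) (Ω := AlgebraicClosure ℝ) φ ι hι (t := fun σ => t σ k)
          (fun σ => congrFun (h2t σ) k) (P k) (fun τ σ hτ hσ => ?_) e s (fun l => hse l) hsσ
        have h1 := congrFun (hP τ σ hτ) k
        rw [hRH σ hσ, mat_one] at h1
        exact h1
      have hPl : ∀ (p : ℕ) [Fact p.Prime] (j : F →+* PadicAlgCl p),
          LocD (lf j) a (fun l => ⟨j (e l), mem_lf j _⟩) := by
        intro p _ j
        haveI : CharZero (PadicAlgCl p) :=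
          charZero_of_injective_algebraMap (algebraMap ℚ_[p] (PadicAlgCl p)).injective
        haveI : HF (hpol a (PadicAlgCl p)) := hpolHF ha _
        haveI : HF (hpol a (lf j)) := hpolHF ha _
        haveI := galK (K := lf j)
        obtain ⟨ι, hι⟩ := exists_extF i j
        obtain ⟨P, hP⟩ := hp p ι
        refine loc_gen i (K := lf j) (Ω := PadicAlgCl p) (j.codRestrict (lf j) (mem_lf j)) ι
          (fun x => hι x) (t := fun σ => t σ k)
          (fun σ => congrFun (h2t σ) k) (P k) (fun τ σ hτ hσ => ?_) e s (fun l => hse l) hsσ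
        have h1 := congrFun (hP (τ.restrictScalars ℚ_[p]) σ hτ) k
        rw [hRH σ hσ, mat_one] at h1
        exact h1
      refine tor_ext (congrFun (h2t _) k) (congrFun (h2t _) k) fun l => ?_
      obtain ⟨y, hy⟩ := hrat e he0 hRl hPl l
      rw [← hσ0] at hy
      have hmem : σ0 * h * σ0⁻¹ ∈ HQ i := Subgroup.Normal.conj_mem inferInstance h hh σ0
      have h1 : (σ0⁻¹ (s l)) ^ 2 = (s l * i y) ^ 2 := by
        rw [← map_pow, ← hse, ← resA_spec, hy, map_mul, map_pow, hse]
        ring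
      have h3 : (σ0 * h * σ0⁻¹) (s l) = sgn (t h k) l * s l := by
        rw [AlgEquiv.mul_apply, AlgEquiv.mul_apply]
        have hiy : h (i y) = i y := (mem_HQ i).1 hh y
        have hχ : σ0 (sgn (t h k) l) = sgn (t h k) l := by
          rcases sgn_sq (congrFun (h2t h) k) l with h4 | h4 <;> rw [h4]
          · exact map_one σ0
          · rw [map_neg, map_one]
        have hσσ : ∀ x, σ0 (σ0⁻¹ x) = x := fun x => by
          rw [← AlgEquiv.mul_apply, mul_inv_cancel, AlgEquiv.one_apply]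
        have h5 : h (σ0⁻¹ (s l)) = sgn (t h k) l * σ0⁻¹ (s l) := by
          rcases sq_eq_sq_iff_eq_or_eq_neg.1 h1 with h4 | h4 <;> rw [h4]
          · rw [map_mul, hsσ l h hh, hiy]; ring
          · rw [map_neg, map_mul, hsσ l h hh, hiy]; ring
        rw [h5, map_mul, hχ, hσσ]
      rw [hsσ l _ hmem] at h3
      exact mul_right_cancel₀ (hs0 l) h3
    intro h hh
    refine zero_of_fix hm hRm hR1 hσm hinv (h2t h) ?_
    rw [← hconj σ0 h hh, hinvt h hh]
  -- averaging
  set T₀ : Fin r → Jac a QB := ∑ q : GQ ⧸ HQ i, t (Quotient.out q) with hT₀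
  have hT2 : T₀ + T₀ = 0 := by
    rw [hT₀, ← Finset.sum_add_distrib]
    exact Finset.sum_eq_zero fun q _ => h2t _
  have key : ∀ σ, actM a R σ T₀ = T₀ - (Fintype.card (GQ ⧸ HQ i)) • t σ := by
    intro σ
    have h1 : ∀ q : GQ ⧸ HQ i, actH a R σ (t (Quotient.out q)) = t (Quotient.out (σ • q)) - t σ := by
      intro q
      have h3 := ht.2 σ (Quotient.out q)
      have h4 : σ * Quotient.out q = Quotient.out (σ • q) *
        ((Quotient.out (σ • q))⁻¹ * (σ * Quotient.out q)) := by group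
      have h5 := ht.2 (Quotient.out (σ • q)) ((Quotient.out (σ • q))⁻¹ * (σ * Quotient.out q))
      rw [hH _ (out_mem i σ q), ← h4, h3] at h5
      have h6 := map_zero (actH a R (Quotient.out (σ • q)))
      rw [actH_apply] at h6
      rw [h6, add_zero] at h5
      rw [actH_apply, ← h5]
      abel
    rw [← actH_apply, hT₀, map_sum, Finset.sum_congr rfl fun q _ => h1 q, Finset.sum_sub_distrib,
      Finset.sum_const, Finset.card_univ]
    congr 1
    exact Equiv.sum_comp (MulAction.toPerm σ : Equiv.Perm (GQ ⧸ HQ i))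
      (fun q => t (Quotient.out q))
  refine ⟨T₀, hT2, fun σ => ?_⟩
  obtain ⟨m, hm⟩ := card_odd i hodd
  have h3 : (Fintype.card (GQ ⧸ HQ i)) • t σ = t σ := by
    rw [hm, add_smul, mul_smul, one_smul, smul_comm, two_smul, h2t, smul_zero, zero_add]
  rw [key, h3]
  have h4 := h2t σ
  have h5 : t σ = -t σ := eq_neg_of_add_eq_zero_left h4
  rw [sub_right_comm, sub_self, zero_sub]
  exact h5

/-- the Tate-Shafarevich group -/
theorem sha_zero (hodd : Odd (finrank ℚ F)) (ha : Function.Injective a) (hrat : Ratio γ a) (hRm : ∀ σ τ, R (σ * τ) = R σ * R τ) (hRH : ∀ σ ∈ HQ i, R σ = 1)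
    {σ0 : GQ} (hσ0 : resA i σ0⁻¹ = γ) {m : ℕ} (hm : Odd m) (hσm : R (σ0 ^ m) = 1)
    (hinv : ∀ x : Fin r → ℤ, (R σ0).mulVec x = x → x = 0)
    {f : GQ → Fin r → Jac a QB} (hf : IsCoc a R f)
    (hp : ∀ (p : ℕ) [Fact p.Prime], LocT a R ℚ_[p] f) (hr : LocT a R ℝ f) :
    ∀ k : ℕ, IsCob a R (fun σ => 2 ^ k • f σ) → IsCob a R f := by
  haveI := charQB
  haveI hHF : HF (hpol a QB) := hpolHF ha _
  intro k
  induction k with
  | zero =>
    rintro ⟨P, hP⟩
    refine ⟨P, fun σ => ?_⟩
    have h1 : 2 ^ 0 • f σ = actM a R σ P - P := hP σ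
    rw [← h1, pow_zero, one_smul]
  | succ k ih =>
    rintro ⟨P, hP⟩
    apply ih
    -- the multiple
    have hmul : ∀ n : ℕ, IsCoc a R (fun σ => n • f σ) ∧ (∀ (p : ℕ) [Fact p.Prime],
        LocT a R ℚ_[p] (fun σ => n • f σ)) ∧ LocT a R ℝ (fun σ => n • f σ) := by
      intro n
      induction n with
      | zero =>
        have h0 : (fun σ : GQ => (0 : ℕ) • f σ) = fun σ => actM a R σ 0 - 0 := by
          funext σ
          have h6 := map_zero (actH a R σ)
          rw [actH_apply] at h6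
          rw [h6, zero_smul, sub_zero]
        rw [h0]
        exact ⟨cob_coc i hRm hRH 0, fun p _ => cob_locT ha _ 0,
          cob_locT ha _ 0⟩
      | succ n ihn =>
        obtain ⟨h1, h3, h4⟩ := ihn
        have h0 : (fun σ : GQ => (n + 1) • f σ) = fun σ => n • f σ + f σ := by
          funext σ
          rw [add_smul, one_smul]
        rw [h0]
        refine ⟨⟨h1.1.add hf.1, fun σ τ => ?_⟩, fun p _ => locT_add (h3 p) (hp p), locT_add h4 hr⟩
        have h5 := map_add (actH a R σ) (n • f τ) (f τ)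
        simp only [actH_apply] at h5
        have h6 := h1.2 σ τ
        have h7 := hf.2 σ τ
        simp only at h6 ⊢
        rw [h5, h6, h7]
        abel
    obtain ⟨hc, hcp, hcr⟩ := hmul (2 ^ k)
    choose Q hQ using fun k => halve (P k)
    have hQ' : Q + Q = P := funext hQ
    have htc := coc_sub hc (cob_coc i hRm hRH Q)
    have hcobn : ∀ σ, 2 ^ k • f σ - (actM a R σ Q - Q) = 2 ^ k • f σ + -(actM a R σ Q - Q) :=
      fun σ => sub_eq_add_neg _ _
    obtain ⟨T, hT2, hT⟩ := vanish i hodd ha hrat hRm hRH hσ0 hm hσm hinv htc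
      (fun σ => by
        have h1 : 2 ^ (k + 1) • f σ = actM a R σ P - P := hP σ
        rw [pow_succ, mul_comm, mul_smul, two_smul] at h1
        have h3 := map_add (actH a R σ) Q Q
        simp only [actH_apply] at h3
        rw [hQ'] at h3
        have h4 : (2 ^ k • f σ - (actM a R σ Q - Q)) + (2 ^ k • f σ - (actM a R σ Q - Q)) =
          (2 ^ k • f σ + 2 ^ k • f σ) - ((actM a R σ Q + actM a R σ Q) - (Q + Q)) := by abel
        rw [h4, h1, ← h3, hQ', sub_self])
      (fun p _ => by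
        simp only [hcobn]
        exact locT_add (hcp p) (locT_neg (cob_locT ha _ Q)))
      (by
        simp only [hcobn]
        exact locT_add hcr (locT_neg (cob_locT ha _ Q)))
    refine ⟨T + Q, fun σ => ?_⟩
    have h1 := hT σ
    have h3 := map_add (actH a R σ) T Q
    simp only [actH_apply] at h3
    rw [h3]
    have h4 : 2 ^ k • f σ = (2 ^ k • f σ - (actM a R σ Q - Q)) + (actM a R σ Q - Q) := by abel
    show 2 ^ k • f σ = _
    rw [h4, h1]
    abel

/-- the rational points -/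
theorem pts_two (hodd : Odd (finrank ℚ F)) (ha : Function.Injective a) (hrat : Ratio γ a) (hRm : ∀ σ τ, R (σ * τ) = R σ * R τ) (hRH : ∀ σ ∈ HQ i, R σ = 1)
    {σ0 : GQ} (hσ0 : resA i σ0⁻¹ = γ) {m : ℕ} (hm : Odd m) (hσm : R (σ0 ^ m) = 1)
    (hinv : ∀ x : Fin r → ℤ, (R σ0).mulVec x = x → x = 0)
    (P : Fin r → Jac a QB) (hP : ∀ σ, actM a R σ P = P) :
    ∃! Q : Fin r → Jac a QB, (∀ σ, actM a R σ Q = Q) ∧ Q + Q = P := by
  haveI := charQB
  haveI hHF : HF (hpol a QB) := hpolHF ha _
  choose Q hQ using fun k => halve (P k)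
  have hQ' : Q + Q = P := funext hQ
  obtain ⟨T, hT2, hT⟩ := vanish i hodd ha hrat hRm hRH hσ0 hm hσm hinv
    (cob_coc i hRm hRH Q)
    (fun σ => by
      have h3 := map_add (actH a R σ) Q Q
      simp only [actH_apply] at h3
      rw [hQ', hP σ] at h3
      have h4 : (actM a R σ Q - Q) + (actM a R σ Q - Q) =
        (actM a R σ Q + actM a R σ Q) - (Q + Q) := by abel
      rw [h4, ← h3, hQ', sub_self])
    (fun p _ => cob_locT ha _ Q) (cob_locT ha _ Q)
  have hneg : T = -T := eq_neg_of_add_eq_zero_left hT2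
  refine ⟨Q - T, ⟨fun σ => ?_, ?_⟩, ?_⟩
  · have h3 := map_sub (actH a R σ) Q T
    simp only [actH_apply] at h3
    rw [h3]
    have h4 := hT σ
    have h5 : actM a R σ Q = (actM a R σ T - T) + Q := by rw [← h4]; abel
    rw [h5]
    abel
  · have h4 : Q - T + (Q - T) = (Q + Q) - (T + T) := by abel
    rw [h4, hQ', hT2, sub_zero]
  · rintro Q' ⟨h3, h4⟩
    have h5 : Q' - (Q - T) = 0 := by
      have h6 : (Q' - (Q - T)) + (Q' - (Q - T)) = 0 := by
        have h7 : (Q' - (Q - T)) + (Q' - (Q - T)) = (Q' + Q') - (Q + Q) + (T + T) := by abel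
        rw [h7, h4, hQ', hT2, sub_self, add_zero]
      refine zero_of_fix hm hRm (hRH 1 (one_mem _)) hσm hinv h6 ?_
      rw [← actM_tor σ0 h6]
      have h7 := map_sub (actH a R σ0) Q' (Q - T)
      have h8 := map_sub (actH a R σ0) Q T
      simp only [actH_apply] at h7 h8
      have h9 := hT σ0
      have h10 : actM a R σ0 Q = (actM a R σ0 T - T) + Q := by rw [← h9]; abel
      rw [h7, h8, h3 σ0, h10]
      abel
    exact sub_eq_zero.1 h5

end main

end Pool.Agent.Helper891_EG
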