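import Pool.Agent.Helper891_EG.Rt
import Pool.Agent.Helper891_EG.Vb

/-!
# The arithmetic progression of the twists
-/

set_option autoImplicit false
set_option linter.unusedSectionVars false

namespace Pool.Agent.Helper891_EG

open Polynomial NumberField IsDedekindDomain Module
open Pool.Agent.Y682 (NCl)
open Pool.Agent.TH841.NF (pls lf mem_lf)
open Pool.Agent.Helper891_JO

variable {F : Type} [Field F] [NumberField F] [IsGalois ℚ F] {g : ℕ}
  {a : Fin (2 * g + 1) → ℤ}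

/-- `p` divides at most one of the differences -/
def AtMost (p : ℕ) (a : Fin (2 * g + 1) → ℤ) : Prop := ∀ i j k l : Fin (2 * g + 1), i < j → k < l →
  (p : ℤ) ∣ a i - a j → (p : ℤ) ∣ a k - a l → i = k ∧ j = l

lemma tree_of_none {p : ℕ} (h : ∀ i j : Fin (2 * g + 1), i ≠ j → ¬ (p : ℤ) ∣ a i - a j) :
    Tree p a := by
  intro i l hil
  have h1 : padicValInt p (a i - a l) = 0 := padicValInt.eq_zero_of_not_dvd (h i l hil)
  rw [h1]
  refine ⟨Even.zero, ?_⟩
  rw [Finset.filter_true_of_mem fun k _ => Or.inr (Nat.zero_le _), Finset.card_univ,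
    Fintype.card_fin]
  exact ⟨g, rfl⟩

lemma pair_of {p : ℕ} (h : AtMost p a) {i j : Fin (2 * g + 1)} (hij : i ≠ j)
    (hd : (p : ℤ) ∣ a i - a j) : Pair p a i j := by
  have hsym : ∀ k l : Fin (2 * g + 1), (p : ℤ) ∣ a k - a l → (p : ℤ) ∣ a l - a k := by
    intro k l h1
    rw [← dvd_neg, neg_sub]
    exact h1
  refine ⟨hij, hd, fun k l hkl h1 => ?_⟩
  rcases lt_or_gt_of_ne hij with h2 | h2 <;> rcases lt_or_gt_of_ne hkl with h3 | h3
  · obtain ⟨h4, h5⟩ := h i j k l h2 h3 hd h1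
    exact Or.inl ⟨h4.symm, h5.symm⟩
  · obtain ⟨h4, h5⟩ := h i j l k h2 h3 hd (hsym _ _ h1)
    exact Or.inr ⟨h5.symm, h4.symm⟩
  · obtain ⟨h4, h5⟩ := h j i k l h2 h3 (hsym _ _ hd) h1
    exact Or.inr ⟨h4.symm, h5.symm⟩
  · obtain ⟨h4, h5⟩ := h j i l k h2 h3 (hsym _ _ hd) (hsym _ _ h1)
    exact Or.inl ⟨h5.symm, h4.symm⟩

lemma exists_emb (p : Nat.Primes) : Nonempty (F →+* PadicAlgCl (p : ℕ)) := by
  haveI : CharZero (PadicAlgCl (p : ℕ)) :=
    charZero_of_injective_algebraMap (algebraMap ℚ_[(p : ℕ)] (PadicAlgCl (p : ℕ))).injective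
  exact ⟨(IsAlgClosed.lift : F →ₐ[ℚ] PadicAlgCl (p : ℕ)).toRingHom⟩

/-- **the progression** -/
theorem progression [IsTotallyReal F] (hN : Odd (Nat.card (NCl F))) (hodd : Odd (finrank ℚ F))
    {θ : F ≃ₐ[ℚ] F} {m : ℕ} (hθm : θ ^ m = 1)
    (hG : Simp (F ≃ₐ[ℚ] F) (fun n => ∀ γ, ∑ i ∈ Finset.range m, n (γ * θ ^ i) = 0))
    (hcom : ∀ γ, Commute θ γ) (hspan : Spn a) (ha : StrictMono a) (h2 : NS θ 2)
    (hcond : ∀ p : ℕ, p.Prime → NS θ p ∨ Tree p a ∨ AtMost p a)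
    (n : ℕ) (hn : Odd n) (hnp : ∀ p : ℕ, p.Prime → p ∣ n → NS θ p) :
    ∃ N c : ℕ, 0 < N ∧ n ∣ N ∧ Nat.Coprime c N ∧ c ≡ 2 [MOD n] ∧ ∀ D : ℤ, 0 < D → ¬ (2 : ℤ) ∣ D →
      D ≡ c [ZMOD N] → (∀ p : ℕ, p.Prime → (p : ℤ) ∣ D → NS θ p) → Ratio θ (tw D a) := by
  classical
  -- the primes with exactly one pair
  have hfin : {q : Nat.Primes | ¬ NS θ q ∧ ∃ i b, Pair (q : ℕ) a i b}.Finite := by
    have h1 : ((Finset.univ.biUnion fun x : Fin (2 * g + 1) × Fin (2 * g + 1) =>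
      (a x.1 - a x.2).natAbs.primeFactors : Finset ℕ) : Set ℕ).Finite := Finset.finite_toSet _
    refine (h1.preimage (f := fun q : Nat.Primes => (q : ℕ))
      (Nat.Primes.coe_nat_injective.injOn)).subset ?_
    rintro q ⟨-, i, b, hib, hd, -⟩
    rw [Set.mem_preimage, Finset.mem_coe, Finset.mem_biUnion]
    refine ⟨(i, b), Finset.mem_univ _, ?_⟩
    rw [Nat.mem_primeFactors]
    refine ⟨q.2, Int.natCast_dvd.1 hd, ?_⟩
    rw [Int.natAbs_ne_zero]
    exact sub_ne_zero.2 fun h => hib (ha.injective h)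
  set S : Finset Nat.Primes := hfin.toFinset with hS
  have hSm : ∀ q : Nat.Primes, q ∈ S ↔ ¬ NS θ q ∧ ∃ i b, Pair (q : ℕ) a i b := by
    intro q
    rw [hS, Set.Finite.mem_toFinset]
    rfl
  have hip : ∀ q : Nat.Primes, ∃ i b : Fin (2 * g + 1), q ∈ S → Pair (q : ℕ) a i b := by
    intro q
    by_cases h : q ∈ S
    · obtain ⟨-, i, b, h1⟩ := (hSm q).1 h
      exact ⟨i, b, fun _ => h1⟩
    · exact ⟨0, 0, fun h' => absurd h' h⟩
  choose ip bp hpair using hip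
  have hS2 : ∀ q ∈ S, (q : ℕ) ≠ 2 := by
    intro q hq h
    apply ((hSm q).1 hq).1
    rw [h]
    exact h2
  have heta : ∀ q : Nat.Primes, ∃ z : ℤ, (q : ℕ) ≠ 2 → ¬ IsSquare ((z : ℤ) : ZMod (q : ℕ)) := by
    intro q
    by_cases h : (q : ℕ) = 2
    · exact ⟨0, fun h' => absurd h h'⟩
    · obtain ⟨z, hz⟩ := FiniteField.exists_nonsquare (F := ZMod (q : ℕ)) (by
        rwa [ZMod.ringChar_zmod_n])
      refine ⟨z.cast, fun _ => ?_⟩
      rw [ZMod.intCast_cast, ZMod.cast_id]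
      exact hz
  choose η hη using heta
  set T : Finset Nat.Primes :=
    S.filter (fun q => Odd (padicValInt (q : ℕ) (a (ip q) - a (bp q)))) with hT
  have hTS : ∀ q ∈ T, q ∈ S := fun q hq => (Finset.mem_filter.1 hq).1
  let d : Nat.Primes → Bool → ℤ := fun q β => if β = true then η q else 1
  have hjj : ∀ q : Nat.Primes, ∃ _ : F →+* PadicAlgCl (q : ℕ), True := fun q =>
    ⟨(exists_emb q).some, trivial⟩
  choose jj _ using hjj
  have hd1 : ∀ q ∈ T, ¬ IsSquare ((d q true : ℤ) : ZMod (q : ℕ)) := fun q hq =>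
    hη q (hS2 q (hTS q hq))
  obtain ⟨x, hx⟩ := exists_signs (T := T) (ip := ip) (bp := bp) hN hodd hG hcom hspan jj d
    (fun q _ => rfl) hd1
  -- the residues
  have hres : ∀ q : Nat.Primes, ∃ r : ℕ, q ∈ S → (r : ZMod (q : ℕ)) ≠ 0 ∧
      (IsSquare ((r : ZMod (q : ℕ)) * ((∏ l ∈ LL (ip q) (bp q), (a (ip q) - a l) : ℤ) : ZMod (q : ℕ))) ↔
        q ∈ T ∧ x q = false) := by
    intro q
    by_cases hq : q ∈ S
    · set δ : ZMod (q : ℕ) := ((∏ l ∈ LL (ip q) (bp q), (a (ip q) - a l) : ℤ) : ZMod (q : ℕ)) with hδ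
      have hδ0 : δ ≠ 0 := by
        rw [hδ, Ne, ZMod.intCast_zmod_eq_zero_iff_dvd]
        exact delta_unit (hpair q hq)
      by_cases ht : q ∈ T ∧ x q = false
      · refine ⟨(δ⁻¹).val, fun _ => ?_⟩
        rw [ZMod.natCast_zmod_val]
        refine ⟨inv_ne_zero hδ0, ?_⟩
        rw [inv_mul_cancel₀ hδ0]
        exact ⟨fun _ => ht, fun _ => IsSquare.one⟩
      · refine ⟨(δ⁻¹ * (η q : ZMod (q : ℕ))).val, fun _ => ?_⟩
        rw [ZMod.natCast_zmod_val]
        have hη1 := hη q (hS2 q hq)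
        have hη0 : (η q : ZMod (q : ℕ)) ≠ 0 := by
          intro h
          rw [h] at hη1
          exact hη1 IsSquare.zero
        refine ⟨mul_ne_zero (inv_ne_zero hδ0) hη0, ?_⟩
        have e : δ⁻¹ * (η q : ZMod (q : ℕ)) * δ = (η q : ZMod (q : ℕ)) := by
          field_simp
        rw [e]
        exact ⟨fun h => absurd h hη1, fun h => absurd h ht⟩
    · exact ⟨0, fun h => absurd h hq⟩
  choose r hr using hres
  -- the progression
  obtain ⟨k, hk⟩ := Nat.chineseRemainderOfFinset r (fun q : Nat.Primes => (q : ℕ)) S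
    (fun q _ => q.2.ne_zero) (fun q _ q' _ hqq => (Nat.coprime_primes q.2 q'.2).2
      fun h => hqq (Nat.Primes.coe_nat_injective h))
  set M : ℕ := ∏ q ∈ S, (q : ℕ) with hM
  have hco : Nat.Coprime n M := by
    rw [hM]
    refine Nat.Coprime.prod_right fun q hq => ?_
    rw [Nat.coprime_comm, Nat.Prime.coprime_iff_not_dvd q.2]
    intro h
    exact ((hSm q).1 hq).1 (hnp q q.2 h)
  obtain ⟨c, hc1, hc2⟩ := Nat.chineseRemainder hco 2 k
  have hcq : ∀ q ∈ S, c ≡ r q [MOD (q : ℕ)] := fun q hq =>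
    (hc2.of_dvd (Finset.dvd_prod_of_mem (fun q : Nat.Primes => (q : ℕ)) hq)).trans (hk q hq)
  have hn0 : 0 < n := hn.pos
  have hM0 : 0 < M := Finset.prod_pos fun q _ => q.2.pos
  refine ⟨n * M, c, Nat.mul_pos hn0 hM0, dvd_mul_right _ _, ?_, hc1, ?_⟩
  · refine Nat.Coprime.mul_right ?_ ?_
    · rw [Nat.Coprime, hc1.gcd_eq]
      exact (Nat.coprime_two_left).2 hn
    · rw [hM]
      refine Nat.Coprime.prod_right fun q hq => ?_
      rw [Nat.coprime_comm, Nat.Prime.coprime_iff_not_dvd q.2]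
      intro h
      apply (hr q hq).1
      rw [← (ZMod.natCast_eq_natCast_iff _ _ _).2 (hcq q hq)]
      exact (ZMod.natCast_eq_zero_iff _ _).2 h
  · intro D hD hD2 hDc hDp
    have hDq : ∀ q ∈ S, ((D : ℤ) : ZMod (q : ℕ)) = (r q : ZMod (q : ℕ)) := by
      intro q hq
      have h1 : D ≡ c [ZMOD (q : ℕ)] := by
        refine hDc.of_dvd ?_
        push_cast
        refine Dvd.dvd.mul_left ?_ _
        exact_mod_cast Finset.dvd_prod_of_mem (fun q : Nat.Primes => (q : ℕ)) hq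
      rw [(ZMod.intCast_eq_intCast_iff _ _ _).2 h1, Int.cast_natCast,
        (ZMod.natCast_eq_natCast_iff _ _ _).2 (hcq q hq)]
    have hDn : ∀ q ∈ S, ¬ ((q : ℕ) : ℤ) ∣ D := by
      intro q hq h
      apply (hr q hq).1
      rw [← hDq q hq]
      exact (ZMod.intCast_zmod_eq_zero_iff_dvd _ _).2 h
    have hsq : ∀ q ∈ S, (IsSquare (((D * ∏ l ∈ LL (ip q) (bp q), (a (ip q) - a l) : ℤ)) :
        ZMod (q : ℕ)) ↔ q ∈ T ∧ x q = false) := by
      intro q hq
      rw [Int.cast_mul, hDq q hq]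
      exact (hr q hq).2
    intro e he hR hP i
    refine ratio_tw (T := T) (ip := ip) (bp := bp) hθm hodd ha hD hD2 hDp h2 ?_ ?_ jj d
      (fun q _ => rfl) hd1 x hx ?_ hR hP he i
    · intro q hq
      exact ⟨hS2 q (hTS q hq), hDn q (hTS q hq), hpair q (hTS q hq), (Finset.mem_filter.1 hq).2⟩
    · intro p hp
      by_cases ho : NS θ p
      · exact Or.inl ho
      · right
        by_cases ht : Tree p a
        · exact Or.inl ht
        · right
          have hat := ((hcond p hp).resolve_left ho).resolve_left ht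
          obtain ⟨i, j, hij, hd⟩ : ∃ i j : Fin (2 * g + 1), i ≠ j ∧ (p : ℤ) ∣ a i - a j := by
            by_contra hcon
            push Not at hcon
            exact ht (tree_of_none hcon)
          have hqS : (⟨p, hp⟩ : Nat.Primes) ∈ S :=
            (hSm _).2 ⟨ho, i, j, pair_of hat hij hd⟩
          refine ⟨ip ⟨p, hp⟩, bp ⟨p, hp⟩, hS2 _ hqS, hpair _ hqS, fun h => ?_, fun h h3 => ?_⟩
          · exact ⟨⟨p, hp⟩, Finset.mem_filter.2 ⟨hqS, h⟩, rfl⟩
          · have h4 := ((hsq _ hqS).1 h3).1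
            have h5 := (Finset.mem_filter.1 h4).2
            exact (Nat.not_even_iff_odd.2 h5) h
    · intro q hq
      rw [hsq q (hTS q hq)]
      exact ⟨fun h => h.2, fun h => ⟨hq, h⟩⟩

end Pool.Agent.Helper891_EG
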