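import Pool.Agent.Helper891_EG.Sp

/-!
# The Frobenius automorphism of a cyclotomic field preserves the places
-/

set_option autoImplicit false
set_option linter.unusedSectionVars false
set_option linter.style.haveILetI false

namespace Pool.Agent.Helper891_EG.Fr

open NumberField IsDedekindDomain Module
open Pool.Agent.TH841.NF (pls pid mem_pid)
open Pool.Agent.Helper891_RP (norm_eq_of_pls)
open Pool.Agent.Helper891_EG (NS exists_comp)

section frob

variable {n : ℕ} [NeZero n] {C : Type} [Field C] [NumberField C] [IsCyclotomicExtension {n} ℚ C]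

lemma exists_frob {p : ℕ} (hpn : p.Coprime n) :
    ∃ σ : C ≃ₐ[ℚ] C, ∀ ζ : C, ζ ^ n = 1 → σ ζ = ζ ^ p := by
  refine ⟨(IsCyclotomicExtension.Rat.galEquivZMod n C).symm (ZMod.unitOfCoprime p hpn),
    fun ζ hζ => ?_⟩
  rw [IsCyclotomicExtension.Rat.galEquivZMod_apply_of_pow_eq n C _ hζ, MulEquiv.apply_symm_apply,
    ZMod.coe_unitOfCoprime, ZMod.val_natCast, ← pow_eq_pow_mod p hζ]

/-- the congruence -/
lemma frob_cong {p : ℕ} [hp : Fact p.Prime] {σ : C ≃ₐ[ℚ] C}
    (hσ : ∀ ζ : C, ζ ^ n = 1 → σ ζ = ζ ^ p) {x : C} (hx : IsIntegral ℤ x) :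
    ∃ y : C, IsIntegral ℤ y ∧ σ x = x ^ p + p * y := by
  obtain ⟨ζ, hζ⟩ := IsCyclotomicExtension.exists_isPrimitiveRoot ℚ C (Set.mem_singleton n)
    (NeZero.ne n)
  have hic := IsCyclotomicExtension.Rat.isIntegralClosure_adjoin_singleton hζ
  have hmem : x ∈ Algebra.adjoin ℤ ({ζ} : Set C) := by
    obtain ⟨y, hy⟩ := hic.isIntegral_iff.1 hx
    rw [← hy]
    exact y.2
  have hint : ∀ z ∈ Algebra.adjoin ℤ ({ζ} : Set C), IsIntegral ℤ z := fun z hz =>
    hic.isIntegral_iff.2 ⟨⟨z, hz⟩, rfl⟩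
  clear hx
  induction hmem using Algebra.adjoin_induction with
  | mem x hx =>
    rw [Set.mem_singleton_iff] at hx
    refine ⟨0, isIntegral_zero, ?_⟩
    rw [hx, mul_zero, add_zero]
    exact hσ ζ hζ.pow_eq_one
  | algebraMap r =>
    have h1 : (p : ℤ) ∣ r - r ^ p := by
      rw [← ZMod.intCast_zmod_eq_zero_iff_dvd]
      push_cast
      rw [ZMod.pow_card, sub_self]
    obtain ⟨s, hs⟩ := h1
    refine ⟨algebraMap ℤ C s, isIntegral_algebraMap, ?_⟩
    have h2 : r = r ^ p + p * s := by rw [← hs]; ring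
    rw [eq_intCast, eq_intCast, map_intCast]
    exact_mod_cast congrArg (fun z : ℤ => (z : C)) h2
  | add x y hx hy ihx ihy =>
    obtain ⟨u, hu, hxu⟩ := ihx
    obtain ⟨v, hv, hyv⟩ := ihy
    obtain ⟨r, hr⟩ := exists_add_pow_prime_eq hp.out (⟨x, hx⟩ : Algebra.adjoin ℤ ({ζ} : Set C))
      ⟨y, hy⟩
    have hr' : (x + y) ^ p = x ^ p + y ^ p + p * x * y * (r : C) := by
      have := congrArg (Subtype.val) hr
      simpa using this
    refine ⟨u + v - x * y * (r : C), ((hu.add hv).sub (((hint x hx).mul (hint y hy)).mul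
      (hint _ r.2))), ?_⟩
    rw [map_add, hxu, hyv, hr']
    ring
  | mul x y hx hy ihx ihy =>
    obtain ⟨u, hu, hxu⟩ := ihx
    obtain ⟨v, hv, hyv⟩ := ihy
    refine ⟨x ^ p * v + u * y ^ p + p * (u * v), ?_, ?_⟩
    · have h1 := ((hint x hx).pow p).mul hv
      have h2 := hu.mul ((hint y hy).pow p)
      have h3 : IsIntegral ℤ ((p : C) * (u * v)) := (isIntegral_natCast p).mul (hu.mul hv)
      exact (h1.add h2).add h3
    · rw [map_mul, hxu, hyv]
      ring

/-- the Frobenius automorphism preserves all the places above `p` -/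
theorem ns_frob {p : ℕ} {σ : C ≃ₐ[ℚ] C} (hσ : ∀ ζ : C, ζ ^ n = 1 → σ ζ = ζ ^ p) : NS σ p := by
  intro hp j x
  have hpls : pls (p := p) (j.comp (σ : C →+* C)) = pls j := by
    apply HeightOneSpectrum.ext
    ext y
    show y ∈ pid (j.comp (σ : C →+* C)) ↔ y ∈ pid j
    rw [mem_pid, mem_pid]
    obtain ⟨z, hz, hyz⟩ := frob_cong (p := p) hσ (x := (y : C)) y.isIntegral_coe
    have hz1 : ‖j z‖ ≤ 1 := Pool.Agent.TH841.NF.norm_int j ⟨z, hz⟩
    have hpz : ‖j (p * z)‖ < 1 := by
      rw [map_mul, map_natCast, norm_mul]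
      exact mul_lt_one_of_nonneg_of_lt_one_left (norm_nonneg _)
        Pool.Agent.W571.RK.norm_p_lt_one hz1
    have hy1 : ‖j (y : C)‖ ≤ 1 := Pool.Agent.TH841.NF.norm_int j y
    have e : (j.comp (σ : C →+* C)) (algebraMap (𝓞 C) C y) = j (y : C) ^ p + j (p * z) := by
      show j (σ (y : C)) = _
      rw [hyz, map_add, map_pow]
    rw [e]
    constructor
    · intro h
      have h1 : ‖j (y : C) ^ p‖ < 1 := by
        have h2 : j (y : C) ^ p = (j (y : C) ^ p + j (p * z)) + -(j (p * z)) := by ring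
        rw [h2]
        exact (IsUltrametricDist.norm_add_le_max _ _).trans_lt (max_lt h (by rwa [norm_neg]))
      rw [norm_pow] at h1
      by_contra hcon
      rw [not_lt] at hcon
      exact absurd h1 (not_lt.2 (one_le_pow₀ hcon))
    · intro h
      refine (IsUltrametricDist.norm_add_le_max _ _).trans_lt (max_lt ?_ hpz)
      rw [norm_pow]
      exact pow_lt_one₀ (norm_nonneg _) h hp.out.ne_zero
  exact norm_eq_of_pls hpls x

end frob

end Pool.Agent.Helper891_EG.Fr
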