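import Mathlib

/-!
# Selection of signs
-/

set_option autoImplicit false
set_option linter.unusedSectionVars false

namespace Pool.Agent.Helper891_EG

section simp

variable (G : Type) [Group G] [Fintype G]

/-- the vectors with the property `Z` form a simple module -/
def Simp (Z : (G → ZMod 2) → Prop) : Prop := ∀ N : AddSubgroup (G → ZMod 2),
  (∀ n ∈ N, ∀ h : G, (fun g => n (g * h)) ∈ N) → ∀ n ∈ N, n ≠ 0 → Z n →
    ∀ n' : G → ZMod 2, Z n' → n' ∈ N

open Polynomial in
theorem simp_of_prime {l k : ℕ} (hl : l.Prime) (hl2 : l ≠ 2) {γ : G}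
    (hγ : ∀ x, x ∈ Subgroup.zpowers γ) (hG : Nat.card G = l ^ (k + 1))
    (h2 : orderOf (2 : ZMod (l ^ (k + 1))) = (l ^ (k + 1)).totient) :
    Simp G (fun n => ∀ g, ∑ i ∈ Finset.range l, n (g * (γ ^ l ^ k) ^ i) = 0) := by
  classical
  intro N hN n hn hn0 hsum n' hsum'
  have : Fact l.Prime := ⟨hl⟩
  set L := l ^ (k + 1) with hL
  have hL0 : 0 < L := Nat.pow_pos hl.pos
  have hγo : orderOf γ = L := by
    rw [← hG]
    exact orderOf_eq_card_of_forall_mem_zpowers hγ
  have hγl : γ ^ L = 1 := by rw [← hγo]; exact pow_orderOf_eq_one γ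
  -- the shift
  let T : (G → ZMod 2) →ₗ[ZMod 2] (G → ZMod 2) :=
    { toFun := fun n g => n (g * γ)
      map_add' := fun _ _ => rfl
      map_smul' := fun _ _ => rfl }
  have hTk : ∀ (k : ℕ) (m : G → ZMod 2) (g : G), (T ^ k) m g = m (g * γ ^ k) := by
    intro k
    induction k with
    | zero => intro m g; simp
    | succ k ih =>
      intro m g
      rw [pow_succ', Module.End.mul_apply]
      show (T ^ k) m (g * γ) = _
      rw [ih, pow_succ', mul_assoc]
  have hmem : ∀ (P : (ZMod 2)[X]) (m : G → ZMod 2), m ∈ N → aeval T P m ∈ N := by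
    intro P m hm
    induction P using Polynomial.induction_on' with
    | add p q hp hq =>
      rw [map_add, LinearMap.add_apply]
      exact N.add_mem hp hq
    | monomial k c =>
      rw [aeval_monomial, Module.End.mul_apply, Module.algebraMap_end_apply]
      have h1 : (T ^ k) m ∈ N := by
        have h3 := hN m hm (γ ^ k)
        have e : (T ^ k) m = fun g => m (g * γ ^ k) := funext fun g => hTk k m g
        rw [e]
        exact h3
      have hc : c = 0 ∨ c = 1 := by
        revert c
        decide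
      rcases hc with rfl | rfl
      · rw [zero_smul]
        exact N.zero_mem
      · rw [one_smul]
        exact h1
  set δ : G → ZMod 2 := Pi.single 1 1 with hδ
  have hgen : ∀ m : G → ZMod 2, ∃ P : (ZMod 2)[X], aeval T P δ = m := by
    intro m
    have hm : m = ∑ g, m g • (Pi.single g 1 : G → ZMod 2) := by
      funext x
      rw [Finset.sum_apply, Finset.sum_eq_single x]
      · simp
      · intro b _ hb
        simp [hb.symm]
      · intro h
        exact absurd (Finset.mem_univ _) h
    have hsg : ∀ g : G, ∃ k : ℕ, g * γ ^ k = 1 := by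
      intro g
      obtain ⟨k, hk⟩ := (isOfFinOrder_of_finite γ).mem_zpowers_iff_mem_range_orderOf.1 (hγ g⁻¹) |>
        Finset.mem_image.1
      exact ⟨k, by rw [hk.2, mul_inv_cancel]⟩
    choose k hk using hsg
    refine ⟨∑ g, C (m g) * X ^ k g, ?_⟩
    rw [map_sum, LinearMap.sum_apply]
    conv_rhs => rw [hm]
    refine Finset.sum_congr rfl fun g _ => ?_
    rw [map_mul, aeval_C, map_pow, aeval_X, Module.End.mul_apply, Module.algebraMap_end_apply]
    congr 1
    funext x
    rw [hTk, hδ]
    by_cases hx : x = g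
    · rw [hx, hk, Pi.single_eq_same, Pi.single_eq_same]
    · rw [Pi.single_eq_of_ne, Pi.single_eq_of_ne hx]
      intro h
      apply hx
      exact mul_right_cancel (h.trans (hk g).symm)
  have hXl : aeval T (X ^ L - 1 : (ZMod 2)[X]) δ = 0 := by
    rw [map_sub, map_pow, aeval_X, map_one, LinearMap.sub_apply, Module.End.one_apply, sub_eq_zero]
    funext x
    rw [hTk, hγl, mul_one]
  have hmon : (X ^ L - 1 : (ZMod 2)[X]).Monic := monic_X_pow_sub_C (1 : ZMod 2) hL0.ne' |> fun h => by
    rwa [C_1] at h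
  -- the annihilator
  have hann : ∀ P : (ZMod 2)[X], aeval T P δ = 0 → (X ^ L - 1 : (ZMod 2)[X]) ∣ P := by
    intro P hP
    rw [← modByMonic_eq_zero_iff_dvd hmon]
    set R := P %ₘ (X ^ L - 1 : (ZMod 2)[X]) with hR
    have hRd : R.natDegree < L := by
      have h3 : (X ^ L - 1 : (ZMod 2)[X]).natDegree = L := by
        have := natDegree_X_pow_sub_C (n := L) (r := (1 : ZMod 2))
        rwa [C_1] at this
      have h1 := natDegree_modByMonic_lt P hmon (by
        intro h
        rw [h, natDegree_one] at h3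
        omega)
      rwa [h3] at h1
    have hRδ : aeval T R δ = 0 := by
      have h1 := modByMonic_add_div P (X ^ L - 1 : (ZMod 2)[X])
      rw [← h1, map_add, LinearMap.add_apply, mul_comm, map_mul, Module.End.mul_apply, hXl,
        map_zero, add_zero] at hP
      exact hP
    ext i
    rw [coeff_zero]
    by_cases hi : i < L
    · have h1 := congrFun hRδ (γ ^ i)⁻¹
      rw [aeval_eq_sum_range' hRd, LinearMap.sum_apply, Finset.sum_apply,
        Finset.sum_eq_single i] at h1
      · rw [LinearMap.smul_apply, Pi.smul_apply, hTk, inv_mul_cancel, hδ, Pi.single_eq_same,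
          smul_eq_mul, mul_one] at h1
        exact h1
      · intro b hb hbi
        rw [LinearMap.smul_apply, Pi.smul_apply, hTk, hδ, Pi.single_eq_of_ne, smul_zero]
        intro h3
        rw [inv_mul_eq_one] at h3
        have h4 := pow_inj_mod.1 h3
        rw [hγo, Nat.mod_eq_of_lt hi, Nat.mod_eq_of_lt (Finset.mem_range.1 hb)] at h4
        exact hbi h4.symm
      · intro h
        exact absurd (Finset.mem_range.2 hi) h
    · exact coeff_eq_zero_of_natDegree_lt (hRd.trans_le (not_lt.1 hi))
  set Φ : (ZMod 2)[X] := cyclotomic L (ZMod 2) with hΦ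
  have hΦs : Φ = ∑ i ∈ Finset.range l, (X ^ l ^ k) ^ i := cyclotomic_prime_pow_eq_geom_sum hl
  have hfac : (X ^ l ^ k - 1 : (ZMod 2)[X]) * Φ = X ^ L - 1 := by
    rw [hΦs, mul_geom_sum, ← pow_mul, hL, pow_succ]
  have hΦT : ∀ m : G → ZMod 2, (∀ g, ∑ i ∈ Finset.range l, m (g * (γ ^ l ^ k) ^ i) = 0) →
      aeval T Φ m = 0 := by
    intro m hm
    funext g
    rw [hΦs, map_sum, LinearMap.sum_apply, Finset.sum_apply, Pi.zero_apply, ← hm g]
    refine Finset.sum_congr rfl fun i _ => ?_
    rw [map_pow, map_pow, aeval_X, ← pow_mul, hTk, ← pow_mul]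
  have hirr : Irreducible Φ := by
    have hcop : Nat.Coprime 2 L :=
      Nat.Coprime.pow_right _ ((Nat.coprime_primes Nat.prime_two hl).2 (Ne.symm hl2))
    have : Fact (Nat.Prime 2) := ⟨Nat.prime_two⟩
    refine ZMod.irreducible_of_dvd_cyclotomic_of_natDegree (n := L) (p := 2) ?_ dvd_rfl ?_
    · intro h
      exact hl2 ((Nat.prime_dvd_prime_iff_eq Nat.prime_two hl).1
        (Nat.prime_two.dvd_of_dvd_pow h)).symm
    · rw [natDegree_cyclotomic, ← h2, ← orderOf_units]
      congr 1
  obtain ⟨Q, hQ⟩ := hgen n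
  obtain ⟨R, hR⟩ := hgen n'
  have hΦ0 : Φ ≠ 0 := cyclotomic_ne_zero _ _
  have hdv : ∀ P : (ZMod 2)[X], (∀ g, ∑ i ∈ Finset.range l, (aeval T P δ) (g * (γ ^ l ^ k) ^ i) = 0) →
      (X ^ l ^ k - 1 : (ZMod 2)[X]) ∣ P := by
    intro P hP
    have h1 := hΦT _ hP
    rw [← Module.End.mul_apply, ← map_mul] at h1
    have h3 := hann _ h1
    rw [← hfac, mul_comm] at h3
    exact (mul_dvd_mul_iff_left hΦ0).1 h3
  have hdQ := hdv Q (by rw [hQ]; exact hsum)
  have hdR := hdv R (by rw [hR]; exact hsum')
  have hnc : ¬ Φ ∣ Q := by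
    intro h
    have hcp : IsCoprime (X ^ l ^ k - 1 : (ZMod 2)[X]) Φ := by
      have hsep : (X ^ L - 1 : (ZMod 2)[X]).Separable := by
        have hLz : ((L : ℕ) : ZMod 2) ≠ 0 := by
          intro h5
          rw [ZMod.natCast_eq_zero_iff] at h5
          exact hl2 ((Nat.prime_dvd_prime_iff_eq Nat.prime_two hl).1
            (Nat.prime_two.dvd_of_dvd_pow h5)).symm
        have := separable_X_pow_sub_C (1 : ZMod 2) hLz one_ne_zero
        rwa [C_1] at this
      rw [← hfac] at hsep
      exact hsep.isCoprime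
    have h3 : (X ^ L - 1 : (ZMod 2)[X]) ∣ Q := by
      rw [← hfac]
      exact hcp.mul_dvd hdQ h
    obtain ⟨S, hS⟩ := h3
    apply hn0
    rw [← hQ, hS, mul_comm, map_mul, Module.End.mul_apply, hXl, map_zero]
  obtain ⟨α, β, hαβ⟩ := (hirr.coprime_iff_not_dvd).2 hnc
  obtain ⟨R', hR'⟩ := hdR
  have hfin : n' = aeval T (R * β) n := by
    rw [← hR, ← hQ, ← Module.End.mul_apply, ← map_mul]
    have e : R = (R * β) * Q + (R' * α) * (X ^ L - 1) := by
      rw [← hfac]
      calc R = R * (α * Φ + β * Q) := by rw [hαβ, mul_one]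
        _ = R * β * Q + (R' * α) * ((X ^ l ^ k - 1) * Φ) := by
          conv_lhs => rw [hR']
          conv_rhs => rw [hR']
          ring
    conv_lhs => rw [e]
    rw [map_add, LinearMap.add_apply, map_mul (aeval T) (R' * α), Module.End.mul_apply, hXl,
      map_zero, add_zero]
  rw [hfin]
  exact hmem _ _ hn

end simp

section sel

variable {A : Type} [CommGroup A] {G : Type} [Group G] [Fintype G] {P : Type} [DecidableEq P]

/-- **selection of the signs** -/
theorem select {Z : (G → ZMod 2) → Prop} (hG : Simp G Z) (act : G → A → A) (W Sq : A → Prop) (hW1 : W 1) (hWm : ∀ a b, W a → W b → W (a * b))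
    (hWa : ∀ a h, W a → W (act h a))
    (T : Finset P) (ν : P → A → G → ZMod 2)
    (hνm : ∀ p ∈ T, ∀ a b, ν p (a * b) = ν p a + ν p b)
    (hνa : ∀ p ∈ T, ∀ a h, ν p (act h a) = fun g => ν p a (g * h))
    (hνs : ∀ p ∈ T, ∀ a, W a → Z (ν p a))
    (C : P → Bool → A → Prop) (hC1 : ∀ p ∈ T, ∀ β, C p β 1)
    (hCm : ∀ p ∈ T, ∀ β a b, C p β a → C p β b → C p β (a * b))
    (hCa : ∀ p ∈ T, ∀ β a h, C p β a → C p β (act h a))
    (hst : ∀ p ∈ T, ∀ a b, W a → W b → C p false a → C p true b → Sq (a * b) → ν p b = 0)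
    (hbase : ∀ a, W a → (∀ p ∈ T, ν p a = 0) → Sq a) :
    ∃ x : P → Bool, ∀ a, W a → (∀ p ∈ T, C p (x p) a) → Sq a := by
  have main : ∀ T' : Finset P, T' ⊆ T → ∃ x : P → Bool, ∀ a, W a → (∀ p ∈ T', C p (x p) a) →
      (∀ p ∈ T, p ∉ T' → ν p a = 0) → Sq a := by
    intro T'
    induction T' using Finset.induction_on with
    | empty =>
      intro _
      exact ⟨fun _ => false, fun a ha _ h => hbase a ha fun p hp => h p hp (Finset.notMem_empty p)⟩
    | insert p T' hp ih =>
      intro hT
      have hpT : p ∈ T := hT (Finset.mem_insert_self _ _)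
      have hT' : T' ⊆ T := fun q hq => hT (Finset.mem_insert_of_mem hq)
      obtain ⟨x, hx⟩ := ih hT'
      by_contra hcon
      push Not at hcon
      obtain ⟨a, ha, haC, haν, haS⟩ := hcon (Function.update x p false)
      obtain ⟨b, hb, hbC, hbν, hbS⟩ := hcon (Function.update x p true)
      have hup : ∀ β, ∀ q ∈ T', Function.update x p β q = x q := by
        intro β q hq
        rw [Function.update_of_ne]
        rintro rfl
        exact hp hq
      have haC' : ∀ q ∈ T', C q (x q) a := fun q hq => by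
        have := haC q (Finset.mem_insert_of_mem hq)
        rwa [hup _ q hq] at this
      have hbC' : ∀ q ∈ T', C q (x q) b := fun q hq => by
        have := hbC q (Finset.mem_insert_of_mem hq)
        rwa [hup _ q hq] at this
      have haC0 : C p false a := by
        have := haC p (Finset.mem_insert_self _ _)
        rwa [Function.update_self] at this
      have hbC1 : C p true b := by
        have := hbC p (Finset.mem_insert_self _ _)
        rwa [Function.update_self] at this
      have haν0 : ν p a ≠ 0 := by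
        intro h
        refine haS (hx a ha haC' fun q hq hq' => ?_)
        by_cases hqp : q = p
        · rw [hqp, h]
        · exact haν q hq (by rw [Finset.mem_insert]; exact fun h => h.elim hqp hq')
      have hbν0 : ν p b ≠ 0 := by
        intro h
        refine hbS (hx b hb hbC' fun q hq hq' => ?_)
        by_cases hqp : q = p
        · rw [hqp, h]
        · exact hbν q hq (by rw [Finset.mem_insert]; exact fun h => h.elim hqp hq')
      let U : A → Prop := fun c => W c ∧ (∀ q ∈ T', C q (x q) c) ∧ C p false c ∧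
        ∀ q ∈ T, q ∉ insert p T' → ν q c = 0
      have hν1 : ∀ q ∈ T, ν q 1 = 0 := by
        intro q hq
        have := hνm q hq 1 1
        rw [mul_one] at this
        exact left_eq_add.1 this
      let N : AddSubgroup (G → ZMod 2) :=
        { carrier := {n | ∃ c, U c ∧ ν p c = n}
          zero_mem' := ⟨1, ⟨hW1, fun q hq => hC1 q (hT' hq) _, hC1 p hpT _, fun q hq _ => hν1 q hq⟩,
            hν1 p hpT⟩
          add_mem' := by
            rintro _ _ ⟨c, hc, rfl⟩ ⟨d, hd, rfl⟩
            refine ⟨c * d, ⟨hWm _ _ hc.1 hd.1, fun q hq => hCm q (hT' hq) _ _ _ (hc.2.1 q hq)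
              (hd.2.1 q hq), hCm p hpT _ _ _ hc.2.2.1 hd.2.2.1, fun q hq hq' => ?_⟩, hνm p hpT _ _⟩
            rw [hνm q hq, hc.2.2.2 q hq hq', hd.2.2.2 q hq hq', add_zero]
          neg_mem' := by
            rintro _ ⟨c, hc, rfl⟩
            refine ⟨c, hc, ?_⟩
            funext g
            rw [Pi.neg_apply, ZMod.neg_eq_self_mod_two] }
      have hNs : ∀ n ∈ N, ∀ h : G, (fun g => n (g * h)) ∈ N := by
        rintro _ ⟨c, hc, rfl⟩ h
        refine ⟨act h c, ⟨hWa _ _ hc.1, fun q hq => hCa q (hT' hq) _ _ _ (hc.2.1 q hq),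
          hCa p hpT _ _ _ hc.2.2.1, fun q hq hq' => ?_⟩, hνa p hpT _ _⟩
        rw [hνa q hq, hc.2.2.2 q hq hq']
        rfl
      have haN : ν p a ∈ N := ⟨a, ⟨ha, haC', haC0, haν⟩, rfl⟩
      obtain ⟨c, hc, hcν⟩ := hG N hNs _ haN haν0 (hνs p hpT a ha) (ν p b) (hνs p hpT b hb)
      have hcb : Sq (c * b) := by
        refine hx _ (hWm _ _ hc.1 hb) (fun q hq => hCm q (hT' hq) _ _ _ (hc.2.1 q hq) (hbC' q hq))
          fun q hq hq' => ?_
        by_cases hqp : q = p
        · rw [hqp, hνm p hpT, hcν]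
          funext g
          exact CharTwo.add_self_eq_zero _
        · have h3 : q ∉ insert p T' := by
            rw [Finset.mem_insert]
            exact fun h => h.elim hqp hq'
          rw [hνm q hq, hc.2.2.2 q hq h3, hbν q hq h3, add_zero]
      exact hbν0 (hst p hpT c b hc.1 hb hc.2.2.1 hbC1 hcb)
  obtain ⟨x, hx⟩ := main T subset_rfl
  exact ⟨x, fun a ha h => hx a ha h fun p hp hp' => absurd hp hp'⟩

end sel

end Pool.Agent.Helper891_EG
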