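import Pool.Agent.Helper891_EG.Lo
import Pool.Agent.Helper891_EG.Sl

/-!
# The global step
-/

set_option autoImplicit false
set_option linter.unusedSectionVars false

namespace Pool.Agent.Helper891_EG

open Polynomial NumberField IsDedekindDomain Module
open Pool.Agent.Y723.HJ (hpol hpol_map)
open Pool.Agent.Y715.Nr Pool.Agent.Y715.Red
open Pool.Agent.TH841.NF (pls lf mem_lf)
open Pool.Agent.Y682 (NCl UnrC TotPos elt_sq sq_of_unrC)
open Pool.Agent.Helper891_RP (exists_pls exists_prime_mem p_mem_pls parity)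
open Pool.Agent.Helper891_JO

section par

variable {F : Type} [Field F] [NumberField F] {p : ℕ} [hp : Fact p.Prime]

open Classical in
/-- the parity of the valuation -/
noncomputable def par (j : F →+* PadicAlgCl p) (x : F) : ZMod 2 := if Ev j x then 0 else 1

lemma par_eq_zero {j : F →+* PadicAlgCl p} {x : F} : par j x = 0 ↔ Ev j x := by
  unfold par
  split_ifs with h
  · exact ⟨fun _ => h, fun _ => rfl⟩
  · exact ⟨fun h1 => absurd h1 (by decide), fun h1 => absurd h1 h⟩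

lemma par_mul {j : F →+* PadicAlgCl p} {x y : F} (hx : x ≠ 0) (hy : y ≠ 0) :
    par j (x * y) = par j x + par j y := by
  unfold par
  by_cases h1 : Ev j x
  · by_cases h2 : Ev j y
    · rw [if_pos h1, if_pos h2, if_pos (h1.mul h2), add_zero]
    · rw [if_pos h1, if_neg h2, if_neg fun h => h2 (Ev.of_mul h1 h), zero_add]
  · by_cases h2 : Ev j y
    · rw [if_neg h1, if_pos h2, if_neg fun h => h1 (Ev.of_mul h2 (by rwa [mul_comm] at h)), add_zero]
    · rw [if_neg h1, if_neg h2, if_pos (ev_of_not hx hy h1 h2)]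
      decide

lemma par_comp (j : F →+* PadicAlgCl p) (γ : F ≃ₐ[ℚ] F) (x : F) :
    par (j.comp (γ : F →+* F)) x = par j (γ x) := by
  unfold par
  by_cases h : Ev j (γ x)
  · rw [if_pos h, if_pos ((ev_comp γ).2 h)]
  · rw [if_neg h, if_neg fun h' => h ((ev_comp γ).1 h')]

lemma par_prod {ι : Type*} (s : Finset ι) (f : ι → F) (j : F →+* PadicAlgCl p)
    (hf : ∀ i, f i ≠ 0) : par j (∏ i ∈ s, f i) = ∑ i ∈ s, par j (f i) := by
  classical
  induction s using Finset.induction_on with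
  | empty =>
    rw [Finset.prod_empty, Finset.sum_empty, par_eq_zero]
    exact Ev.one
  | insert i s hi ih =>
    rw [Finset.prod_insert hi, Finset.sum_insert hi, par_mul (hf i)
      (Finset.prod_ne_zero_iff.2 fun i _ => hf i), ih]

/-- all the embeddings are conjugate -/
lemma exists_comp [IsGalois ℚ F] {Ω : Type} [Field Ω] [CharZero Ω] (j j' : F →+* Ω) :
    ∃ γ : F ≃ₐ[ℚ] F, ∀ x, j x = j' (γ x) := by
  letI : Algebra F Ω := j'.toAlgebra
  haveI : IsScalarTower ℚ F Ω := IsScalarTower.of_algebraMap_eq fun x =>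
    DFunLike.congr_fun (Subsingleton.elim (algebraMap ℚ Ω) (j'.comp (algebraMap ℚ F))) x
  have hc : ∀ x, j (algebraMap ℚ F x) = algebraMap ℚ Ω x := fun x =>
    DFunLike.congr_fun (Subsingleton.elim (j.comp (algebraMap ℚ F)) (algebraMap ℚ Ω)) x
  let φ : F →ₐ[ℚ] Ω := { j with commutes' := hc }
  refine ⟨Normal.algHomEquivAut ℚ Ω F φ, fun x => ?_⟩
  have h := (Normal.algHomEquivAut ℚ Ω F).left_inv φ
  have h1 := DFunLike.congr_fun h x
  exact h1.symm

end par

section defs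

variable {F : Type} [Field F] [NumberField F] {g : ℕ}

instance factPr (p : Nat.Primes) : Fact (p : ℕ).Prime := ⟨p.2⟩

/-- the action on the tuples -/
def actU (h : F ≃ₐ[ℚ] F) (e : Fin (2 * g + 1) → Fˣ) : Fin (2 * g + 1) → Fˣ :=
  fun l => Units.map (h : F →* F) (e l)

lemma actU_val (h : F ≃ₐ[ℚ] F) (e : Fin (2 * g + 1) → Fˣ) (l : Fin (2 * g + 1)) :
    ((actU h e l : Fˣ) : F) = h (e l) := rfl

/-- tuples of squares -/
def SqU (e : Fin (2 * g + 1) → Fˣ) : Prop := ∀ l, ∃ y : F, (e l : F) = y ^ 2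

/-- the conditions that do not depend on the twist -/
structure WW (η : F ≃ₐ[ℚ] F) (m : ℕ) (a : Fin (2 * g + 1) → ℤ) (T : Finset Nat.Primes)
    (ip bp : Nat.Primes → Fin (2 * g + 1)) (e : Fin (2 * g + 1) → Fˣ) : Prop where
  w0 : ∀ l, ∃ y : F, ∏ i ∈ Finset.range m, (η ^ i) (e l : F) = y ^ 2
  w1 : ∀ (p : ℕ) [Fact p.Prime] (j : F →+* PadicAlgCl p) (l : Fin (2 * g + 1)),
    (∀ q ∈ T, (q : ℕ) = p → l ≠ ip q ∧ l ≠ bp q) → Ev j (e l : F)
  w2 : ∀ (p : ℕ) [Fact p.Prime] (j : F →+* PadicAlgCl p), ∀ q ∈ T, (q : ℕ) = p →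
    Ev j ((e (ip q) : F) * e (bp q))
  w3 : ∀ φ : F →+* ℝ, 0 < φ (e 0)
  w4 : ∀ (φ : F →+* ℝ) (k : ℕ) (i j : Fin (2 * g + 1)), (i : ℕ) = 2 * k + 1 → (j : ℕ) = 2 * k + 2 →
    0 < φ (e i) * φ (e j)
  w5 : ∀ S, Clus a S → ∀ j : F →+* PadicAlgCl 2, ∃ t : F, t ≠ 0 ∧
    ‖j ((∏ i ∈ S, (e i : F)) * t ^ 2 - 1)‖ < 1 / 8

/-- the condition at a prime with exactly two congruent roots -/
def CC (ip bp : Nat.Primes → Fin (2 * g + 1)) (jj : ∀ p : Nat.Primes, F →+* PadicAlgCl (p : ℕ))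
    (d : Nat.Primes → Bool → ℤ) (p : Nat.Primes) (β : Bool) (e : Fin (2 * g + 1) → Fˣ) : Prop :=
  ∀ h : F ≃ₐ[ℚ] F,
    (Ev ((jj p).comp (h : F →+* F)) (e (ip p) : F) →
      LS ((jj p).comp (h : F →+* F)) ((e (ip p) : F) * e (bp p))) ∧
    (¬ Ev ((jj p).comp (h : F →+* F)) (e (ip p) : F) →
      LS ((jj p).comp (h : F →+* F)) ((e (ip p) : F) * e (bp p) * (d p β : F)))

variable {η : F ≃ₐ[ℚ] F} {m : ℕ} {a : Fin (2 * g + 1) → ℤ} {T : Finset Nat.Primes}
    {ip bp : Nat.Primes → Fin (2 * g + 1)}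

lemma WW.one : WW (F := F) η m a T ip bp 1 where
  w0 := fun l => ⟨1, by simp⟩
  w1 := fun p _ j l _ => by
    rw [Pi.one_apply, Units.val_one]
    exact Ev.one
  w2 := fun p _ j q _ _ => by
    rw [Pi.one_apply, Pi.one_apply, Units.val_one, mul_one]
    exact Ev.one
  w3 := fun φ => by
    rw [Pi.one_apply, Units.val_one, map_one]
    exact one_pos
  w4 := fun φ k i j _ _ => by
    rw [Pi.one_apply, Pi.one_apply, Units.val_one, map_one, mul_one]
    exact one_pos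
  w5 := fun S _ j => ⟨1, one_ne_zero, by simp⟩

lemma WW.mul {e e' : Fin (2 * g + 1) → Fˣ} (h : WW η m a T ip bp e) (h' : WW η m a T ip bp e') :
    WW η m a T ip bp (e * e') where
  w0 := fun l => by
    obtain ⟨y, hy⟩ := h.w0 l
    obtain ⟨z, hz⟩ := h'.w0 l
    refine ⟨y * z, ?_⟩
    rw [mul_pow, ← hy, ← hz, ← Finset.prod_mul_distrib]
    exact Finset.prod_congr rfl fun h _ => by rw [Pi.mul_apply, Units.val_mul, map_mul]
  w1 := fun p _ j l hl => by
    rw [Pi.mul_apply, Units.val_mul]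
    exact (h.w1 p j l hl).mul (h'.w1 p j l hl)
  w2 := fun p _ j q hq hqp => by
    rw [Pi.mul_apply, Pi.mul_apply, Units.val_mul, Units.val_mul, mul_mul_mul_comm]
    exact (h.w2 p j q hq hqp).mul (h'.w2 p j q hq hqp)
  w3 := fun φ => by
    rw [Pi.mul_apply, Units.val_mul, map_mul]
    exact mul_pos (h.w3 φ) (h'.w3 φ)
  w4 := fun φ k i j hi hj => by
    rw [Pi.mul_apply, Pi.mul_apply, Units.val_mul, Units.val_mul, map_mul, map_mul,
      mul_mul_mul_comm]
    exact mul_pos (h.w4 φ k i j hi hj) (h'.w4 φ k i j hi hj)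
  w5 := fun S hS j => by
    obtain ⟨t, ht0, ht⟩ := h.w5 S hS j
    obtain ⟨s, hs0, hs⟩ := h'.w5 S hS j
    refine ⟨t * s, mul_ne_zero ht0 hs0, ?_⟩
    have e1 : (∏ i ∈ S, ((e * e') i : F)) * (t * s) ^ 2 - 1 =
        ((∏ i ∈ S, (e i : F)) * t ^ 2) * ((∏ i ∈ S, (e' i : F)) * s ^ 2 - 1) +
          ((∏ i ∈ S, (e i : F)) * t ^ 2 - 1) := by
      simp only [Pi.mul_apply, Units.val_mul, Finset.prod_mul_distrib]
      ring
    have h3 : ‖j ((∏ i ∈ S, (e i : F)) * t ^ 2)‖ = 1 := by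
      apply norm_one_near
      rw [← map_one j, ← map_sub]
      exact ht.trans (by norm_num)
    rw [e1, map_add]
    exact add_lt (by rw [map_mul, norm_mul, h3, one_mul]; exact hs) ht

lemma WW.act {e : Fin (2 * g + 1) → Fˣ} (h : WW η m a T ip bp e) (γ : F ≃ₐ[ℚ] F)
    (hc : Commute η γ) : WW η m a T ip bp (actU γ e) where
  w0 := fun l => by
    obtain ⟨y, hy⟩ := h.w0 l
    refine ⟨γ y, ?_⟩
    rw [← map_pow, ← hy, map_prod]
    refine Finset.prod_congr rfl fun i _ => ?_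
    rw [actU_val]
    exact DFunLike.congr_fun (hc.pow_left i).eq (e l : F)
  w1 := fun p _ j l hl => by
    rw [actU_val, ← ev_comp]
    exact h.w1 p _ l hl
  w2 := fun p _ j q hq hqp => by
    rw [actU_val, actU_val, ← map_mul, ← ev_comp]
    exact h.w2 p _ q hq hqp
  w3 := fun φ => h.w3 (φ.comp (γ : F →+* F))
  w4 := fun φ k i j hi hj => h.w4 (φ.comp (γ : F →+* F)) k i j hi hj
  w5 := fun S hS j => by
    obtain ⟨t, ht0, ht⟩ := h.w5 S hS (j.comp (γ : F →+* F))
    refine ⟨γ t, (_root_.map_ne_zero γ).2 ht0, ?_⟩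
    have e1 : (∏ i ∈ S, ((actU γ e i : Fˣ) : F)) * (γ t) ^ 2 - 1 =
        γ ((∏ i ∈ S, (e i : F)) * t ^ 2 - 1) := by
      rw [map_sub, map_mul, map_pow, map_one, map_prod]
      rfl
    rw [e1]
    exact ht

variable {jj : ∀ p : Nat.Primes, F →+* PadicAlgCl (p : ℕ)} {d : Nat.Primes → Bool → ℤ}
  {p : Nat.Primes} {β : Bool}

lemma CC.one : CC ip bp jj d p β 1 := by
  intro h
  rw [Pi.one_apply, Pi.one_apply, Units.val_one]
  exact ⟨fun _ => by rw [mul_one]; exact LS.one, fun h => absurd Ev.one h⟩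

lemma CC.mul {e e' : Fin (2 * g + 1) → Fˣ} (hd : (d p β : F) ≠ 0) (h : CC ip bp jj d p β e)
    (h' : CC ip bp jj d p β e') : CC ip bp jj d p β (e * e') := by
  intro γ
  set j := (jj p).comp (γ : F →+* F) with hj
  obtain ⟨h1, h2⟩ := h γ
  obtain ⟨h3, h4⟩ := h' γ
  rw [← hj] at h1 h2 h3 h4
  rw [Pi.mul_apply, Pi.mul_apply, Units.val_mul, Units.val_mul]
  have hn1 : (e (ip p) : F) ≠ 0 := (e (ip p)).ne_zero
  have hn2 : (e' (ip p) : F) ≠ 0 := (e' (ip p)).ne_zero
  by_cases h5 : Ev j (e (ip p) : F)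
  · by_cases h6 : Ev j (e' (ip p) : F)
    · refine ⟨fun _ => ?_, fun h => absurd (h5.mul h6) h⟩
      rw [mul_mul_mul_comm]
      exact (h1 h5).mul (h3 h6)
    · refine ⟨fun h => absurd (Ev.of_mul h5 h) h6, fun _ => ?_⟩
      rw [mul_mul_mul_comm, mul_assoc]
      exact (h1 h5).mul (h4 h6)
  · by_cases h6 : Ev j (e' (ip p) : F)
    · refine ⟨fun h => absurd (Ev.of_mul h6 (by rwa [mul_comm] at h)) h5, fun _ => ?_⟩
      have e1 : (e (ip p) : F) * e' (ip p) * (e (bp p) * e' (bp p)) * (d p β : F) =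
        ((e (ip p) : F) * e (bp p) * (d p β : F)) * (e' (ip p) * e' (bp p)) := by ring
      rw [e1]
      exact (h2 h5).mul (h3 h6)
    · refine ⟨fun _ => ?_, fun h => absurd (ev_of_not hn1 hn2 h5 h6) h⟩
      have e1 : (d p β : F) ^ 2 * ((e (ip p) : F) * e' (ip p) * (e (bp p) * e' (bp p))) =
        ((e (ip p) : F) * e (bp p) * (d p β : F)) * (e' (ip p) * e' (bp p) * (d p β : F)) := by ring
      refine LS.of_mul (LS.sq hd) ?_
      rw [e1]
      exact (h2 h5).mul (h4 h6)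

lemma CC.act {e : Fin (2 * g + 1) → Fˣ} (h : CC ip bp jj d p β e) (γ : F ≃ₐ[ℚ] F) :
    CC ip bp jj d p β (actU γ e) := by
  intro γ'
  obtain ⟨h1, h2⟩ := h (γ' * γ)
  have e1 : (jj p).comp ((γ' * γ : F ≃ₐ[ℚ] F) : F →+* F) =
      ((jj p).comp (γ' : F →+* F)).comp (γ : F →+* F) := RingHom.ext fun _ => rfl
  rw [e1] at h1 h2
  rw [actU_val, actU_val]
  constructor
  · intro h3
    rw [← map_mul, ← ls_comp]
    exact h1 ((ev_comp γ).2 h3)
  · intro h3
    have e2 : γ (e (ip p) : F) * γ (e (bp p) : F) * (d p β : F) =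
        γ ((e (ip p) : F) * (e (bp p) : F) * (d p β : F)) := by
      rw [map_mul, map_mul, map_intCast]
    rw [e2, ← ls_comp]
    exact h2 fun h4 => h3 ((ev_comp γ).1 h4)

end defs

section main

variable {F : Type} [Field F] [NumberField F] [IsGalois ℚ F] {g : ℕ} {η : F ≃ₐ[ℚ] F} {m : ℕ}
  {a : Fin (2 * g + 1) → ℤ} {T : Finset Nat.Primes}
  {ip bp : Nat.Primes → Fin (2 * g + 1)}

/-- the case where all the valuations are even -/
theorem base_sq [IsTotallyReal F] (hN : Odd (Nat.card (NCl F))) (hspan : Spn a)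
    (jj : ∀ p : Nat.Primes, F →+* PadicAlgCl (p : ℕ)) {e : Fin (2 * g + 1) → Fˣ}
    (h : WW η m a T ip bp e)
    (hν : ∀ p ∈ T, ∀ γ : F ≃ₐ[ℚ] F, Ev ((jj p).comp (γ : F →+* F)) (e (ip p) : F)) : SqU e := by
  classical
  intro i
  have hev : ∀ (p : ℕ) [Fact p.Prime] (j : F →+* PadicAlgCl p) (l : Fin (2 * g + 1)),
      Ev j (e l : F) := by
    intro p hp j l
    by_cases hq : ∀ q ∈ T, (q : ℕ) = p → l ≠ ip q ∧ l ≠ bp q
    · exact h.w1 p j l hq
    · push Not at hq
      obtain ⟨q, hq, rfl, hl⟩ := hq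
      have h1 : Ev j (e (ip q) : F) := by
        obtain ⟨γ, hγ⟩ := exists_comp j (jj q)
        have e1 : j = (jj q).comp (γ : F →+* F) := RingHom.ext hγ
        rw [e1]
        exact hν q hq γ
      by_cases h2 : l = ip q
      · rw [h2]
        exact h1
      · rw [hl h2]
        exact Ev.of_mul h1 (h.w2 _ j q hq rfl)
  have hval : ∀ (v : HeightOneSpectrum (𝓞 F)) (i : Fin (2 * g + 1)), ∃ n : ℤ,
      v.valuation F (e i : F) = WithZero.exp (2 * n) := by
    intro v i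
    obtain ⟨p, hp, hpv⟩ := exists_prime_mem v
    have : Fact p.Prime := ⟨hp⟩
    obtain ⟨j, rfl⟩ := exists_pls (p := p) v hpv
    obtain ⟨z, hz, hz'⟩ := hev p j i
    exact parity j (e i).ne_zero hz (t := ‖j z‖) hz' odd_one (pow_one _)
  have hvalS : ∀ (v : HeightOneSpectrum (𝓞 F)) (S : Finset (Fin (2 * g + 1))), ∃ n : ℤ,
      v.valuation F (∏ i ∈ S, (e i : F)) = WithZero.exp (2 * n) := by
    intro v S
    induction S using Finset.induction_on with
    | empty => exact ⟨0, by simp⟩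
    | insert i S hi ih =>
      obtain ⟨n, hn⟩ := ih
      obtain ⟨m, hm⟩ := hval v i
      refine ⟨m + n, ?_⟩
      rw [Finset.prod_insert hi, map_mul, hn, hm, ← WithZero.exp_add]
      congr 1
      ring
  have hpr0 : ∀ S : Finset (Fin (2 * g + 1)), ∏ i ∈ S, (e i : F) ≠ 0 := fun S =>
    Finset.prod_ne_zero_iff.2 fun i _ => (e i).ne_zero
  have key := hspan (fun S => ∃ y : F, y ≠ 0 ∧ ∏ i ∈ S, (e i : F) = y ^ 2) ?_ ?_ ?_ ?_ i
  · obtain ⟨y, -, hy⟩ := key
    rw [Finset.prod_singleton] at hy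
    exact ⟨y, hy⟩
  · obtain ⟨y, hy⟩ := elt_sq hN (Units.mk0 _ (hpr0 {0})) (by
      intro φ
      rw [Units.val_mk0, Finset.prod_singleton]
      exact h.w3 φ)
      (fun v => by rw [Units.val_mk0]; exact hvalS v _)
    refine ⟨y, y.ne_zero, ?_⟩
    have := congrArg Units.val hy
    simpa using this
  · intro k i j hi hj
    have hij : i ≠ j := by
      rintro rfl
      omega
    obtain ⟨y, hy⟩ := elt_sq hN (Units.mk0 _ (hpr0 {i, j})) (by
      intro φ
      rw [Units.val_mk0, Finset.prod_pair hij, map_mul]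
      exact h.w4 φ k i j hi hj)
      (fun v => by rw [Units.val_mk0]; exact hvalS v _)
    refine ⟨y, y.ne_zero, ?_⟩
    have := congrArg Units.val hy
    simpa using this
  · intro S hS
    obtain ⟨y, hy⟩ := sq_of_unrC hN (Units.mk0 _ (hpr0 S)) (fun v => by
      rw [Units.val_mk0]
      by_cases hv : (2 : 𝓞 F) ∈ v.asIdeal
      · obtain ⟨j, rfl⟩ := exists_pls (p := 2) v (by exact_mod_cast hv)
        obtain ⟨t, ht0, ht⟩ := h.w5 S hS j
        exact unrC_near ht0 ht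
      · obtain ⟨n, hn⟩ := hvalS v S
        exact unrC_of_even' hv hn)
    refine ⟨y, y.ne_zero, ?_⟩
    have := congrArg Units.val hy
    simpa using this.symm
  · rintro S T ⟨y, hy0, hy⟩ ⟨z, hz0, hz⟩
    have hI0 := hpr0 (S ∩ T)
    refine ⟨y * z / ∏ i ∈ S ∩ T, (e i : F), div_ne_zero (mul_ne_zero hy0 hz0) hI0, ?_⟩
    have h1 : (∏ i ∈ symmDiff S T, (e i : F)) * (∏ i ∈ S ∩ T, (e i : F)) ^ 2 =
        (∏ i ∈ S, (e i : F)) * ∏ i ∈ T, (e i : F) := by
      have h2 : ∏ i ∈ S, (e i : F) = (∏ i ∈ S \ T, (e i : F)) *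
          ∏ i ∈ S ∩ T, (e i : F) := by
        rw [← Finset.prod_union (Finset.disjoint_sdiff_inter S T), Finset.sdiff_union_inter]
      have h3 : ∏ i ∈ T, (e i : F) = (∏ i ∈ T \ S, (e i : F)) *
          ∏ i ∈ S ∩ T, (e i : F) := by
        rw [Finset.inter_comm, ← Finset.prod_union (Finset.disjoint_sdiff_inter T S),
          Finset.sdiff_union_inter]
      have h4 : ∏ i ∈ symmDiff S T, (e i : F) = (∏ i ∈ S \ T, (e i : F)) *
          ∏ i ∈ T \ S, (e i : F) := by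
        rw [← Finset.prod_union (disjoint_sdiff_sdiff)]
        rfl
      rw [h2, h3, h4]
      ring
    rw [div_pow, mul_pow, ← hy, ← hz, ← h1]
    field_simp

/-- **the choice of the signs** -/
theorem exists_signs [IsTotallyReal F] (hN : Odd (Nat.card (NCl F)))
    (hodd : Odd (finrank ℚ F))
    (hG : Simp (F ≃ₐ[ℚ] F) (fun n => ∀ γ, ∑ i ∈ Finset.range m, n (γ * η ^ i) = 0))
    (hcom : ∀ γ, Commute η γ) (hspan : Spn a)
    (jj : ∀ p : Nat.Primes, F →+* PadicAlgCl (p : ℕ)) (d : Nat.Primes → Bool → ℤ)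
    (hd0 : ∀ p ∈ T, d p false = 1)
    (hd1 : ∀ p ∈ T, ¬ IsSquare ((d p true : ℤ) : ZMod (p : ℕ))) :
    ∃ x : Nat.Primes → Bool, ∀ e : Fin (2 * g + 1) → Fˣ, WW η m a T ip bp e →
      (∀ p ∈ T, CC ip bp jj d p (x p) e) → SqU e := by
  classical
  have hdz : ∀ p ∈ T, ∀ β, d p β ≠ 0 := by
    intro p hp β h
    cases β with
    | false =>
      rw [hd0 p hp] at h
      exact one_ne_zero h
    | true =>
      apply hd1 p hp
      rw [h, Int.cast_zero]
      exact IsSquare.zero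
  refine select hG actU (WW η m a T ip bp) SqU WW.one (fun _ _ h h' => h.mul h')
    (fun _ γ h => h.act γ (hcom γ)) T
    (fun p e γ => par ((jj p).comp (γ : F →+* F)) (e (ip p) : F)) ?_ ?_ ?_
    (CC ip bp jj d) (fun p _ β => CC.one) (fun p hp β e e' h h' => CC.mul (by
      exact_mod_cast hdz p hp β) h h') (fun p _ β e γ h => h.act γ) ?_ ?_
  · intro p _ e e'
    funext γ
    exact par_mul (e (ip p)).ne_zero (e' (ip p)).ne_zero
  · intro p _ e γ
    funext γ'
    show par ((jj p).comp (γ' : F →+* F)) (γ (e (ip p) : F)) = _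
    rw [← par_comp]
    rfl
  · intro p _ e h γ
    obtain ⟨y, hy⟩ := h.w0 (ip p)
    have h1 := par_prod (Finset.range m) (fun i => (η ^ i) (e (ip p) : F))
      ((jj p).comp (γ : F →+* F))
      (fun i => (_root_.map_ne_zero (η ^ i)).2 (e (ip p)).ne_zero)
    have hy0 : y ≠ 0 := by
      rintro rfl
      rw [zero_pow two_ne_zero] at hy
      exact Finset.prod_ne_zero_iff.2 (fun i _ =>
        (_root_.map_ne_zero (η ^ i)).2 (e (ip p)).ne_zero) hy
    rw [hy, par_eq_zero.2 (Ev.sq hy0)] at h1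
    rw [h1]
    exact Finset.sum_congr rfl fun i _ => par_comp ((jj p).comp (γ : F →+* F)) (η ^ i) _
  · intro p hp e e' hW hW' h h' hsq
    funext γ
    show par _ _ = 0
    rw [par_eq_zero]
    by_contra hcon
    obtain ⟨y, hy⟩ := hsq (ip p)
    obtain ⟨z, hz⟩ := hsq (bp p)
    rw [Pi.mul_apply, Units.val_mul] at hy hz
    set j := (jj p).comp (γ : F →+* F) with hj
    have hy0 : y ≠ 0 := by
      rintro rfl
      rw [zero_pow two_ne_zero] at hy
      exact mul_ne_zero (e (ip p)).ne_zero (e' (ip p)).ne_zero hy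
    have hz0 : z ≠ 0 := by
      rintro rfl
      rw [zero_pow two_ne_zero] at hz
      exact mul_ne_zero (e (bp p)).ne_zero (e' (bp p)).ne_zero hz
    have hne : ¬ Ev j (e (ip p) : F) := by
      intro h1
      apply hcon
      refine Ev.of_mul h1 ?_
      rw [hy]
      exact Ev.sq hy0
    have h1 := (h γ).2 hne
    have h2 := (h' γ).2 hcon
    rw [← hj] at h1 h2
    rw [hd0 p hp, Int.cast_one, mul_one] at h1
    have h3 := h1.mul h2
    have e1 : (e (ip p) : F) * e (bp p) * (e' (ip p) * e' (bp p) * (d p true : F)) =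
        (y * z) ^ 2 * (d p true : F) := by
      rw [mul_pow, ← hy, ← hz]
      ring
    rw [e1] at h3
    have h4 := LS.of_mul (LS.sq (mul_ne_zero hy0 hz0)) h3
    refine hd1 p hp (isSquare_of_ls j hodd ?_ h4)
    intro h5
    apply hd1 p hp
    rw [(ZMod.intCast_zmod_eq_zero_iff_dvd _ _).2 h5]
    exact IsSquare.zero
  · intro e hW hν
    refine base_sq hN hspan jj hW fun p hp γ => ?_
    have := congrFun (hν p hp) γ
    exact par_eq_zero.1 this

end main

end Pool.Agent.Helper891_EG
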