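import Pool.Agent.Helper891_EG.Fr

/-!
# The decomposition groups in the layers of the cyclotomic `ℤ₃`-extension
-/

set_option autoImplicit false
set_option linter.unusedSectionVars false
set_option linter.style.haveILetI false

namespace Pool.Agent.Helper891_EG.La

open NumberField IsDedekindDomain Module
open Pool.Agent.Helper891_EG (NS exists_comp)
open Pool.Agent.Helper891_EG.Fr

section gen

variable {F C : Type} [Field F] [NumberField F] [Field C] [NumberField C]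

lemma ext_emb (ι : F →+* C) {Ω : Type} [Field Ω] [IsAlgClosed Ω] (j : F →+* Ω) :
    ∃ j' : C →+* Ω, ∀ x, j' (ι x) = j x := by
  letI : Algebra F C := ι.toAlgebra
  letI : Algebra F Ω := j.toAlgebra
  haveI hst : IsScalarTower ℚ F C := IsScalarTower.of_algebraMap_eq fun x =>
    DFunLike.congr_fun (Subsingleton.elim (algebraMap ℚ C) (ι.comp (algebraMap ℚ F))) x
  haveI halg : Algebra.IsAlgebraic F C := Algebra.IsAlgebraic.tower_top (K := ℚ) F
  let φ : C →ₐ[F] Ω := IsAlgClosed.lift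
  exact ⟨φ, fun x => φ.commutes x⟩

lemma lift_gal [IsGalois ℚ F] (ι : F →+* C) (hn : Normal ℚ C) (γ : F ≃ₐ[ℚ] F) :
    ∃ τ : C ≃ₐ[ℚ] C, ∀ x, τ (ι x) = ι (γ x) := by
  letI : Algebra F C := ι.toAlgebra
  haveI : IsScalarTower ℚ F C := IsScalarTower.of_algebraMap_eq fun x =>
    DFunLike.congr_fun (Subsingleton.elim (algebraMap ℚ C) (ι.comp (algebraMap ℚ F))) x
  obtain ⟨τ, rfl⟩ := AlgEquiv.restrictNormalHom_surjective (F := ℚ) (K₁ := F) C γ
  refine ⟨τ, fun x => ?_⟩
  exact (AlgEquiv.restrictNormal_commutes τ F x).symm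

lemma le_of_card {G : Type} [Group G] [Finite G] [IsCyclic G] {A B : Subgroup G}
    (h : Nat.card A ∣ Nat.card B) : A ≤ B := by
  classical
  have : Fintype G := Fintype.ofFinite G
  intro x hx
  have h1 : x ^ Nat.card B = 1 := by
    obtain ⟨k, hk⟩ := h
    have h2 : (⟨x, hx⟩ : A) ^ Nat.card A = 1 := pow_card_eq_one'
    have h3 : x ^ Nat.card A = 1 := congrArg Subtype.val h2
    rw [hk, pow_mul, h3, one_pow]
  set S : Finset G := Finset.univ.filter fun y => y ^ Nat.card B = 1 with hS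
  have h2 : S.card ≤ Nat.card B := IsCyclic.card_pow_eq_one_le Nat.card_pos
  have h3 : (B : Set G).toFinset ⊆ S := by
    intro y hy
    rw [Set.mem_toFinset] at hy
    rw [hS, Finset.mem_filter]
    refine ⟨Finset.mem_univ _, ?_⟩
    have h4 : (⟨y, hy⟩ : B) ^ Nat.card B = 1 := pow_card_eq_one'
    exact congrArg Subtype.val h4
  have h4 : (B : Set G).toFinset.card = Nat.card B := by
    rw [Set.toFinset_card, Nat.card_eq_fintype_card]
    rfl
  have h5 := Finset.eq_of_subset_of_card_le h3 (by rw [h4]; exact h2)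
  have h6 : x ∈ S := by
    rw [hS, Finset.mem_filter]
    exact ⟨Finset.mem_univ _, h1⟩
  rw [← h5, Set.mem_toFinset] at h6
  exact h6

end gen

section layer

lemma num {p m e : ℕ} (hp : p.Prime) (hp3 : p ≠ 3) (hem : e + 1 ≤ m)
    (h : p ^ (2 * 3 ^ (m - e - 1)) ≡ 1 [MOD 3 ^ (m + 1)]) : 9 * 3 ^ e ∣ p ^ 2 - 1 := by
  have : Fact (Nat.Prime 3) := ⟨Nat.prime_three⟩
  have h3 : ¬ 3 ∣ p := by
    intro h1
    exact hp3 ((Nat.prime_dvd_prime_iff_eq Nat.prime_three hp).1 h1).symm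
  have hp2 : 1 < p ^ 2 := Nat.one_lt_pow two_ne_zero hp.one_lt
  have h4 : 3 ∣ p ^ 2 - 1 := by
    have h5 : p % 3 = 1 ∨ p % 3 = 2 := by omega
    have h6 : p ^ 2 % 3 = 1 := by
      rcases h5 with h5 | h5 <;> rw [pow_two, Nat.mul_mod, h5]
    omega
  have h5 : ¬ 3 ∣ p ^ 2 := fun h6 => h3 (Nat.prime_three.dvd_of_dvd_pow h6)
  have hk : 3 ^ (m - e - 1) ≠ 0 := pow_ne_zero _ (by norm_num)
  have h6 := padicValNat.pow_sub_pow (p := 3) (by decide) hp2 h4 h5 hk
  rw [one_pow, ← pow_mul, padicValNat.prime_pow] at h6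
  have h7 : 3 ^ (m + 1) ∣ p ^ (2 * 3 ^ (m - e - 1)) - 1 :=
    (Nat.modEq_iff_dvd' (Nat.one_le_pow _ _ hp.pos)).1 h.symm
  have h8 : p ^ (2 * 3 ^ (m - e - 1)) - 1 ≠ 0 := by
    have := Nat.one_lt_pow (n := 2 * 3 ^ (m - e - 1)) (by positivity) hp.one_lt
    omega
  have h9 := (padicValNat_dvd_iff_le h8).1 h7
  have h10 : e + 2 ≤ padicValNat 3 (p ^ 2 - 1) := by omega
  have h11 := (padicValNat_dvd_iff_le (p := 3) (a := p ^ 2 - 1) (n := e + 2) (by omega)).2 h10
  have e1 : 3 ^ (e + 2) = 9 * 3 ^ e := by ring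
  rwa [e1] at h11

/-- **the automorphisms over `E` preserve the places above `p`** -/
theorem ns_layer {m : ℕ} {C : Type} [Field C] [NumberField C]
    [IsCyclotomicExtension {3 ^ (m + 1)} ℚ C] {E F : IntermediateField ℚ C} (hcyc : IsCyclic (C ≃ₐ[ℚ] C)) (hgal : IsGalois ℚ F) (hEF : E ≤ F)
    (hodd : Odd (finrank ℚ F)) {p : ℕ} (hp : p.Prime) (hp3 : p ≠ 3)
    (hmod : ¬ 9 * finrank ℚ E ∣ p ^ 2 - 1) (γ : F ≃ₐ[ℚ] F)
    (hγ : ∀ x : F, (x : C) ∈ E → γ x = x) : NS γ p := by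
  have hz : NeZero (3 ^ (m + 1)) := ⟨pow_ne_zero _ (by norm_num)⟩
  have hgC : IsGalois ℚ C := IsCyclotomicExtension.isGalois {3 ^ (m + 1)} ℚ C
  have hstab : ∀ (τ : C ≃ₐ[ℚ] C) (x : C), x ∈ F → τ x ∈ F := by
    intro τ x hx
    obtain ⟨h, hh⟩ := exists_comp (F := F) ((τ : C →+* C).comp (algebraMap F C)) (algebraMap F C)
    have h1 : τ x = (h ⟨x, hx⟩ : F) := hh ⟨x, hx⟩
    rw [h1]
    exact (h ⟨x, hx⟩).2
  have hpn : p.Coprime (3 ^ (m + 1)) :=
    Nat.Coprime.pow_right _ ((Nat.coprime_primes hp Nat.prime_three).2 hp3)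
  have : Fact p.Prime := ⟨hp⟩
  obtain ⟨σ, hσ⟩ := exists_frob (C := C) hpn
  have hσns : NS σ p := ns_frob hσ
  let B : Subgroup (C ≃ₐ[ℚ] C) :=
    { carrier := {τ | ∀ (j : C →+* PadicAlgCl p), ∀ x ∈ F, ‖j (τ x)‖ = ‖j x‖}
      one_mem' := fun j x _ => rfl
      mul_mem' := by
        intro τ τ' h h' j x hx
        rw [AlgEquiv.mul_apply, h j _ (hstab τ' x hx), h' j x hx]
      inv_mem' := by
        intro τ h j x hx
        have h1 := h j (τ⁻¹ x) (hstab τ⁻¹ x hx)
        rw [← AlgEquiv.mul_apply, mul_inv_cancel, AlgEquiv.one_apply] at h1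
        exact h1.symm }
  have hσB : σ ∈ B := fun j x _ => hσns j x
  have hFB : F.fixingSubgroup ≤ B := by
    intro τ hτ j x hx
    rw [(IntermediateField.mem_fixingSubgroup_iff F τ).1 hτ x hx]
  have hcard : Nat.card (C ≃ₐ[ℚ] C) = 3 ^ m * 2 := by
    rw [IsGalois.card_aut_eq_finrank, IsCyclotomicExtension.finrank (n := 3 ^ (m + 1)) C
      (Polynomial.cyclotomic.irreducible_rat (Nat.pos_of_ne_zero hz.out)),
      Nat.totient_prime_pow_succ Nat.prime_three]
  have hFi : F.fixingSubgroup.index = finrank ℚ F := by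
    rw [IntermediateField.finrank_eq_fixingSubgroup_index]
  have hEi : E.fixingSubgroup.index = finrank ℚ E := by
    rw [IntermediateField.finrank_eq_fixingSubgroup_index]
  have hpow : ∀ A : Subgroup (C ≃ₐ[ℚ] C), A.index ∣ finrank ℚ F → ∃ s, s ≤ m ∧ A.index = 3 ^ s := by
    intro A hA
    have h1 : Odd A.index := by
      obtain ⟨k, hk⟩ := hA
      rw [hk] at hodd
      exact (Nat.odd_mul.1 hodd).1
    have h2 : A.index ∣ 3 ^ m * 2 := by
      rw [← hcard]
      exact Subgroup.index_dvd_card A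
    have h3 : A.index ∣ 3 ^ m := (Nat.Coprime.dvd_of_dvd_mul_right
      (Nat.coprime_two_right.2 h1) h2)
    obtain ⟨s, hs, hs'⟩ := (Nat.dvd_prime_pow Nat.prime_three).1 h3
    exact ⟨s, hs, hs'⟩
  obtain ⟨s, hs, hBs⟩ := hpow B (by
    rw [← hFi]
    exact Subgroup.index_dvd_of_le hFB)
  obtain ⟨e, he, hEe⟩ := hpow E.fixingSubgroup (by
    rw [← hFi]
    exact Subgroup.index_dvd_of_le (IntermediateField.fixingSubgroup_antitone hEF))
  have key : E.fixingSubgroup ≤ B := by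
    have hEc := E.fixingSubgroup.card_mul_index
    have hBc := B.card_mul_index
    rw [hEe, hcard] at hEc
    rw [hBs, hcard] at hBc
    by_cases hse : s ≤ e
    · apply le_of_card
      refine ⟨3 ^ (e - s), ?_⟩
      have h1 : 0 < 3 ^ e := by positivity
      apply Nat.eq_of_mul_eq_mul_right h1
      have h2 : 3 ^ e = 3 ^ s * 3 ^ (e - s) := by rw [← pow_add, Nat.add_sub_cancel' hse]
      calc Nat.card B * 3 ^ e = (Nat.card B * 3 ^ s) * 3 ^ (e - s) := by rw [h2]; ring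
        _ = (Nat.card E.fixingSubgroup * 3 ^ e) * 3 ^ (e - s) := by rw [hBc, hEc]
        _ = _ := by ring
    · exfalso
      apply hmod
      have hse' : e + 1 ≤ s := by omega
      rw [← hEi, hEe]
      refine num (m := m) hp hp3 (by omega) ?_
      have h1 : Nat.card B ∣ 2 * 3 ^ (m - e - 1) := by
        refine ⟨3 ^ (s - e - 1), ?_⟩
        have h1 : 0 < 3 ^ (e + 1) := by positivity
        apply Nat.eq_of_mul_eq_mul_right h1
        have h2 : 3 ^ (s - e - 1) * 3 ^ (e + 1) = 3 ^ s := by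
          rw [← pow_add]
          congr 1
          omega
        have h3 : 3 ^ (m - e - 1) * 3 ^ (e + 1) = 3 ^ m := by
          rw [← pow_add]
          congr 1
          omega
        calc 2 * 3 ^ (m - e - 1) * 3 ^ (e + 1) = 2 * (3 ^ (m - e - 1) * 3 ^ (e + 1)) := by ring
          _ = Nat.card B * 3 ^ s := by rw [h3, hBc]; ring
          _ = _ := by rw [← h2]; ring
      have h2 : σ ^ (2 * 3 ^ (m - e - 1)) = 1 := by
        obtain ⟨k, hk⟩ := h1
        have h3 : (⟨σ, hσB⟩ : B) ^ Nat.card B = 1 := pow_card_eq_one'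
        have h4 : σ ^ Nat.card B = 1 := congrArg Subtype.val h3
        rw [hk, pow_mul, h4, one_pow]
      obtain ⟨ζ, hζ⟩ := IsCyclotomicExtension.exists_isPrimitiveRoot ℚ C
        (Set.mem_singleton (3 ^ (m + 1))) hz.out
      have h3 : ∀ k : ℕ, (σ ^ k) ζ = ζ ^ (p ^ k) := by
        intro k
        induction k with
        | zero => rw [pow_zero, pow_zero, pow_one, AlgEquiv.one_apply]
        | succ k ih =>
          rw [pow_succ', AlgEquiv.mul_apply, ih, map_pow, hσ ζ hζ.pow_eq_one, ← pow_mul,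
            pow_succ']
      have h4 := h3 (2 * 3 ^ (m - e - 1))
      rw [h2, AlgEquiv.one_apply] at h4
      have h5 : ζ ^ 1 = ζ ^ (p ^ (2 * 3 ^ (m - e - 1))) := by rw [pow_one]; exact h4
      have h6 : IsOfFinOrder ζ := isOfFinOrder_iff_pow_eq_one.2
        ⟨3 ^ (m + 1), by positivity, hζ.pow_eq_one⟩
      have h7 := h6.pow_eq_pow_iff_modEq.1 h5
      rw [← hζ.eq_orderOf] at h7
      exact h7.symm
  intro _ j x
  obtain ⟨τ, hτ⟩ := lift_gal (F := F) (algebraMap F C) hgC.to_normal γ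
  obtain ⟨j', hj'⟩ := ext_emb (F := F) (algebraMap F C) j
  have hτE : τ ∈ E.fixingSubgroup := by
    rw [IntermediateField.mem_fixingSubgroup_iff]
    intro y hy
    have h1 := hτ ⟨y, hEF hy⟩
    rw [hγ ⟨y, hEF hy⟩ hy] at h1
    exact h1
  have h1 := key hτE j' (x : C) x.2
  have h2 : τ (x : C) = algebraMap F C (γ x) := hτ x
  rw [h2, hj'] at h1
  rw [h1]
  exact congrArg norm (hj' x)

end layer

end Pool.Agent.Helper891_EG.La
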