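import Pool.Agent.Helper891_EG.Sq

/-!
# The places where exactly two roots are congruent
-/

set_option autoImplicit false
set_option linter.unusedSectionVars false

namespace Pool.Agent.Helper891_EG

open Polynomial NumberField IsDedekindDomain Module
open Pool.Agent.Y723.HJ (hpol hpol_map)
open Pool.Agent.Y715.Nr Pool.Agent.Y715.Red
open Pool.Agent.TH841.NF (pls lf mem_lf)
open Pool.Agent.Helper891_JO

section fn

variable {g : ℕ} (a : Fin (2 * g + 1) → ℤ) {p : ℕ} [hp : Fact p.Prime] (i b : Fin (2 * g + 1))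

/-- the other indices -/
def LL : Finset (Fin (2 * g + 1)) := (Finset.univ.erase i).erase b

/-- the first function near one -/
noncomputable def q1 (w : PadicAlgCl p) : PadicAlgCl p := 1 + (A a p i - A a p b) / w

/-- the second function near one -/
noncomputable def q2 (w : PadicAlgCl p) : PadicAlgCl p :=
  ∏ l ∈ LL i b, (1 + w / (A a p i - A a p l))

open Classical in
/-- the square root -/
noncomputable def sx (ε : ℝ) (y w : PadicAlgCl p) : PadicAlgCl p :=
  if ε < ‖w‖ then w * sqo (q1 a i b w) else y / sqo (q2 a i b w)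

open Classical in
/-- the square root of the norm -/
noncomputable def zx (g : ℕ) (p : ℕ) [Fact p.Prime] (v : ℕ) (ε : ℝ) (y w : PadicAlgCl p) :
    PadicAlgCl p :=
  if ‖w‖ ≤ ε then (if ‖w‖ = ε then (p : PadicAlgCl p) ^ v else y) else
    if 1 < ‖w‖ then y / w ^ g else 1

/-- the square root of the constant -/
noncomputable def rx (ε : ℝ) (y w : PadicAlgCl p) : PadicAlgCl p :=
  y / (sx a i b ε y w * sqo (q2 a i b w))

open Classical in
/-- one half of the annulus -/
noncomputable def wx (ε : ℝ) (θ y w : PadicAlgCl p) : PadicAlgCl p :=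
  if ε < ‖w‖ ∧ ‖w‖ < 1 ∧ rx a i b ε y w = θ then w else 1

variable {a i b}

lemma q1_map (τ : Au p) (w : PadicAlgCl p) : q1 a i b (τ w) = τ (q1 a i b w) := by
  unfold q1
  rw [map_add, map_one, map_div₀, map_sub, map_intCast, map_intCast]

lemma q2_map (τ : Au p) (w : PadicAlgCl p) : q2 a i b (τ w) = τ (q2 a i b w) := by
  unfold q2
  rw [map_prod]
  refine Finset.prod_congr rfl fun l _ => ?_
  rw [map_add, map_one, map_div₀, map_sub, map_intCast, map_intCast]

lemma sx_map (h2 : p ≠ 2) (ε : ℝ) (τ : Au p) (y w : PadicAlgCl p) :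
    sx a i b ε (τ y) (τ w) = τ (sx a i b ε y w) := by
  unfold sx
  rw [nrm]
  split_ifs
  · rw [map_mul, q1_map, sqo_map h2]
  · rw [map_div₀, q2_map, sqo_map h2]

lemma zx_map (v : ℕ) (ε : ℝ) (τ : Au p) (y w : PadicAlgCl p) :
    zx g p v ε (τ y) (τ w) = τ (zx g p v ε y w) := by
  unfold zx
  rw [nrm]
  split_ifs
  · rw [map_pow, map_natCast]
  · rfl
  · rw [map_div₀, map_pow]
  · rw [map_one]

lemma rx_map (h2 : p ≠ 2) (ε : ℝ) (τ : Au p) (y w : PadicAlgCl p) :
    rx a i b ε (τ y) (τ w) = τ (rx a i b ε y w) := by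
  unfold rx
  rw [sx_map h2, q2_map, sqo_map h2, map_div₀, map_mul]

lemma wx_map (h2 : p ≠ 2) (ε : ℝ) (τ : Au p) (θ y w : PadicAlgCl p) :
    wx a i b ε (τ θ) (τ y) (τ w) = τ (wx a i b ε θ y w) := by
  classical
  have e : (τ (rx a i b ε y w) = τ θ) ↔ (rx a i b ε y w = θ) := τ.injective.eq_iff
  unfold wx
  rw [nrm, rx_map h2]
  by_cases h : ε < ‖w‖ ∧ ‖w‖ < 1 ∧ rx a i b ε y w = θ
  · rw [if_pos h, if_pos ⟨h.1, h.2.1, e.2 h.2.2⟩]
  · rw [if_neg h, if_neg fun h' => h ⟨h'.1, h'.2.1, e.1 h'.2.2⟩, map_one]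

end fn

section pt

variable {g : ℕ} {a : Fin (2 * g + 1) → ℤ} {p : ℕ} [hp : Fact p.Prime] {i b : Fin (2 * g + 1)}

lemma prod_split {M : Type*} [CommMonoid M] (hib : i ≠ b) (f : Fin (2 * g + 1) → M) :
    ∏ l, f l = f i * (f b * ∏ l ∈ LL i b, f l) := by
  unfold LL
  rw [Finset.mul_prod_erase (Finset.univ.erase i) f (Finset.mem_erase.2 ⟨hib.symm, Finset.mem_univ _⟩),
    Finset.mul_prod_erase Finset.univ f (Finset.mem_univ i)]

lemma card_LL (hib : i ≠ b) : (LL i b : Finset (Fin (2 * g + 1))).card + 2 = 2 * g + 1 := by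
  unfold LL
  rw [Finset.card_erase_of_mem (Finset.mem_erase.2 ⟨hib.symm, Finset.mem_univ _⟩),
    Finset.card_erase_of_mem (Finset.mem_univ i), Finset.card_univ, Fintype.card_fin]
  have h1 := i.isLt
  have h3 := b.isLt
  have h4 : (i : ℕ) ≠ b := fun h => hib (Fin.ext h)
  omega

lemma mem_LL {l : Fin (2 * g + 1)} : l ∈ LL i b ↔ l ≠ i ∧ l ≠ b := by
  unfold LL
  rw [Finset.mem_erase, Finset.mem_erase]
  constructor
  · rintro ⟨h1, h2, -⟩
    exact ⟨h2, h1⟩
  · rintro ⟨h1, h2⟩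
    exact ⟨h2, h1, Finset.mem_univ _⟩

variable {ε : ℝ} {v : ℕ} (hib : i ≠ b) (hε : ‖A a p i - A a p b‖ = ε) (hε1 : ε < 1)
  (hεv : ‖(p : PadicAlgCl p) ^ v‖ = ε)
  (hL : ∀ l ∈ LL i b, ‖A a p i - A a p l‖ = 1) {x y : PadicAlgCl p}
  (hx : ∀ l, x ≠ A a p l)
  (hf : (hpol a (PadicAlgCl p)).eval x = y ^ 2)

include hib hf in
lemma pt_sq : y ^ 2 = (x - A a p i) * ((x - A a p b) * ∏ l ∈ LL i b, (x - A a p l)) := by
  rw [← hf, hpol_eval, prod_split hib]

include hε in
lemma q1_near (h : ε < ‖x - A a p i‖) : ‖q1 a i b (x - A a p i) - 1‖ < 1 := by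
  unfold q1
  rw [add_sub_cancel_left, norm_div, hε, div_lt_one]
  · exact h
  · exact (norm_nonneg _).trans_lt (by rw [hε]; exact h)

include hL in
lemma q2_near (h : ‖x - A a p i‖ < 1) : ‖q2 a i b (x - A a p i) - 1‖ < 1 := by
  unfold q2
  refine prod_near _ _ fun l hl => ?_
  rw [add_sub_cancel_left, norm_div, hL l hl, div_one]
  exact h

lemma q1_eq (hx : x ≠ A a p i) : (x - A a p i) ^ 2 * q1 a i b (x - A a p i) =
    (x - A a p i) * (x - A a p b) := by
  have h1 : x - A a p i ≠ 0 := sub_ne_zero.2 hx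
  unfold q1
  field_simp
  ring

include hL in
lemma q2_eq : q2 a i b (x - A a p i) * ∏ l ∈ LL i b, (A a p i - A a p l) =
    ∏ l ∈ LL i b, (x - A a p l) := by
  unfold q2
  rw [← Finset.prod_mul_distrib]
  refine Finset.prod_congr rfl fun l hl => ?_
  have h1 : A a p i - A a p l ≠ 0 := by
    rw [← norm_ne_zero_iff, hL l hl]
    exact one_ne_zero
  field_simp
  ring

include hib hε hL hx hf hε1 in
lemma sx_sq : ∃ e : ℕ, (e = if ε < ‖x - A a p i‖ then 0 else 1) ∧
    sx a i b ε y (x - A a p i) ^ 2 =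
      (x - A a p i) * (x - A a p b) * (∏ l ∈ LL i b, (A a p i - A a p l)) ^ e := by
  classical
  refine ⟨_, rfl, ?_⟩
  unfold sx
  by_cases h : ε < ‖x - A a p i‖
  · rw [if_pos h, if_pos h, mul_pow, (sqo_spec (q1_near hε h)).2, q1_eq (hx i), pow_zero, mul_one]
  · rw [if_neg h, if_neg h]
    have h1 : ‖x - A a p i‖ < 1 := (not_lt.1 h).trans_lt hε1
    have h3 := q2_near hL h1
    rw [div_pow, (sqo_spec h3).2, pow_one, pt_sq hib hf, ← q2_eq hL]
    have h4 : q2 a i b (x - A a p i) ≠ 0 := by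
      rw [← norm_ne_zero_iff, norm_one_near h3]
      exact one_ne_zero
    field_simp

include hib hε hL hx hf in
lemma rx_sq (h1 : ε < ‖x - A a p i‖) (h2 : ‖x - A a p i‖ < 1) :
    rx a i b ε y (x - A a p i) ^ 2 = ∏ l ∈ LL i b, (A a p i - A a p l) := by
  have h3 := q2_near hL h2
  have h4 : q2 a i b (x - A a p i) ≠ 0 := by
    rw [← norm_ne_zero_iff, norm_one_near h3]
    exact one_ne_zero
  have h5 : x - A a p i ≠ 0 := sub_ne_zero.2 (hx i)
  have h6 : x - A a p b ≠ 0 := sub_ne_zero.2 (hx b)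
  unfold rx sx
  rw [if_pos h1, div_pow, mul_pow, mul_pow, (sqo_spec (q1_near hε h1)).2, (sqo_spec h3).2,
    q1_eq (hx i), pt_sq hib hf, ← q2_eq hL]
  field_simp

include hib hε hε1 hεv hL hx hf in
lemma zx_norm {θ : PadicAlgCl p} (hθ : θ ^ 2 = ∏ l ∈ LL i b, (A a p i - A a p l)) (hθ0 : θ ≠ -θ) :
    ‖x - A a p i‖ * (if ε < ‖x - A a p i‖ then 1 else ‖(p : PadicAlgCl p) ^ v‖) =
      ‖wx a i b ε θ y (x - A a p i) * wx a i b ε (-θ) y (x - A a p i)‖ *
        ‖zx g p v ε y (x - A a p i)‖ ^ 2 := by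
  classical
  have hy := congrArg norm (pt_sq hib hf)
  rw [norm_mul, norm_mul, norm_pow, norm_prod] at hy
  by_cases h : ε < ‖x - A a p i‖
  · rw [if_pos h, mul_one]
    by_cases h1 : ‖x - A a p i‖ < 1
    · -- the annulus
      have hz : zx g p v ε y (x - A a p i) = 1 := by
        unfold zx
        rw [if_neg (not_le.2 h), if_neg (not_lt.2 h1.le)]
      rw [hz, norm_one, one_pow, mul_one]
      have hr := rx_sq hib hε hL hx hf h h1
      rw [← hθ] at hr
      unfold wx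
      rcases sq_eq_sq_iff_eq_or_eq_neg.1 hr with h3 | h3
      · rw [if_pos ⟨h, h1, h3⟩, if_neg (fun h4 => hθ0 (h3.symm.trans h4.2.2)), mul_one]
      · rw [if_pos (c := _ ∧ _ ∧ _ = -θ) ⟨h, h1, h3⟩,
          if_neg (fun h4 => hθ0 (h4.2.2.symm.trans h3)), one_mul]
    · have hw : ∀ θ' : PadicAlgCl p, wx a i b ε θ' y (x - A a p i) = 1 := by
        intro θ'
        unfold wx
        rw [if_neg fun h3 => h1 h3.2.1]
      rw [hw, hw, mul_one, norm_one, one_mul]
      unfold zx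
      rw [if_neg (not_le.2 h)]
      rcases (not_lt.1 h1).lt_or_eq with h3 | h3
      · rw [if_pos h3, norm_div, div_pow, norm_pow, hy]
        have h4 : ∀ l, l ≠ i → ‖x - A a p l‖ = ‖x - A a p i‖ := by
          intro l hl
          have h5 : ‖A a p i - A a p l‖ ≤ 1 := by
            by_cases hlb : l = b
            · rw [hlb, hε]
              exact hε1.le
            · exact (hL l (mem_LL.2 ⟨hl, hlb⟩)).le
          have e : x - A a p l = (x - A a p i) + (A a p i - A a p l) := by ring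
          rw [e, eq_of_lt (h5.trans_lt h3)]
        have h5 : ∏ l ∈ LL i b, ‖x - A a p l‖ = ‖x - A a p i‖ ^ (LL i b).card := by
          rw [Finset.prod_congr rfl (g := fun _ => ‖x - A a p i‖), Finset.prod_const]
          intro l hl
          exact h4 l (mem_LL.1 hl).1
        rw [h4 b hib.symm, h5, eq_div_iff (pow_ne_zero _ (pow_ne_zero _ (by linarith)))]
        have h6 := card_LL (g := g) hib
        obtain ⟨c, hc⟩ : ∃ c, c = (LL i b : Finset (Fin (2 * g + 1))).card := ⟨_, rfl⟩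
        rw [← hc] at h6 ⊢
        have e : ‖x - A a p i‖ * (‖x - A a p i‖ * ‖x - A a p i‖ ^ c) = ‖x - A a p i‖ ^ (c + 2) := by
          ring
        rw [e, h6]
        ring
      · rw [if_neg (by rw [← h3]; exact lt_irrefl _), norm_one, one_pow, ← h3]
  · rw [if_neg h]
    have hw : ∀ θ' : PadicAlgCl p, wx a i b ε θ' y (x - A a p i) = 1 := by
      intro θ'
      unfold wx
      rw [if_neg fun h3 => h h3.1]
    rw [hw, hw, mul_one, norm_one, one_mul]
    rw [not_lt] at h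
    unfold zx
    rw [if_pos h]
    rcases h.lt_or_eq with h3 | h3
    · rw [if_neg h3.ne, hy]
      have h4 : ‖x - A a p b‖ = ε := by
        have e : x - A a p b = (A a p i - A a p b) + (x - A a p i) := by ring
        rw [e, eq_of_lt (by rw [hε]; exact h3), hε]
      have h5 : ∏ l ∈ LL i b, ‖x - A a p l‖ = 1 := by
        refine Finset.prod_eq_one fun l hl => ?_
        have e : x - A a p l = (A a p i - A a p l) + (x - A a p i) := by ring
        rw [e, eq_of_lt (by rw [hL l hl]; exact h3.trans hε1), hL l hl]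
      rw [h4, h5, mul_one, hεv]
    · rw [if_pos h3, h3, hεv, pow_two]

end pt

section main

variable {g : ℕ} {a : Fin (2 * g + 1) → ℤ} {p : ℕ} [hp : Fact p.Prime] {i b : Fin (2 * g + 1)}

lemma prod_tr {K : IntermediateField ℚ_[p] (PadicAlgCl p)} (u : K[X])
    (w w' : PadicAlgCl p → PadicAlgCl p) (τ : PadicAlgCl p ≃ₐ[K] PadicAlgCl p)
    (hw : ∀ x, w' (τ x) = τ (w x)) :
    τ ((u.map (algebraMap K (PadicAlgCl p))).roots.map w).prod =
      ((u.map (algebraMap K (PadicAlgCl p))).roots.map w').prod := by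
  have h1 : τ ((u.map (algebraMap K (PadicAlgCl p))).roots.map w).prod =
      (((u.map (algebraMap K (PadicAlgCl p))).roots.map w).map τ).prod :=
    map_multiset_prod (τ : PadicAlgCl p →+* PadicAlgCl p) _
  rw [h1, Multiset.map_map]
  have h2 : (⇑τ ∘ w) = w' ∘ τ := by
    funext x
    exact (hw x).symm
  rw [h2, ← Multiset.map_map, roots_fix]

/-- the values at a pair of congruent roots -/
theorem pair_val (h2 : p ≠ 2) (hib : i ≠ b) {v : ℕ} {ε : ℝ} (hε : ‖A a p i - A a p b‖ = ε)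
    (hε1 : ε < 1) (hεv : ‖(p : PadicAlgCl p) ^ v‖ = ε)
    (hL : ∀ l ∈ LL i b, ‖A a p i - A a p l‖ = 1)
    {K : IntermediateField ℚ_[p] (PadicAlgCl p)} {u v' : K[X]} (hu : u.Monic)
    (huv : u ∣ hpol a K - v' ^ 2) (h0 : ∀ i, u.eval ((a i : ℤ) : K) ≠ 0) :
    ∃ (m : ℕ) (k : K), (((-1) ^ u.natDegree * u.eval ((a i : ℤ) : K)) *
      ((-1) ^ u.natDegree * u.eval ((a b : ℤ) : K))) *
      (∏ l ∈ LL i b, (((a i : ℤ) : K) - ((a l : ℤ) : K))) ^ m = k ^ 2 ∧
      ((¬ ∃ r : K, r ^ 2 = ∏ l ∈ LL i b, (((a i : ℤ) : K) - ((a l : ℤ) : K))) → ∃ k' : K,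
        ‖algebraMap K (PadicAlgCl p) ((-1) ^ u.natDegree * u.eval ((a i : ℤ) : K))‖ *
          ‖(p : PadicAlgCl p) ^ v‖ ^ m = ‖algebraMap K (PadicAlgCl p) k'‖ ^ 2) := by
  classical
  set Z := (u.map (algebraMap K (PadicAlgCl p))).roots with hZ
  set V := v'.map (algebraMap K (PadicAlgCl p)) with hV
  have hfe : ∀ (τ : PadicAlgCl p ≃ₐ[K] PadicAlgCl p) (x : PadicAlgCl p),
      V.eval (τ x) = τ (V.eval x) ∧ τ x - A a p i = τ (x - A a p i) := fun τ x =>
    ⟨eval_fix (τ.restrictScalars ℚ_[p]) (map_fix v' τ) x, by rw [map_sub, map_intCast]⟩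
  have hZ1 : ∀ x ∈ Z, (∀ l, x ≠ A a p l) ∧ (hpol a (PadicAlgCl p)).eval x = V.eval x ^ 2 := by
    intro x hx
    have h1 := root_eval hu hx
    refine ⟨?_, root_sq (dvd_map _ huv) h1⟩
    rintro l rfl
    rw [show A a p l = algebraMap K (PadicAlgCl p) ((a l : ℤ) : K) from (map_intCast _ _).symm,
      eval_map_algebraMap, aeval_algebraMap_apply] at h1
    exact h0 l ((_root_.map_eq_zero _).1 h1)
  set δ : PadicAlgCl p := ∏ l ∈ LL i b, (A a p i - A a p l) with hδ
  obtain ⟨θ, hθ⟩ : ∃ θ, θ ^ 2 = δ := IsAlgClosed.exists_pow_nat_eq δ (by norm_num)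
  have hδ1 : ‖δ‖ = 1 := by
    rw [hδ, norm_prod]
    exact Finset.prod_eq_one fun l hl => hL l hl
  have hθ1 : ‖θ‖ = 1 := by
    rw [← hθ, norm_pow] at hδ1
    rwa [pow_eq_one_iff_of_nonneg (norm_nonneg _) two_ne_zero] at hδ1
  have hθ00 : θ ≠ 0 := by
    rw [← norm_ne_zero_iff, hθ1]
    exact one_ne_zero
  have h20 : (2 : PadicAlgCl p) ≠ 0 := by
    rw [← norm_ne_zero_iff, norm_two h2]
    exact one_ne_zero
  have hθ0 : θ ≠ -θ := by
    intro h
    have h3 : 2 * θ = 0 := by linear_combination h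
    exact (mul_ne_zero h20 hθ00) h3
  have key : ∀ Y : Multiset (PadicAlgCl p), (∀ x ∈ Y, (∀ l, x ≠ A a p l) ∧
      (hpol a (PadicAlgCl p)).eval x = V.eval x ^ 2) → ∃ m : ℕ,
      (Y.map (fun x => sx a i b ε (V.eval x) (x - A a p i))).prod ^ 2 =
        (Y.map (fun x => x - A a p i)).prod * (Y.map (fun x => x - A a p b)).prod * δ ^ m ∧
      ‖(Y.map (fun x => x - A a p i)).prod‖ * ‖(p : PadicAlgCl p) ^ v‖ ^ m =
        ‖(Y.map (fun x => wx a i b ε θ (V.eval x) (x - A a p i))).prod *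
          (Y.map (fun x => wx a i b ε (-θ) (V.eval x) (x - A a p i))).prod‖ *
        ‖(Y.map (fun x => zx g p v ε (V.eval x) (x - A a p i))).prod‖ ^ 2 := by
    intro Y
    induction Y using Multiset.induction_on with
    | empty => intro _; exact ⟨0, by simp⟩
    | cons x Y ih =>
      intro hY
      obtain ⟨m, hm1, hm2⟩ := ih fun y hy => hY y (Multiset.mem_cons_of_mem hy)
      obtain ⟨hx1, hx2⟩ := hY x (Multiset.mem_cons_self _ _)
      obtain ⟨e, he, hs⟩ := sx_sq hib hε hε1 hL hx1 hx2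
      have hz := zx_norm (v := v) hib hε hε1 hεv hL hx1 hx2 hθ hθ0
      refine ⟨m + e, ?_, ?_⟩
      · simp only [Multiset.map_cons, Multiset.prod_cons]
        rw [mul_pow, hm1, hs, pow_add]
        ring
      · simp only [Multiset.map_cons, Multiset.prod_cons]
        have h3 : ‖(p : PadicAlgCl p) ^ v‖ ^ e =
            if ε < ‖x - A a p i‖ then 1 else ‖(p : PadicAlgCl p) ^ v‖ := by
          rw [he]
          split_ifs
          · rw [pow_zero]
          · rw [pow_one]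
        rw [← h3] at hz
        simp only [norm_mul, pow_add, mul_pow] at hz hm2 ⊢
        have h4 := congrArg₂ (fun s t : ℝ => s * t) hz hm2
        linear_combination h4
  obtain ⟨m, hm1, hm2⟩ := key Z hZ1
  obtain ⟨k, hk⟩ := prod_fix u (fun x => sx a i b ε (V.eval x) (x - A a p i)) (fun τ x => by
    rw [(hfe τ x).1, (hfe τ x).2]
    exact sx_map h2 ε (τ.restrictScalars ℚ_[p]) _ _)
  obtain ⟨kz, hkz⟩ := prod_fix u (fun x => zx g p v ε (V.eval x) (x - A a p i)) (fun τ x => by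
    rw [(hfe τ x).1, (hfe τ x).2]
    exact zx_map v ε (τ.restrictScalars ℚ_[p]) _ _)
  rw [← hZ] at hk hkz
  have hδK : algebraMap K (PadicAlgCl p) (∏ l ∈ LL i b, (((a i : ℤ) : K) - ((a l : ℤ) : K))) = δ := by
    rw [map_prod]
    refine Finset.prod_congr rfl fun l _ => ?_
    rw [map_sub, map_intCast, map_intCast]
  refine ⟨m, k, ?_, fun hns => ?_⟩
  · apply (algebraMap K (PadicAlgCl p)).injective
    rw [map_pow, hk, hm1, map_mul, map_mul, map_pow, hδK, delta hu, delta hu, map_intCast,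
      map_intCast]
  · set κp := (Z.map (fun x => wx a i b ε θ (V.eval x) (x - A a p i))).prod with hκp
    set κm := (Z.map (fun x => wx a i b ε (-θ) (V.eval x) (x - A a p i))).prod with hκm
    have hor : ∀ τ : PadicAlgCl p ≃ₐ[K] PadicAlgCl p, τ θ = θ ∨ τ θ = -θ := by
      intro τ
      apply sq_eq_sq_iff_eq_or_eq_neg.1
      rw [← map_pow, hθ, ← hδK]
      exact τ.commutes _
    have htr : ∀ (τ : PadicAlgCl p ≃ₐ[K] PadicAlgCl p) (θ' : PadicAlgCl p),
        τ (Z.map (fun x => wx a i b ε θ' (V.eval x) (x - A a p i))).prod =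
          (Z.map (fun x => wx a i b ε (τ θ') (V.eval x) (x - A a p i))).prod := by
      intro τ θ'
      refine prod_tr u _ _ τ fun x => ?_
      rw [(hfe τ x).1, (hfe τ x).2]
      exact wx_map h2 ε (τ.restrictScalars ℚ_[p]) _ _ _
    have hfix : ∀ τ : PadicAlgCl p ≃ₐ[K] PadicAlgCl p,
        (τ θ = θ ∧ τ κp = κp ∧ τ κm = κm) ∨ (τ θ = -θ ∧ τ κp = κm ∧ τ κm = κp) := by
      intro τ
      rcases hor τ with h | h
      · refine Or.inl ⟨h, ?_, ?_⟩
        · rw [hκp, htr, h]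
        · rw [hκm, htr, map_neg, h]
      · refine Or.inr ⟨h, ?_, ?_⟩
        · rw [hκp, htr, h]
        · rw [hκm, htr, map_neg, h, neg_neg]
    obtain ⟨τ0, hτ0⟩ : ∃ τ : PadicAlgCl p ≃ₐ[K] PadicAlgCl p, τ θ = -θ := by
      by_contra hcon
      push Not at hcon
      obtain ⟨r, hr⟩ := mem_of_fix (K := K) (z := θ) fun τ => (hor τ).resolve_right (hcon τ)
      refine hns ⟨r, (algebraMap K (PadicAlgCl p)).injective ?_⟩
      rw [map_pow, hr, hθ, hδK]
    have hnorm : ‖κm‖ = ‖κp‖ := by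
      rcases hfix τ0 with h | h
      · exact absurd (h.1.symm.trans hτ0) hθ0
      · rw [← h.2.1]
        exact nrm (τ0.restrictScalars ℚ_[p]) κp
    obtain ⟨α, hα⟩ := mem_of_fix (K := K) (z := κp + κm) (by
      intro τ
      rcases hfix τ with h | h
      · rw [map_add, h.2.1, h.2.2]
      · rw [map_add, h.2.1, h.2.2, add_comm])
    obtain ⟨β, hβ⟩ := mem_of_fix (K := K) (z := (κp - κm) / θ) (by
      intro τ
      rcases hfix τ with h | h
      · rw [map_div₀, map_sub, h.2.1, h.2.2, h.1]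
      · rw [map_div₀, map_sub, h.2.1, h.2.2, h.1, div_neg, ← neg_div, neg_sub])
    have hα1 : ‖algebraMap K (PadicAlgCl p) α‖ ≤ ‖κp‖ := by
      rw [hα]
      exact add_le le_rfl hnorm.le
    have hβ1 : ‖algebraMap K (PadicAlgCl p) β‖ ≤ ‖κp‖ := by
      rw [hβ, norm_div, hθ1, div_one]
      exact sub_le le_rfl hnorm.le
    have hex : ∃ k1 : K, ‖algebraMap K (PadicAlgCl p) k1‖ = ‖κp‖ := by
      by_contra hcon
      push Not at hcon
      have h3 := lt_of_le_of_ne hα1 (hcon α)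
      have h4 := lt_of_le_of_ne hβ1 (hcon β)
      have h5 : 2 * κp = algebraMap K (PadicAlgCl p) α + algebraMap K (PadicAlgCl p) β * θ := by
        rw [hα, hβ]
        field_simp
        ring
      have h6 : ‖2 * κp‖ < ‖κp‖ := by
        rw [h5]
        exact add_lt h3 (by rw [norm_mul, hθ1, mul_one]; exact h4)
      rw [norm_mul, norm_two h2, one_mul] at h6
      exact lt_irrefl _ h6
    obtain ⟨k1, hk1⟩ := hex
    refine ⟨k1 * kz, ?_⟩
    rw [delta hu, map_intCast, hm2, map_mul, norm_mul, norm_mul, hnorm, hk1, hkz]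
    ring

end main

end Pool.Agent.Helper891_EG
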