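import Pool.Agent.Helper891_EG.Tr
import Pool.Agent.Helper891_EG.Pr

/-!
# The local conditions in the number field
-/

set_option autoImplicit false
set_option linter.unusedSectionVars false

namespace Pool.Agent.Helper891_EG

open Polynomial NumberField IsDedekindDomain Module
open Pool.Agent.Y723.HJ (hpol hpol_map)
open Pool.Agent.Y715.Nr Pool.Agent.Y715.Red
open Pool.Agent.TH841.NF (pls lf mem_lf)
open Pool.Agent.Helper891_JO

section nrm

variable {p : ℕ} [hp : Fact p.Prime]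

lemma norm_int {n : ℤ} (hn : n ≠ 0) :
    ‖((n : ℤ) : PadicAlgCl p)‖ = (p : ℝ) ^ (-(padicValInt p n : ℤ)) := by
  have e : ((n : ℤ) : PadicAlgCl p) = ((n : ℚ_[p]) : PadicAlgCl p) := by
    change _ = algebraMap ℚ_[p] (PadicAlgCl p) (n : ℚ_[p])
    rw [map_intCast]
  rw [e, PadicAlgCl.norm_extends, ← Rat.cast_intCast, Padic.eq_padicNorm,
    padicNorm.eq_zpow_of_nonzero (by exact_mod_cast hn)]
  push_cast
  rw [padicValRat.of_int]

lemma norm_ppow (n : ℕ) : ‖(p : PadicAlgCl p) ^ n‖ = (p : ℝ) ^ (-(n : ℤ)) := by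
  rw [norm_pow, Pool.Agent.W571.RK.norm_p_Om, zpow_neg, zpow_natCast, inv_pow]

lemma norm_A {g : ℕ} {c : Fin (2 * g + 1) → ℤ} (hc : Function.Injective c)
    {i l : Fin (2 * g + 1)} (h : l ≠ i) :
    ‖A c p i - A c p l‖ = (p : ℝ) ^ (-(padicValInt p (c i - c l) : ℤ)) := by
  have e1 : A c p i - A c p l = ((c i - c l : ℤ) : PadicAlgCl p) := by push_cast; rfl
  rw [e1, norm_int (sub_ne_zero.2 fun h' => h (hc h').symm)]

lemma norm_unit {n : ℤ} (hn : ¬ (p : ℤ) ∣ n) : ‖((n : ℤ) : PadicAlgCl p)‖ = 1 := by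
  have hn0 : n ≠ 0 := by
    rintro rfl
    exact hn (dvd_zero _)
  rw [norm_int hn0]
  have h1 : padicValInt p n = 0 := padicValInt.eq_zero_of_not_dvd hn
  rw [h1]
  norm_num

lemma norm_A_unit {g : ℕ} {c : Fin (2 * g + 1) → ℤ} {i l : Fin (2 * g + 1)}
    (h : ¬ (p : ℤ) ∣ c i - c l) : ‖A c p i - A c p l‖ = 1 := by
  have e1 : A c p i - A c p l = ((c i - c l : ℤ) : PadicAlgCl p) := by push_cast; rfl
  rw [e1, norm_unit h]

end nrm

section def'

variable {g : ℕ} (p : ℕ) (c : Fin (2 * g + 1) → ℤ)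

/-- all the clusters of roots are odd and of even depth -/
def Tree : Prop := ∀ i l : Fin (2 * g + 1), i ≠ l → Even (padicValInt p (c i - c l)) ∧
  Odd (Finset.univ.filter fun k => k = i ∨ padicValInt p (c i - c l) ≤ padicValInt p (c i - c k)).card

/-- exactly two roots are congruent -/
def Pair (i b : Fin (2 * g + 1)) : Prop := i ≠ b ∧ (p : ℤ) ∣ c i - c b ∧
  ∀ k l, k ≠ l → (p : ℤ) ∣ c k - c l → (k = i ∧ l = b) ∨ (k = b ∧ l = i)

end def'

section loc

variable {F : Type} [Field F] [NumberField F] {g : ℕ} {c : Fin (2 * g + 1) → ℤ}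
  {e : Fin (2 * g + 1) → F} {p : ℕ} [hp : Fact p.Prime] {j : F →+* PadicAlgCl p}

lemma ev_of_K {x : F} {y : lf j} (hy : y ≠ 0)
    (h : ‖j x‖ = ‖algebraMap (lf j) (PadicAlgCl p) y‖ ^ 2) : Ev j x := by
  obtain ⟨t, ht0, ht, -⟩ := approx j (y := algebraMap (lf j) (PadicAlgCl p) y) y.2
    ((_root_.map_ne_zero _).2 hy) one_pos le_rfl
  exact ⟨t, ht0, by rw [ht, h]⟩

lemma ls_of_K {x : F} {y : lf j} (hy : y ≠ 0)
    (h : j x = algebraMap (lf j) (PadicAlgCl p) y ^ 2) : LS j x := by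
  have hy' := (_root_.map_ne_zero (algebraMap (lf j) (PadicAlgCl p))).2 hy
  obtain ⟨t, ht0, ht, htd⟩ := approx j (y := algebraMap (lf j) (PadicAlgCl p) y) y.2 hy'
    one_pos le_rfl
  refine ⟨t⁻¹, inv_ne_zero ht0, ?_⟩
  have hjt0 : j t ≠ 0 := (_root_.map_ne_zero j).2 ht0
  have e1 : j (x * t⁻¹ ^ 2) - 1 =
      (algebraMap (lf j) (PadicAlgCl p) y - j t) * (algebraMap (lf j) (PadicAlgCl p) y + j t) /
        (j t) ^ 2 := by
    rw [map_mul, map_pow, map_inv₀, h]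
    field_simp
    ring
  rw [one_mul] at htd
  have hsum : ‖algebraMap (lf j) (PadicAlgCl p) y + j t‖ ≤ ‖algebraMap (lf j) (PadicAlgCl p) y‖ :=
    add_le le_rfl ht.le
  have hyn : 0 < ‖algebraMap (lf j) (PadicAlgCl p) y‖ := norm_pos_iff.2 hy'
  rw [e1, norm_div, norm_mul, norm_pow, ht, div_lt_one (by positivity)]
  calc ‖algebraMap (lf j) (PadicAlgCl p) y - j t‖ * ‖algebraMap (lf j) (PadicAlgCl p) y + j t‖
      ≤ ‖algebraMap (lf j) (PadicAlgCl p) y - j t‖ * ‖algebraMap (lf j) (PadicAlgCl p) y‖ :=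
        mul_le_mul_of_nonneg_left hsum (norm_nonneg _)
    _ < ‖algebraMap (lf j) (PadicAlgCl p) y‖ * ‖algebraMap (lf j) (PadicAlgCl p) y‖ :=
        mul_lt_mul_of_pos_right htd hyn
    _ = ‖algebraMap (lf j) (PadicAlgCl p) y‖ ^ 2 := by ring

/-- from the norms of the values to the valuations -/
lemma ev_of_val {i : Fin (2 * g + 1)} {D x k : lf j} (hD : D ≠ 0) {w : F} (hw : w ≠ 0)
    (hx : D * ⟨j (e i), mem_lf j _⟩ = x ^ 2) (he : e i ≠ 0)
    (hk : ‖algebraMap (lf j) (PadicAlgCl p) D‖ * ‖j w‖ = ‖algebraMap (lf j) (PadicAlgCl p) k‖ ^ 2) :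
    Ev j (e i * w) := by
  have hje : j (e i) ≠ 0 := (_root_.map_ne_zero j).2 he
  have hD' := (_root_.map_ne_zero (algebraMap (lf j) (PadicAlgCl p))).2 hD
  have hjw : j w ≠ 0 := (_root_.map_ne_zero j).2 hw
  have hx' := congrArg (algebraMap (lf j) (PadicAlgCl p)) hx
  rw [map_mul, map_pow] at hx'
  have hx0 : x ≠ 0 := by
    rintro rfl
    rw [map_zero, zero_pow two_ne_zero] at hx'
    exact mul_ne_zero hD' hje hx'
  have hk0 : k ≠ 0 := by
    rintro rfl
    rw [map_zero, norm_zero, zero_pow two_ne_zero] at hk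
    exact mul_ne_zero (norm_ne_zero_iff.2 hD') (norm_ne_zero_iff.2 hjw) hk
  have hw0 : (⟨j w, mem_lf j _⟩ : lf j) ≠ 0 := by
    intro h
    exact hjw (congrArg Subtype.val h)
  refine ev_of_K (y := x * ⟨j w, mem_lf j _⟩ / k) (div_ne_zero (mul_ne_zero hx0 hw0) hk0) ?_
  have hn := congrArg norm hx'
  rw [norm_mul, norm_pow] at hn
  have e1 : algebraMap (lf j) (PadicAlgCl p) (⟨j w, mem_lf j _⟩ : lf j) = j w := rfl
  have e2 : algebraMap (lf j) (PadicAlgCl p) (⟨j (e i), mem_lf j _⟩ : lf j) = j (e i) := rfl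
  rw [e2] at hn
  have hDn : ‖algebraMap (lf j) (PadicAlgCl p) D‖ ≠ 0 := norm_ne_zero_iff.2 hD'
  have hwn : ‖j w‖ ≠ 0 := norm_ne_zero_iff.2 hjw
  have e4 : algebraMap (lf j) (PadicAlgCl p) (x * ⟨j w, mem_lf j _⟩ / k) =
      algebraMap (lf j) (PadicAlgCl p) x * j w / algebraMap (lf j) (PadicAlgCl p) k := by
    rw [map_div₀, map_mul, e1]
  rw [e4, map_mul j, norm_mul, norm_div, norm_mul, div_pow, mul_pow, ← hn, ← hk]
  field_simp

lemma D_ne {u : (lf j)[X]} {i : Fin (2 * g + 1)} (h : u.eval ((c i : ℤ) : lf j) ≠ 0) :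
    (-1) ^ u.natDegree * u.eval ((c i : ℤ) : lf j) ≠ 0 :=
  mul_ne_zero (pow_ne_zero _ (neg_ne_zero.2 one_ne_zero)) h

theorem tree_ev (hc : Function.Injective c) (ht : Tree p c)
    (h : LocD (lf j) c (fun i => ⟨j (e i), mem_lf j _⟩)) (he : ∀ i, e i ≠ 0)
    (i : Fin (2 * g + 1)) : Ev j (e i) := by
  obtain ⟨u, v, hu, huv, hk⟩ := h
  have hp1 : (1 : ℝ) < (p : ℝ) := by exact_mod_cast hp.out.one_lt
  have hle : ∀ x y : ℕ, (p : ℝ) ^ (-(x : ℤ)) ≤ (p : ℝ) ^ (-(y : ℤ)) ↔ y ≤ x := by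
    intro x y
    rw [zpow_le_zpow_iff_right₀ hp1]
    omega
  obtain ⟨k, hk'⟩ := tree_val (i := i) (n := fun l => padicValInt p (c i - c l) / 2)
    (fun l hl => by
      obtain ⟨m, hm⟩ := (ht i l hl.symm).1
      rw [norm_A hc hl, norm_ppow, ← zpow_natCast, ← zpow_mul]
      congr 1
      push_cast
      omega)
    (fun l hl => by
      have h1 := (ht i l hl.symm).2
      rw [Finset.filter_congr (q := fun k => k = i ∨
        padicValInt p (c i - c l) ≤ padicValInt p (c i - c k))]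
      · exact h1
      intro k _
      by_cases hki : k = i
      · subst hki
        rw [sub_self, norm_zero]
        exact ⟨fun _ => Or.inl rfl, fun _ => norm_nonneg _⟩
      · rw [norm_A hc hki, norm_A hc hl, hle]
        exact ⟨Or.inr, fun h => h.resolve_left hki⟩)
    hu huv (fun l => (hk l).1)
  obtain ⟨h0, x, hx⟩ := hk i
  have := ev_of_val (w := 1) (D_ne h0) one_ne_zero hx (he i) (by
    rw [map_one, norm_one, mul_one]
    exact hk')
  rwa [mul_one] at this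

theorem good_ev (h : LocD (lf j) c (fun i => ⟨j (e i), mem_lf j _⟩)) (he : ∀ i, e i ≠ 0)
    {i : Fin (2 * g + 1)} (hi : ∀ l, l ≠ i → ¬ (p : ℤ) ∣ c i - c l) : Ev j (e i) :=
  good_even h he fun l hl => norm_A_unit (hi l hl)

theorem pair_ev (hp2 : p ≠ 2) (hc : Function.Injective c) {i b : Fin (2 * g + 1)}
    (ht : Pair p c i b)
    (h : LocD (lf j) c (fun i => ⟨j (e i), mem_lf j _⟩)) (he : ∀ i, e i ≠ 0) :
    ∃ m : ℕ, LS j (e i * e b * ((∏ l ∈ LL i b, (c i - c l) : ℤ) : F) ^ m) ∧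
      (¬ LS j ((∏ l ∈ LL i b, (c i - c l) : ℤ) : F) →
        Ev j (e i * (p : F) ^ (padicValInt p (c i - c b) * m))) := by
  obtain ⟨hib, hd, hall⟩ := ht
  obtain ⟨u, v, hu, huv, hk⟩ := h
  have hp1 : (1 : ℝ) < (p : ℝ) := by exact_mod_cast hp.out.one_lt
  have hcb : c i - c b ≠ 0 := sub_ne_zero.2 fun h' => hib (hc h')
  have hL : ∀ l ∈ LL i b, ‖A c p i - A c p l‖ = 1 := by
    intro l hl
    obtain ⟨h1, h2⟩ := mem_LL.1 hl
    apply norm_A_unit
    intro h3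
    rcases hall i l h1.symm h3 with h4 | h4
    · exact h2 h4.2
    · exact hib h4.1
  obtain ⟨m, k, hmk, hns⟩ := pair_val (v := padicValInt p (c i - c b)) hp2 hib rfl
    (by
      have e1 : A c p i - A c p b = ((c i - c b : ℤ) : PadicAlgCl p) := by push_cast; rfl
      rw [e1]
      have e2 : ((c i - c b : ℤ) : PadicAlgCl p) = (((c i - c b : ℤ) : ℚ_[p]) : PadicAlgCl p) := by
        change _ = algebraMap ℚ_[p] (PadicAlgCl p) ((c i - c b : ℤ) : ℚ_[p])
        rw [map_intCast]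
      rw [e2, PadicAlgCl.norm_extends]
      exact Padic.norm_intCast_lt_one_iff.2 hd)
    (by rw [norm_ppow, norm_A hc hib.symm]) hL hu huv (fun l => (hk l).1)
  obtain ⟨hi0, xi, hxi⟩ := hk i
  obtain ⟨hb0, xb, hxb⟩ := hk b
  set δ : ℤ := ∏ l ∈ LL i b, (c i - c l) with hδ
  have hδK : (∏ l ∈ LL i b, (((c i : ℤ) : lf j) - ((c l : ℤ) : lf j))) = ((δ : ℤ) : lf j) := by
    rw [hδ]
    push_cast
    rfl
  rw [hδK] at hmk hns
  have hδ0 : δ ≠ 0 := by
    rw [hδ, Finset.prod_ne_zero_iff]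
    intro l hl
    exact sub_ne_zero.2 fun h' => (mem_LL.1 hl).1 (hc h').symm
  have hcz : CharZero (lf j) := charZero_of_injective_algebraMap (algebraMap ℚ_[p] (lf j)).injective
  have hδK0 : ((δ : ℤ) : lf j) ≠ 0 := by exact_mod_cast hδ0
  refine ⟨m, ?_, fun hls => ?_⟩
  · set Di := (-1) ^ u.natDegree * u.eval ((c i : ℤ) : lf j) with hDi
    set Db := (-1) ^ u.natDegree * u.eval ((c b : ℤ) : lf j) with hDb
    have hDi0 : Di ≠ 0 := D_ne hi0
    have hDb0 : Db ≠ 0 := D_ne hb0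
    have hk0 : k ≠ 0 := by
      rintro rfl
      rw [zero_pow two_ne_zero] at hmk
      exact mul_ne_zero (mul_ne_zero hDi0 hDb0) (pow_ne_zero _ hδK0) hmk
    have hje : ∀ l, (⟨j (e l), mem_lf j _⟩ : lf j) ≠ 0 := fun l h =>
      (_root_.map_ne_zero j).2 (he l) (congrArg Subtype.val h)
    have hxi0 : xi ≠ 0 := by
      rintro rfl
      rw [zero_pow two_ne_zero] at hxi
      exact mul_ne_zero hDi0 (hje i) hxi
    have hxb0 : xb ≠ 0 := by
      rintro rfl
      rw [zero_pow two_ne_zero] at hxb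
      exact mul_ne_zero hDb0 (hje b) hxb
    refine ls_of_K (y := xi * xb * ((δ : ℤ) : lf j) ^ m / k)
      (div_ne_zero (mul_ne_zero (mul_ne_zero hxi0 hxb0) (pow_ne_zero _ hδK0)) hk0) ?_
    have e1 : (xi * xb * ((δ : ℤ) : lf j) ^ m / k) ^ 2 =
        (⟨j (e i), mem_lf j _⟩ : lf j) * (⟨j (e b), mem_lf j _⟩ : lf j) * ((δ : ℤ) : lf j) ^ m := by
      rw [div_pow, mul_pow, mul_pow, ← hxi, ← hxb, ← hmk]
      field_simp
    rw [← map_pow, e1, map_mul, map_mul, map_mul, map_mul, map_pow, map_pow, map_intCast,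
      map_intCast]
    rfl
  · obtain ⟨k', hk'⟩ := hns (by
      rintro ⟨r, hr⟩
      apply hls
      refine ls_of_K (y := r) ?_ ?_
      · rintro rfl
        rw [zero_pow two_ne_zero] at hr
        exact hδK0 hr.symm
      · rw [← map_pow, hr, map_intCast, map_intCast])
    have hp0 : (p : F) ≠ 0 := by exact_mod_cast hp.out.ne_zero
    refine ev_of_val (k := k') (D_ne hi0) (pow_ne_zero _ hp0) hxi (he i) ?_
    rw [← hk', map_pow, map_natCast, pow_mul, norm_pow]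

end loc

end Pool.Agent.Helper891_EG
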