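import Pool.Agent.Helper891_EG.Gb

/-!
# The ratios of the conjugates for a good twist
-/

set_option autoImplicit false
set_option linter.unusedSectionVars false

namespace Pool.Agent.Helper891_EG

open Polynomial NumberField IsDedekindDomain Module
open Pool.Agent.Y723.HJ (hpol hpol_map)
open Pool.Agent.Y715.Nr Pool.Agent.Y715.Red
open Pool.Agent.TH841.NF (pls lf mem_lf)
open Pool.Agent.Y682 (NCl UnrC TotPos elt_sq sq_of_unrC)
open Pool.Agent.Helper891_RP (exists_pls exists_prime_mem p_mem_pls parity)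
open Pool.Agent.Helper891_JO

section zm

variable {p : ℕ} [hp : Fact p.Prime]

lemma isSquare_mul_non (h2 : p ≠ 2) {x y : ZMod p} (hx : ¬ IsSquare x) (hy : ¬ IsSquare y) :
    IsSquare (x * y) := by
  have hx0 : x ≠ 0 := by
    rintro rfl
    exact hx IsSquare.zero
  have hy0 : y ≠ 0 := by
    rintro rfl
    exact hy IsSquare.zero
  have hc : ringChar (ZMod p) ≠ 2 := by rwa [ZMod.ringChar_zmod_n]
  rw [← quadraticChar_one_iff_isSquare (mul_ne_zero hx0 hy0), map_mul,
    quadraticChar_neg_one_iff_not_isSquare.2 hx, quadraticChar_neg_one_iff_not_isSquare.2 hy]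
  norm_num

end zm

section ls

variable {F : Type} [Field F] [NumberField F] {p : ℕ} [hp : Fact p.Prime]
  {j : F →+* PadicAlgCl p}

lemma ls_of_isSquare {n : ℤ} (hn : ¬ (p : ℤ) ∣ n) (h : IsSquare ((n : ℤ) : ZMod p)) :
    LS j (n : F) := by
  obtain ⟨r, hr⟩ := h
  obtain ⟨s, hs⟩ : ∃ s : ℤ, ((s : ℤ) : ZMod p) = r := ⟨r.cast, by simp⟩
  have h1 : (p : ℤ) ∣ n - s * s := by
    rw [← ZMod.intCast_zmod_eq_zero_iff_dvd]
    push_cast
    rw [hs, hr, sub_self]
  have hps : ¬ (p : ℤ) ∣ s := by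
    intro h3
    apply hn
    have h4 : (p : ℤ) ∣ s * s := h3.mul_right s
    have h5 := dvd_add h1 h4
    rwa [sub_add_cancel] at h5
  have hs1 := norm_unit (p := p) hps
  have hs0 : (s : F) ≠ 0 := by
    intro h0
    have : s = 0 := by exact_mod_cast h0
    rw [this] at hps
    exact hps (dvd_zero _)
  refine ⟨(s : F)⁻¹, inv_ne_zero hs0, ?_⟩
  have e1 : j ((n : F) * (s : F)⁻¹ ^ 2) - 1 =
      ((n - s * s : ℤ) : PadicAlgCl p) / ((s : ℤ) : PadicAlgCl p) ^ 2 := by
    have hs0' : ((s : ℤ) : PadicAlgCl p) ≠ 0 := by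
      rw [← norm_ne_zero_iff, hs1]
      exact one_ne_zero
    rw [map_mul, map_pow, map_inv₀, map_intCast, map_intCast]
    push_cast
    field_simp
  rw [e1, norm_div, norm_pow, hs1, one_pow, div_one]
  have e2 : ((n - s * s : ℤ) : PadicAlgCl p) = (((n - s * s : ℤ) : ℚ_[p]) : PadicAlgCl p) := by
    change _ = algebraMap ℚ_[p] (PadicAlgCl p) ((n - s * s : ℤ) : ℚ_[p])
    rw [map_intCast]
  rw [e2, PadicAlgCl.norm_extends]
  exact Padic.norm_intCast_lt_one_iff.2 h1

lemma ev_ppow (h : ¬ Ev j (p : F)) (k : ℕ) : Ev j ((p : F) ^ k) ↔ Even k := by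
  have hp0 : (p : F) ≠ 0 := by exact_mod_cast hp.out.ne_zero
  constructor
  · intro h1
    by_contra h2
    rw [Nat.not_even_iff_odd] at h2
    obtain ⟨m, rfl⟩ := h2
    apply h
    rw [pow_succ, pow_mul'] at h1
    exact Ev.of_mul (Ev.sq (pow_ne_zero _ hp0)) h1
  · rintro ⟨m, rfl⟩
    have e : (p : F) ^ (m + m) = ((p : F) ^ m) ^ 2 := by ring
    rw [e]
    exact Ev.sq (pow_ne_zero _ hp0)

end ls

section tw

variable {g : ℕ} {a : Fin (2 * g + 1) → ℤ} {p : ℕ} [hp : Fact p.Prime] {D : ℤ}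

/-- the roots of the twist -/
def tw (D : ℤ) (a : Fin (2 * g + 1) → ℤ) : Fin (2 * g + 1) → ℤ := fun l => D * a l

lemma tw_sub (i l : Fin (2 * g + 1)) : tw D a i - tw D a l = D * (a i - a l) := by
  unfold tw
  ring

lemma val_tw (hD : ¬ (p : ℤ) ∣ D) (x : ℤ) : padicValInt p (D * x) = padicValInt p x := by
  have hD0 : D ≠ 0 := by
    rintro rfl
    exact hD (dvd_zero _)
  by_cases hx : x = 0
  · rw [hx, mul_zero]
  · rw [padicValInt.mul hD0 hx, padicValInt.eq_zero_of_not_dvd hD, zero_add]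

lemma dvd_tw (hD : ¬ (p : ℤ) ∣ D) (x : ℤ) : (p : ℤ) ∣ D * x ↔ (p : ℤ) ∣ x := by
  have hpp : Prime (p : ℤ) := Nat.prime_iff_prime_int.1 hp.out
  constructor
  · intro h
    exact (hpp.dvd_or_dvd h).resolve_left hD
  · intro h
    exact h.mul_left D

lemma tree_tw (hD : ¬ (p : ℤ) ∣ D) (h : Tree p a) : Tree p (tw D a) := by
  intro i l hil
  obtain ⟨h1, h2⟩ := h i l hil
  simp only [tw_sub, val_tw hD]
  exact ⟨h1, h2⟩

lemma pair_tw (hD : ¬ (p : ℤ) ∣ D) {i b : Fin (2 * g + 1)} (h : Pair p a i b) :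
    Pair p (tw D a) i b := by
  obtain ⟨h1, h2, h3⟩ := h
  refine ⟨h1, ?_, fun k l hkl h4 => ?_⟩
  · rw [tw_sub]
    exact h2.mul_left D
  · rw [tw_sub, dvd_tw hD] at h4
    exact h3 k l hkl h4

lemma clus_tw (hD : ¬ (2 : ℤ) ∣ D) {S : Finset (Fin (2 * g + 1))} (h : Clus a S) :
    Clus (tw D a) S := by
  refine ⟨h.1, fun i hi j hj l hl hij => ?_⟩
  have h1 := h.2 i hi j hj l hl hij
  have h2 : ¬ ((2 : ℕ) : ℤ) ∣ D := hD
  rw [tw_sub, tw_sub, val_tw h2, val_tw h2]
  exact h1

lemma delta_tw {i b : Fin (2 * g + 1)} (hib : i ≠ b) : ∃ m : ℕ,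
    ∏ l ∈ LL i b, (tw D a i - tw D a l) = (D * ∏ l ∈ LL i b, (a i - a l)) * (D ^ m) ^ 2 := by
  have h1 := card_LL (g := g) hib
  obtain ⟨m, hm⟩ : ∃ m, (LL i b : Finset (Fin (2 * g + 1))).card = 2 * m + 1 := by
    refine ⟨g - 1, ?_⟩
    omega
  refine ⟨m, ?_⟩
  simp only [tw_sub]
  rw [Finset.prod_mul_distrib, Finset.prod_const, hm]
  ring

lemma tw_mono (hD : 0 < D) (ha : StrictMono a) : StrictMono (tw D a) := fun i l h =>
  mul_lt_mul_of_pos_left (ha h) hD

end tw

/-- the automorphism preserves every place above `p` -/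
def NS {F : Type} [Field F] [NumberField F] (η : F ≃ₐ[ℚ] F) (p : ℕ) : Prop :=
  ∀ [Fact p.Prime] (j : F →+* PadicAlgCl p) (x : F), ‖j (η x)‖ = ‖j x‖

section near

variable {F : Type} [Field F] [NumberField F] {g : ℕ} {a : Fin (2 * g + 1) → ℤ}
  {e : Fin (2 * g + 1) → F}

lemma near_prod (γ : F ≃ₐ[ℚ] F) (h1 : NS γ 2) {j : F →+* PadicAlgCl 2}
    (h : LocD (lf j) a (fun i => ⟨j (e i), mem_lf j _⟩)) (he : ∀ i, e i ≠ 0)
    {S : Finset (Fin (2 * g + 1))} {c : Fin (2 * g + 1)}
    (ha : Function.Injective a) (hc : c ∈ S)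
    (hcl : ∀ i ∈ S, ∀ l ∉ S, ‖A a 2 c - A a 2 i‖ ≤ ‖A a 2 c - A a 2 l‖ / 32)
    {m : ℕ} (hm : S.card = 2 * m) :
    ∃ t : F, t ≠ 0 ∧ ‖j ((∏ i ∈ S, γ (e i) * e i) * t ^ 2 - 1)‖ < 1 / 8 := by
  classical
  obtain ⟨n, t, ht0, ht⟩ := cluster_near h he ha hc hcl hm
  set E := ∏ i ∈ S, e i with hE
  set H : F := ∏ l ∈ Sᶜ, (((a c : ℤ) : F) - ((a l : ℤ) : F)) with hH
  have hH0 : H ≠ 0 := by
    rw [hH, Finset.prod_ne_zero_iff]
    intro l hl
    rw [Finset.mem_compl] at hl
    rw [sub_ne_zero]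
    intro h3
    have h4 : a c = a l := by exact_mod_cast h3
    exact hl (ha h4 ▸ hc)
  have hγH : γ H = H := by
    rw [hH, map_prod]
    refine Finset.prod_congr rfl fun l _ => ?_
    rw [map_sub, map_intCast, map_intCast]
  have hγt0 : γ t ≠ 0 := (_root_.map_ne_zero γ).2 ht0
  set y := E * H ^ n * t⁻¹ ^ 2 with hy
  have hy' : ‖j (γ y - 1)‖ < 1 / 8 := by
    have e1 : γ y - 1 = γ (y - 1) := by rw [map_sub, map_one]
    rw [e1, h1]
    exact ht
  have hy1 : ‖j y‖ = 1 := by
    have e1 : j y = 1 + j (y - 1) := by rw [map_sub, map_one]; ring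
    rw [e1, eq_of_lt (by rw [norm_one]; exact ht.trans (by norm_num)), norm_one]
  refine ⟨H ^ n / (t * γ t), div_ne_zero (pow_ne_zero _ hH0) (mul_ne_zero ht0 hγt0), ?_⟩
  have e2 : (∏ i ∈ S, γ (e i) * e i) * (H ^ n / (t * γ t)) ^ 2 - 1 =
      y * (γ y - 1) + (y - 1) := by
    have e3 : γ y = γ E * H ^ n * (γ t)⁻¹ ^ 2 := by
      rw [hy, map_mul, map_mul, map_pow, map_pow, map_inv₀, hγH]
    rw [Finset.prod_mul_distrib, ← map_prod, ← hE, e3, hy]
    field_simp
    ring
  rw [e2, map_add]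
  exact add_lt (by rw [map_mul, norm_mul, hy1, one_mul]; exact hy') ht

end near

section main

variable {F : Type} [Field F] [NumberField F] [IsGalois ℚ F] {g : ℕ}
  {a : Fin (2 * g + 1) → ℤ} {T : Finset Nat.Primes}
  {ip bp : Nat.Primes → Fin (2 * g + 1)}

lemma delta_unit {p : ℕ} [hp : Fact p.Prime] {i b : Fin (2 * g + 1)} (h : Pair p a i b) :
    ¬ (p : ℤ) ∣ ∏ l ∈ LL i b, (a i - a l) := by
  obtain ⟨hib, h2, h3⟩ := h
  have hpp : Prime (p : ℤ) := Nat.prime_iff_prime_int.1 hp.out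
  rw [hpp.dvd_finsetProd_iff]
  rintro ⟨l, hl, h4⟩
  obtain ⟨h5, h6⟩ := mem_LL.1 hl
  rcases h3 i l h5.symm h4 with h7 | h7
  · exact h6 h7.2
  · exact hib h7.1

lemma sq_iff {p : ℕ} [hp : Fact p.Prime] {D : ℤ} (hD : ¬ (p : ℤ) ∣ D) {i b : Fin (2 * g + 1)}
    (hib : i ≠ b) : IsSquare (((∏ l ∈ LL i b, (tw D a i - tw D a l) : ℤ)) : ZMod p) ↔
      IsSquare (((D * ∏ l ∈ LL i b, (a i - a l) : ℤ)) : ZMod p) := by
  obtain ⟨m, hm⟩ := delta_tw (D := D) (a := a) hib
  have hD0 : ((D : ℤ) : ZMod p) ≠ 0 := by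
    rwa [Ne, ZMod.intCast_zmod_eq_zero_iff_dvd]
  rw [hm, Int.cast_mul _ ((D ^ m) ^ 2), Int.cast_pow _ 2]
  have h0 : (((D ^ m : ℤ)) : ZMod p) ≠ 0 := by
    rw [Int.cast_pow]
    exact pow_ne_zero _ hD0
  constructor
  · rintro ⟨r, hr⟩
    refine ⟨r / (((D ^ m : ℤ)) : ZMod p), ?_⟩
    field_simp
    rw [hr]
    ring
  · rintro ⟨r, hr⟩
    refine ⟨r * (((D ^ m : ℤ)) : ZMod p), ?_⟩
    rw [hr]
    ring

lemma prod_shift {η : F ≃ₐ[ℚ] F} {m : ℕ} (hη : η ^ m = 1) {x : F} (hx : x ≠ 0) :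
    ∏ i ∈ Finset.range m, (η ^ (i + 1)) x = ∏ i ∈ Finset.range m, (η ^ i) x := by
  have h1 := Finset.prod_range_succ (fun i => (η ^ i) x) m
  rw [Finset.prod_range_succ', pow_zero, hη] at h1
  exact mul_right_cancel₀ hx h1

/-- **the ratios of the conjugates are squares for a good twist** -/
theorem ratio_tw {γ : F ≃ₐ[ℚ] F} {m : ℕ} (hγm : γ ^ m = 1)
    (hodd : Odd (finrank ℚ F)) (ha : StrictMono a) {D : ℤ} (hDpos : 0 < D)
    (hD2' : ¬ (2 : ℤ) ∣ D) (hDo : ∀ p : ℕ, p.Prime → (p : ℤ) ∣ D → NS γ p) (h2 : NS γ 2)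
    (hT : ∀ q ∈ T, (q : ℕ) ≠ 2 ∧ ¬ ((q : ℕ) : ℤ) ∣ D ∧ Pair q a (ip q) (bp q) ∧
      Odd (padicValInt q (a (ip q) - a (bp q))))
    (hcase : ∀ p : ℕ, p.Prime → NS γ p ∨ Tree p a ∨ ∃ i b, p ≠ 2 ∧ Pair p a i b ∧
      (Odd (padicValInt p (a i - a b)) → ∃ q ∈ T, (q : ℕ) = p) ∧
      (Even (padicValInt p (a i - a b)) →
        ¬ IsSquare (((D * ∏ l ∈ LL i b, (a i - a l) : ℤ)) : ZMod p)))
    (jj : ∀ p : Nat.Primes, F →+* PadicAlgCl (p : ℕ)) (d : Nat.Primes → Bool → ℤ)
    (hd0 : ∀ p ∈ T, d p false = 1)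
    (hd1 : ∀ p ∈ T, ¬ IsSquare ((d p true : ℤ) : ZMod (p : ℕ))) (x : Nat.Primes → Bool)
    (hx : ∀ e : Fin (2 * g + 1) → Fˣ, WW γ m a T ip bp e → (∀ p ∈ T, CC ip bp jj d p (x p) e) → SqU e)
    (hDx : ∀ q ∈ T,
      (IsSquare (((D * ∏ l ∈ LL (ip q) (bp q), (a (ip q) - a l) : ℤ)) : ZMod (q : ℕ)) ↔
        x q = false))
    {e : Fin (2 * g + 1) → F}
    (hR : ∀ φ : F →+* ℝ, LocD ℝ (tw D a) (fun i => φ (e i)))
    (hP : ∀ (p : ℕ) [Fact p.Prime] (j : F →+* PadicAlgCl p),
      LocD (lf j) (tw D a) (fun i => ⟨j (e i), mem_lf j _⟩))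
    (he : ∀ i, e i ≠ 0) (i : Fin (2 * g + 1)) : ∃ y : F, γ (e i) = e i * y ^ 2 := by
  classical
  have hmono := tw_mono hDpos ha
  set eu : Fin (2 * g + 1) → Fˣ := fun l => Units.mk0 (e l) (he l) with heu
  have heuv : ∀ l, ((eu l : Fˣ) : F) = e l := fun l => rfl
  -- the pairs
  have hcc : ∀ q ∈ T, ∀ j : F →+* PadicAlgCl (q : ℕ),
      Ev j (e (ip q) * e (bp q)) ∧
      (Ev j (e (ip q)) → LS j (e (ip q) * e (bp q))) ∧
      (¬ Ev j (e (ip q)) → LS j (e (ip q) * e (bp q) * (d q (x q) : F))) := by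
    intro q hq j
    obtain ⟨hq2, hDq, hpair, hv⟩ := hT q hq
    have hpair' := pair_tw hDq hpair
    obtain ⟨m, hm1, hm2⟩ := pair_ev hq2 hmono.injective hpair' (hP q j) he
    set δ := ∏ l ∈ LL (ip q) (bp q), (tw D a (ip q) - tw D a l) with hδ
    have hδu : ¬ ((q : ℕ) : ℤ) ∣ δ := delta_unit hpair'
    have hsq := sq_iff (p := q) (a := a) hDq hpair.1
    rw [hDx q hq, ← hδ] at hsq
    have hδ0 : (δ : F) ≠ 0 := by
      have : δ ≠ 0 := by
        intro h
        rw [h] at hδu
        exact hδu (dvd_zero _)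
      exact_mod_cast this
    have hδev : Ev j (δ : F) := ⟨1, one_ne_zero, by
      rw [map_intCast, norm_unit hδu, map_one, norm_one, one_pow]⟩
    have hδm : ∀ m : ℕ, Ev j ((δ : F) ^ m) := by
      intro m
      induction m with
      | zero => rw [pow_zero]; exact Ev.one
      | succ m ih => rw [pow_succ]; exact ih.mul hδev
    refine ⟨?_, ?_⟩
    · have h3 := hm1.ev
      rw [mul_comm] at h3
      exact Ev.of_mul (hδm m) h3
    · by_cases hls : LS j (δ : F)
      · -- the constant is a square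
        have h3 : IsSquare ((δ : ℤ) : ZMod (q : ℕ)) := isSquare_of_ls j hodd hδu hls
        have hxq := hsq.1 h3
        have hlm : ∀ m : ℕ, LS j ((δ : F) ^ m) := by
          intro m
          induction m with
          | zero => rw [pow_zero]; exact LS.one
          | succ m ih => rw [pow_succ]; exact ih.mul hls
        have h4 : LS j (e (ip q) * e (bp q)) := by
          rw [mul_comm] at hm1
          exact LS.of_mul (hlm m) hm1
        refine ⟨fun _ => h4, fun _ => ?_⟩
        rw [hxq, hd0 q hq, Int.cast_one, mul_one]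
        exact h4
      · have hxq : x q = true := by
          have h3 : ¬ IsSquare ((δ : ℤ) : ZMod (q : ℕ)) := fun h => hls (ls_of_isSquare hδu h)
          have h4 : x q ≠ false := fun h => h3 (hsq.2 h)
          simpa using h4
        have h3 := hm2 hls
        have hval : padicValInt q (tw D a (ip q) - tw D a (bp q)) =
            padicValInt q (a (ip q) - a (bp q)) := by rw [tw_sub, val_tw hDq]
        rw [hval] at h3
        have hnp := not_ev_p j hodd
        constructor
        · intro h4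
          have h5 := (ev_ppow hnp _).1 (Ev.of_mul h4 h3)
          have h6 : Even m := (Nat.even_mul.1 h5).resolve_left (Nat.not_even_iff_odd.2 hv)
          obtain ⟨k, rfl⟩ := h6
          have e1 : (δ : F) ^ (k + k) = ((δ : F) ^ k) ^ 2 := by ring
          rw [e1, mul_comm] at hm1
          exact LS.of_mul (LS.sq (pow_ne_zero _ hδ0)) hm1
        · intro h4
          have h6 : ¬ Even m := by
            intro h6
            apply h4
            have h7 : Ev j ((((q : ℕ) : ℕ) : F) ^ (padicValInt q (a (ip q) - a (bp q)) * m)) :=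
              (ev_ppow hnp _).2 (h6.mul_left _)
            rw [mul_comm] at h3
            exact Ev.of_mul h7 h3
          rw [Nat.not_even_iff_odd] at h6
          obtain ⟨k, rfl⟩ := h6
          have h7 : LS j (e (ip q) * e (bp q) * (δ : F)) := by
            have e1 : e (ip q) * e (bp q) * (δ : F) ^ (2 * k + 1) =
                ((δ : F) ^ k) ^ 2 * (e (ip q) * e (bp q) * (δ : F)) := by ring
            rw [e1] at hm1
            exact LS.of_mul (LS.sq (pow_ne_zero _ hδ0)) hm1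
          rw [hxq]
          have h8 : IsSquare (((δ * d q true : ℤ)) : ZMod (q : ℕ)) := by
            push_cast
            exact isSquare_mul_non hq2 (fun h => hls (ls_of_isSquare hδu h)) (hd1 q hq)
          have hdu : ¬ ((q : ℕ) : ℤ) ∣ d q true := by
            intro h9
            apply hd1 q hq
            rw [(ZMod.intCast_zmod_eq_zero_iff_dvd _ _).2 h9]
            exact IsSquare.zero
          have hpp : Prime ((q : ℕ) : ℤ) := Nat.prime_iff_prime_int.1 q.2
          have h9 : ¬ ((q : ℕ) : ℤ) ∣ δ * d q true := by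
            intro h10
            exact (hpp.dvd_or_dvd h10).elim hδu hdu
          have h10 := h7.mul (ls_of_isSquare (j := j) h9 h8)
          have e2 : e (ip q) * e (bp q) * (δ : F) * ((δ * d q true : ℤ) : F) =
              (δ : F) ^ 2 * (e (ip q) * e (bp q) * (d q true : F)) := by
            push_cast
            ring
          rw [e2] at h10
          exact LS.of_mul (LS.sq hδ0) h10
  -- even valuations of the product
  have hev : ∀ (p : ℕ) [Fact p.Prime] (j : F →+* PadicAlgCl p) (l : Fin (2 * g + 1)),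
      (∀ q ∈ T, (q : ℕ) = p → l ≠ ip q ∧ l ≠ bp q) → Ev j (γ (e l) * e l) := by
    intro p hp j l hl
    by_cases ho : NS γ p
    · refine ⟨e l, he l, ?_⟩
      rw [map_mul, norm_mul, ho, pow_two]
    · have hDp : ¬ (p : ℤ) ∣ D := fun h => ho (hDo p hp.out h)
      have main : (∀ j : F →+* PadicAlgCl p, Ev j (e l)) → Ev j (γ (e l) * e l) := fun h =>
        ((ev_comp γ).1 (h (j.comp (γ : F →+* F)))).mul (h j)
      apply main
      intro j
      rcases (hcase p hp.out).resolve_left ho with ht | ⟨i, b, hp2, hpair, hvo, hve⟩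
      · exact tree_ev hmono.injective (tree_tw hDp ht) (hP p j) he l
      · have hpair' := pair_tw hDp hpair
        by_cases hlib : l ≠ i ∧ l ≠ b
        · refine good_ev (hP p j) he fun k hk h3 => ?_
          rcases hpair'.2.2 l k hk.symm h3 with h4 | h4
          · exact hlib.1 h4.1
          · exact hlib.2 h4.1
        · have hvE : Even (padicValInt p (a i - a b)) := by
            by_contra h3
            rw [Nat.not_even_iff_odd] at h3
            obtain ⟨q, hq, rfl⟩ := hvo h3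
            obtain ⟨h4, h5⟩ := hl q hq rfl
            obtain ⟨-, -, hpq, -⟩ := hT q hq
            rcases hpair.2.2 _ _ hpq.1 hpq.2.1 with ⟨h6, h7⟩ | ⟨h6, h7⟩
            · exact hlib ⟨by rw [← h6]; exact h4, by rw [← h7]; exact h5⟩
            · exact hlib ⟨by rw [← h7]; exact h5, by rw [← h6]; exact h4⟩
          obtain ⟨m, hm1, hm2⟩ := pair_ev hp2 hmono.injective hpair' (hP p j) he
          have hδu := delta_unit hpair'
          have hns : ¬ LS j (((∏ l ∈ LL i b, (tw D a i - tw D a l) : ℤ)) : F) := by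
            intro h3
            have h4 := isSquare_of_ls j hodd hδu h3
            rw [sq_iff hDp hpair.1] at h4
            exact hve hvE h4
          have h3 := hm2 hns
          have hval : padicValInt p (tw D a i - tw D a b) =
              padicValInt p (a i - a b) := by rw [tw_sub, val_tw hDp]
          rw [hval] at h3
          have hnp := not_ev_p j hodd
          have h4 : Ev j (e i) := by
            rw [mul_comm] at h3
            exact Ev.of_mul ((ev_ppow hnp _).2 (hvE.mul_right m)) h3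
          have hδev : Ev j (((∏ l ∈ LL i b, (tw D a i - tw D a l) : ℤ)) : F) :=
            ⟨1, one_ne_zero, by rw [map_intCast, norm_unit hδu, map_one, norm_one, one_pow]⟩
          have hδm : ∀ m : ℕ, Ev j ((((∏ l ∈ LL i b, (tw D a i - tw D a l) : ℤ)) : F) ^ m) := by
            intro m
            induction m with
            | zero => rw [pow_zero]; exact Ev.one
            | succ m ih => rw [pow_succ]; exact ih.mul hδev
          have h5 : Ev j (e i * e b) := by
            have h6 := hm1.ev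
            rw [mul_comm] at h6
            exact Ev.of_mul (hδm m) h6
          by_cases hli : l = i
          · rw [hli]
            exact h4
          · have hlb : l = b := by
              by_contra h6
              exact hlib ⟨hli, h6⟩
            rw [hlb]
            exact Ev.of_mul h4 h5
  have hRγ : ∀ φ : F →+* ℝ, LocD ℝ (tw D a) (fun i => φ (γ (e i))) := fun φ =>
    hR (φ.comp (γ : F →+* F))
  have hγ0 : ∀ i, γ (e i) ≠ 0 := fun i => (_root_.map_ne_zero γ).2 (he i)
  have hW : WW γ m a T ip bp (actU γ eu * eu) := by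
    constructor
    · intro l
      refine ⟨∏ i ∈ Finset.range m, (γ ^ i) (e l), ?_⟩
      rw [Finset.prod_congr rfl (g := fun i : ℕ => (γ ^ (i + 1)) (e l) * (γ ^ i) (e l)),
        Finset.prod_mul_distrib, prod_shift hγm (he l), pow_two]
      intro i _
      rw [Pi.mul_apply, Units.val_mul, actU_val, map_mul, heuv, pow_succ]
      rfl
    · intro p hp j l hl
      exact hev p j l hl
    · intro p hp j q hq hqp
      subst hqp
      have h1 := (hcc q hq j).1
      have h3 := (ev_comp γ).1 (hcc q hq (j.comp (γ : F →+* F))).1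
      have h4 := h3.mul h1
      rw [map_mul] at h4
      have e1 : (((actU γ eu * eu) (ip q) : Fˣ) : F) * ((actU γ eu * eu) (bp q) : Fˣ) =
          γ (e (ip q)) * γ (e (bp q)) * (e (ip q) * e (bp q)) := by
        rw [Pi.mul_apply, Pi.mul_apply, Units.val_mul, Units.val_mul, actU_val, actU_val, heuv,
          heuv]
        ring
      rw [e1]
      exact h4
    · intro φ
      rw [Pi.mul_apply, Units.val_mul, actU_val, heuv, map_mul]
      exact mul_pos (real_first hmono (hRγ φ) fun i => (_root_.map_ne_zero φ).2 (hγ0 i))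
        (real_first hmono (hR φ) fun i => (_root_.map_ne_zero φ).2 (he i))
    · intro φ k i j hi hj
      rw [Pi.mul_apply, Pi.mul_apply, Units.val_mul, Units.val_mul, actU_val, actU_val, heuv, heuv,
        map_mul, map_mul, mul_mul_mul_comm]
      exact mul_pos (real_two hmono (hRγ φ) (fun i => (_root_.map_ne_zero φ).2 (hγ0 i)) hi hj)
        (real_two hmono (hR φ) (fun i => (_root_.map_ne_zero φ).2 (he i)) hi hj)
    · intro S hS j
      rcases S.eq_empty_or_nonempty with rfl | ⟨c, hc⟩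
      · exact ⟨1, one_ne_zero, by simp⟩
      · obtain ⟨m, hm⟩ := hS.1
        have hS' := clus_tw hD2' hS
        exact near_prod γ h2 (hP 2 j) he hmono.injective hc (clus_norm hmono.injective hS' hc)
          (m := m) (by omega)
  have hC : ∀ q ∈ T, CC ip bp jj d q (x q) (actU γ eu * eu) := by
    intro q hq
    have h1 : CC ip bp jj d q (x q) eu := fun h => (hcc q hq _).2
    have hd : (d q (x q) : F) ≠ 0 := by
      have h3 : d q (x q) ≠ 0 := by
        cases hxq : x q with
        | false => rw [hd0 q hq]; exact one_ne_zero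
        | true =>
          intro h
          apply hd1 q hq
          rw [h, Int.cast_zero]
          exact IsSquare.zero
      exact_mod_cast h3
    exact CC.mul hd (h1.act γ) h1
  obtain ⟨y, hy⟩ := hx _ hW hC i
  rw [Pi.mul_apply, Units.val_mul, actU_val, heuv] at hy
  refine ⟨y / e i, ?_⟩
  have := he i
  rw [div_pow, ← hy]
  field_simp

end main

end Pool.Agent.Helper891_EG
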