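import Pool.Agent.Helper891_EG.Dr

/-!
# Primes that do not split completely in a cyclic extension of prime power degree
-/

set_option autoImplicit false
set_option linter.unusedSectionVars false
set_option linter.style.haveILetI false

namespace Pool.Agent.Helper891_EG

open NumberField IsDedekindDomain Module
open Pool.Agent.TH841.NF (pls)
open Pool.Agent.Helper891_RP (exists_pls p_mem_pls norm_eq_of_pls)
open Pool.Agent.Helper891_JO

section grp

variable {G : Type} [Group G] [Finite G] {l k : ℕ} {γ : G}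

lemma mem_of_ne (hl : l.Prime) (hγ : ∀ x, x ∈ Subgroup.zpowers γ) (ho : orderOf γ = l ^ (k + 1))
    {h : G} (hh : h ≠ 1) : ∃ n : ℕ, h ^ n = γ ^ l ^ k := by
  obtain ⟨n, rfl⟩ := (mem_powers_iff_mem_zpowers).2 (hγ h)
  simp only at hh ⊢
  have hn : ¬ l ^ (k + 1) ∣ n := by
    intro h1
    rw [← ho] at h1
    exact hh (orderOf_dvd_iff_pow_eq_one.1 h1)
  have hn0 : n ≠ 0 := by
    rintro rfl
    exact hn (dvd_zero _)
  obtain ⟨e, m, hm, hnm⟩ := Nat.exists_eq_pow_mul_and_not_dvd hn0 l hl.ne_one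
  have hek : e ≤ k := by
    by_contra hcon
    apply hn
    rw [hnm]
    exact (pow_dvd_pow l (by omega)).mul_right m
  have hco : Nat.Coprime m l := ((Nat.Prime.coprime_iff_not_dvd hl).2 hm).symm
  obtain ⟨u, -, hu⟩ := Nat.exists_mul_mod_eq_one_of_coprime hco hl.one_lt
  refine ⟨l ^ (k - e) * u, ?_⟩
  have hηl : (γ ^ l ^ k) ^ l = 1 := by
    rw [← pow_mul, ← pow_succ, ← ho]
    exact pow_orderOf_eq_one γ
  have e1 : n * (l ^ (k - e) * u) = l ^ k * (m * u) := by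
    have e2 : l ^ k = l ^ e * l ^ (k - e) := by rw [← pow_add, Nat.add_sub_cancel' hek]
    rw [hnm, e2]
    ring
  rw [← pow_mul, e1, pow_mul, pow_eq_pow_mod (m * u) hηl, hu, pow_one]

lemma pow_of_tor (hl : l.Prime) (hγ : ∀ x, x ∈ Subgroup.zpowers γ)
    (ho : orderOf γ = l ^ (k + 1)) {h : G} (hh : h ^ l = 1) : ∃ n : ℕ, (γ ^ l ^ k) ^ n = h := by
  obtain ⟨n, rfl⟩ := (mem_powers_iff_mem_zpowers).2 (hγ h)
  simp only at hh ⊢
  rw [← pow_mul, ← orderOf_dvd_iff_pow_eq_one, ho, pow_succ] at hh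
  obtain ⟨m, rfl⟩ := Nat.dvd_of_mul_dvd_mul_right hl.pos hh
  exact ⟨m, by rw [pow_mul]⟩

end grp

section ns

variable {F : Type} [Field F] [NumberField F] [IsGalois ℚ F] {l k : ℕ} {γ : F ≃ₐ[ℚ] F}

theorem ns_of_not_split (hl : l.Prime) (hγ : ∀ x, x ∈ Subgroup.zpowers γ)
    (ho : orderOf γ = l ^ (k + 1)) {p : ℕ}
    (hs : {v : HeightOneSpectrum (𝓞 F) | (p : 𝓞 F) ∈ v.asIdeal}.ncard ≠ finrank ℚ F) :
    NS (γ ^ l ^ k) p := by
  classical
  intro hp j x
  by_contra hcon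
  apply hs
  have hcomm : ∀ a b : F ≃ₐ[ℚ] F, a * b = b * a := by
    intro a b
    obtain ⟨n, rfl⟩ := (mem_powers_iff_mem_zpowers).2 (hγ a)
    obtain ⟨m, rfl⟩ := (mem_powers_iff_mem_zpowers).2 (hγ b)
    exact (Commute.refl γ).pow_pow n m
  let f : (F ≃ₐ[ℚ] F) → HeightOneSpectrum (𝓞 F) := fun h => pls (p := p) (j.comp (h : F →+* F))
  have hinj : Function.Injective f := by
    intro h h' hf
    by_contra hne
    have h1 : ∀ y, ‖j (h y)‖ = ‖j (h' y)‖ := fun y => norm_eq_of_pls hf y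
    have h2 : ∀ y, ‖j ((h' * h⁻¹) y)‖ = ‖j y‖ := by
      intro y
      have h3 := h1 (h⁻¹ y)
      have e1 : h (h⁻¹ y) = y := by
        rw [← AlgEquiv.mul_apply, mul_inv_cancel, AlgEquiv.one_apply]
      rw [e1] at h3
      rw [AlgEquiv.mul_apply, ← h3]
    have h3 : ∀ n : ℕ, ∀ y, ‖j (((h' * h⁻¹) ^ n) y)‖ = ‖j y‖ := by
      intro n
      induction n with
      | zero => intro y; rw [pow_zero, AlgEquiv.one_apply]
      | succ n ih => intro y; rw [pow_succ, AlgEquiv.mul_apply, ih, h2]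
    obtain ⟨n, hn⟩ := mem_of_ne hl hγ ho (h := h' * h⁻¹) (fun h4 => hne (by
      rw [mul_inv_eq_one] at h4
      exact h4.symm))
    apply hcon
    rw [← hn]
    exact h3 n x
  have hrange : {v : HeightOneSpectrum (𝓞 F) | (p : 𝓞 F) ∈ v.asIdeal} = Set.range f := by
    ext v
    constructor
    · intro hv
      obtain ⟨j', rfl⟩ := exists_pls (p := p) v hv
      obtain ⟨h, hh⟩ := exists_comp j' j
      refine ⟨h, ?_⟩
      have e1 : j' = j.comp (h : F →+* F) := RingHom.ext hh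
      rw [e1]
    · rintro ⟨h, rfl⟩
      exact p_mem_pls _
  rw [hrange, ← Set.image_univ, Set.ncard_image_of_injective _ hinj, Set.ncard_univ,
    IsGalois.card_aut_eq_finrank]

lemma not_split_of_onep (hl : l.Prime) (hd : finrank ℚ F = l ^ (k + 1)) {p : ℕ} (h : OneP F p) :
    {v : HeightOneSpectrum (𝓞 F) | (p : 𝓞 F) ∈ v.asIdeal}.ncard ≠ finrank ℚ F := by
  intro h1
  have h2 : {v : HeightOneSpectrum (𝓞 F) | (p : 𝓞 F) ∈ v.asIdeal}.Subsingleton :=
    fun v hv w hw => h v w hv hw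
  have h3 := (Set.ncard_le_one h2.finite).2 fun a ha b hb => h2 ha hb
  rw [h1, hd] at h3
  have h4 : 1 < l ^ (k + 1) := Nat.one_lt_pow (Nat.succ_ne_zero k) hl.one_lt
  omega

end ns

end Pool.Agent.Helper891_EG
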