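import Pool.Agent.Helper891_JO.Gl
import Pool.Agent.Helper891_JO.Fq

/-!
# Odd primes: square roots near one, local squares, odd local degrees
-/

set_option autoImplicit false
set_option linter.unusedSectionVars false

namespace Pool.Agent.Helper891_EG

open NumberField IsDedekindDomain Module
open Pool.Agent.Y715.Nr Pool.Agent.Y715.Red
open Pool.Agent.TH841.NF (pls lf mem_lf)
open Pool.Agent.Y46.G2 (val_le_one_of_norm val_lt_one_of_norm)
open Pool.Agent.Helper891_RP (norm_val norm_eq_of_pls lf_dense exists_pls exists_prime_mem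
  p_mem_pls parity resA resA_spec)

section sq1

variable {p : ℕ} [hp : Fact p.Prime]

lemma norm_two (h2 : p ≠ 2) : ‖(2 : PadicAlgCl p)‖ = 1 := by
  have e : (2 : PadicAlgCl p) = ((2 : ℚ_[p]) : PadicAlgCl p) := by
    exact (map_ofNat (algebraMap ℚ_[p] (PadicAlgCl p)) 2).symm
  rw [e, PadicAlgCl.norm_extends]
  have h1 : ‖((2 : ℤ) : ℚ_[p])‖ = 1 := by
    refine le_antisymm (Padic.norm_int_le_one _) ?_
    by_contra hcon
    rw [not_le] at hcon
    have h3 : (p : ℤ) ∣ 2 := Padic.norm_intCast_lt_one_iff.1 hcon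
    have h4 : p ∣ 2 := by exact_mod_cast h3
    exact h2 ((Nat.prime_dvd_prime_iff_eq hp.out Nat.prime_two).1 h4)
  exact_mod_cast h1

lemma exists_sq1 {z : PadicAlgCl p} (hz : ‖z - 1‖ < 1) : ∃ r, ‖r - 1‖ < 1 ∧ r ^ 2 = z := by
  obtain ⟨r, hr⟩ : ∃ r, r ^ 2 = z := IsAlgClosed.exists_pow_nat_eq z (by norm_num)
  by_cases h1 : ‖r - 1‖ < 1
  · exact ⟨r, h1, hr⟩
  · refine ⟨-r, ?_, by rw [neg_sq, hr]⟩
    by_contra h2
    rw [not_lt] at h1 h2
    have h3 : z - 1 = (r - 1) * (r + 1) := by rw [← hr]; ring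
    have h4 : ‖-r - 1‖ = ‖r + 1‖ := by rw [← norm_neg]; congr 1; ring
    rw [h3, norm_mul, ← h4] at hz
    nlinarith

lemma sq1_unique (h2 : p ≠ 2) {r r' : PadicAlgCl p} (h : ‖r - 1‖ < 1) (h' : ‖r' - 1‖ < 1)
    (e : r ^ 2 = r' ^ 2) : r = r' := by
  rcases sq_eq_sq_iff_eq_or_eq_neg.1 e with h1 | h1
  · exact h1
  · exfalso
    have h3 : ‖(2 : PadicAlgCl p)‖ < 1 := by
      have e : (2 : PadicAlgCl p) = -(r - 1) - (r' - 1) := by rw [h1]; ring
      rw [e]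
      exact sub_lt (by rwa [norm_neg]) h'
    rw [norm_two h2] at h3
    exact lt_irrefl _ h3

open Classical in
/-- the square root near one -/
noncomputable def sqo (z : PadicAlgCl p) : PadicAlgCl p :=
  if h : ‖z - 1‖ < 1 then (exists_sq1 h).choose else 1

lemma sqo_spec {z : PadicAlgCl p} (h : ‖z - 1‖ < 1) : ‖sqo z - 1‖ < 1 ∧ sqo z ^ 2 = z := by
  unfold sqo
  rw [dif_pos h]
  exact (exists_sq1 h).choose_spec

lemma sqo_map (h2 : p ≠ 2) (τ : Au p) (z : PadicAlgCl p) : sqo (τ z) = τ (sqo z) := by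
  have e : ∀ y : PadicAlgCl p, ‖τ y - 1‖ = ‖y - 1‖ := fun y => by
    rw [← nrm τ (y - 1), map_sub, map_one]
  by_cases h : ‖z - 1‖ < 1
  · have h' : ‖τ z - 1‖ < 1 := by rwa [e]
    apply sq1_unique h2 (sqo_spec h').1 (by rw [e]; exact (sqo_spec h).1)
    rw [(sqo_spec h').2, ← map_pow, (sqo_spec h).2]
  · unfold sqo
    rw [dif_neg h, dif_neg (by rwa [e]), map_one]

lemma norm_one_near {z : PadicAlgCl p} (h : ‖z - 1‖ < 1) : ‖z‖ = 1 := by
  have e : z = 1 + (z - 1) := by ring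
  rw [e, eq_of_lt (by rw [norm_one]; exact h), norm_one]

lemma prod_near {ι : Type*} (s : Finset ι) (f : ι → PadicAlgCl p)
    (h : ∀ i ∈ s, ‖f i - 1‖ < 1) : ‖∏ i ∈ s, f i - 1‖ < 1 := by
  classical
  induction s using Finset.induction_on with
  | empty => rw [Finset.prod_empty, sub_self, norm_zero]; exact one_pos
  | insert i s hi ih =>
    rw [Finset.prod_insert hi]
    have h1 := h i (Finset.mem_insert_self _ _)
    have h2 := ih fun j hj => h j (Finset.mem_insert_of_mem hj)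
    have h3 := norm_one_near h1
    have e : f i * ∏ j ∈ s, f j - 1 = f i * (∏ j ∈ s, f j - 1) + (f i - 1) := by ring
    rw [e]
    exact add_lt (by rw [norm_mul, h3, one_mul]; exact h2) h1

lemma near_mul {x y : PadicAlgCl p} (hx : ‖x - 1‖ < 1) (hy : ‖y - 1‖ < 1) : ‖x * y - 1‖ < 1 := by
  have e : x * y - 1 = x * (y - 1) + (x - 1) := by ring
  rw [e]
  exact add_lt (by rw [norm_mul, norm_one_near hx, one_mul]; exact hy) hx

lemma near_inv {x : PadicAlgCl p} (hx : ‖x - 1‖ < 1) : ‖x⁻¹ - 1‖ < 1 := by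
  have h1 := norm_one_near hx
  have h0 : x ≠ 0 := by
    rintro rfl
    rw [norm_zero] at h1
    norm_num at h1
  have e : x⁻¹ - 1 = -((x - 1) / x) := by field_simp; ring
  rw [e, norm_neg, norm_div, h1, div_one]
  exact hx

end sq1

section ev

variable {F : Type} [Field F] [NumberField F] {p : ℕ} [hp : Fact p.Prime]

/-- even valuation at the place of `j` -/
def Ev (j : F →+* PadicAlgCl p) (x : F) : Prop := ∃ z : F, z ≠ 0 ∧ ‖j x‖ = ‖j z‖ ^ 2

/-- a local square at the place of `j` (`p` odd, `x` a unit up to squares) -/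
def LS (j : F →+* PadicAlgCl p) (x : F) : Prop := ∃ t : F, t ≠ 0 ∧ ‖j (x * t ^ 2) - 1‖ < 1

variable {j : F →+* PadicAlgCl p}

lemma Ev.ne_zero {x : F} (h : Ev j x) : x ≠ 0 := by
  obtain ⟨z, hz, h1⟩ := h
  rintro rfl
  rw [map_zero, norm_zero] at h1
  have h2 : 0 < ‖j z‖ := norm_pos_iff.2 ((_root_.map_ne_zero j).2 hz)
  have : (0 : ℝ) < ‖j z‖ ^ 2 := by positivity
  linarith

lemma Ev.one : Ev j 1 := ⟨1, one_ne_zero, by rw [map_one, norm_one, one_pow]⟩

lemma Ev.mul {x y : F} (hx : Ev j x) (hy : Ev j y) : Ev j (x * y) := by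
  obtain ⟨z, hz, h1⟩ := hx
  obtain ⟨w, hw, h2⟩ := hy
  exact ⟨z * w, mul_ne_zero hz hw, by rw [map_mul, map_mul, norm_mul, norm_mul, h1, h2, mul_pow]⟩

lemma Ev.inv {x : F} (hx : Ev j x) : Ev j x⁻¹ := by
  obtain ⟨z, hz, h1⟩ := hx
  exact ⟨z⁻¹, inv_ne_zero hz, by rw [map_inv₀, map_inv₀, norm_inv, norm_inv, h1, inv_pow]⟩

lemma Ev.sq {y : F} (hy : y ≠ 0) : Ev j (y ^ 2) := ⟨y, hy, by rw [map_pow, norm_pow]⟩

lemma Ev.of_mul {x y : F} (hx : Ev j x) (hxy : Ev j (x * y)) : Ev j y := by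
  have h1 := hx.inv.mul hxy
  rwa [inv_mul_cancel_left₀ hx.ne_zero] at h1

lemma ev_comp (γ : F ≃ₐ[ℚ] F) {x : F} : Ev (j.comp (γ : F →+* F)) x ↔ Ev j (γ x) := by
  constructor
  · rintro ⟨z, hz, h⟩
    exact ⟨γ z, (_root_.map_ne_zero γ).2 hz, h⟩
  · rintro ⟨z, hz, h⟩
    refine ⟨γ.symm z, (_root_.map_ne_zero γ.symm).2 hz, ?_⟩
    show ‖j (γ x)‖ = ‖j (γ (γ.symm z))‖ ^ 2
    rw [AlgEquiv.apply_symm_apply, h]

lemma LS.ne_zero {x : F} (h : LS j x) : x ≠ 0 := by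
  obtain ⟨t, ht, h1⟩ := h
  rintro rfl
  rw [zero_mul, map_zero, zero_sub, norm_neg, norm_one] at h1
  exact lt_irrefl _ h1

lemma LS.one : LS j 1 := ⟨1, one_ne_zero, by simp⟩

lemma LS.sq {y : F} (hy : y ≠ 0) : LS j (y ^ 2) := by
  refine ⟨y⁻¹, inv_ne_zero hy, ?_⟩
  rw [← mul_pow, mul_inv_cancel₀ hy, one_pow, map_one, sub_self, norm_zero]
  exact one_pos

lemma LS.mul {x y : F} (hx : LS j x) (hy : LS j y) : LS j (x * y) := by
  obtain ⟨t, ht, h1⟩ := hx
  obtain ⟨s, hs, h2⟩ := hy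
  refine ⟨t * s, mul_ne_zero ht hs, ?_⟩
  have e : x * y * (t * s) ^ 2 = (x * t ^ 2) * (y * s ^ 2) := by ring
  rw [e, map_mul]
  exact near_mul h1 h2

lemma LS.inv {x : F} (hx : LS j x) : LS j x⁻¹ := by
  have h0 := hx.ne_zero
  obtain ⟨t, ht, h1⟩ := hx
  refine ⟨t⁻¹, inv_ne_zero ht, ?_⟩
  have e : x⁻¹ * t⁻¹ ^ 2 = (x * t ^ 2)⁻¹ := by
    rw [mul_inv, inv_pow]
  rw [e, map_inv₀]
  exact near_inv h1

lemma LS.of_mul {x y : F} (hx : LS j x) (hxy : LS j (x * y)) : LS j y := by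
  have h1 := hx.inv.mul hxy
  rwa [inv_mul_cancel_left₀ hx.ne_zero] at h1

lemma ls_comp (γ : F ≃ₐ[ℚ] F) {x : F} : LS (j.comp (γ : F →+* F)) x ↔ LS j (γ x) := by
  constructor
  · rintro ⟨z, hz, h⟩
    refine ⟨γ z, (_root_.map_ne_zero γ).2 hz, ?_⟩
    rw [← map_pow, ← map_mul]
    exact h
  · rintro ⟨z, hz, h⟩
    refine ⟨γ.symm z, (_root_.map_ne_zero γ.symm).2 hz, ?_⟩
    show ‖j (γ (x * (γ.symm z) ^ 2)) - 1‖ < 1
    rwa [map_mul, map_pow, AlgEquiv.apply_symm_apply]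

lemma LS.ev {x : F} (h : LS j x) : Ev j x := by
  obtain ⟨t, ht, h1⟩ := h
  have h2 := norm_one_near h1
  refine ⟨t⁻¹, inv_ne_zero ht, ?_⟩
  rw [map_mul, map_pow, norm_mul, norm_pow] at h2
  rw [map_inv₀, norm_inv, inv_pow]
  exact eq_inv_of_mul_eq_one_left h2

lemma ev_iff {x : F} (hx : x ≠ 0) : Ev j x ↔ Even (WithZero.log ((pls j).valuation F x)) := by
  constructor
  · rintro ⟨z, hz, h⟩
    obtain ⟨n, hn⟩ := parity j hx hz (t := ‖j z‖) h odd_one (pow_one _)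
    rw [hn, WithZero.log_exp]
    exact even_two_mul n
  · rintro ⟨k, hk⟩
    obtain ⟨π, hπ⟩ := (pls j).valuation_exists_uniformizer F
    have hπ0 : π ≠ 0 := by
      rintro rfl
      rw [map_zero] at hπ
      exact WithZero.coe_ne_zero hπ.symm
    have hπ' : (pls j).valuation F π = WithZero.exp (-1 : ℤ) := hπ
    have hvx : (pls j).valuation F x ≠ 0 := (Valuation.ne_zero_iff _).2 hx
    have h1 : (pls j).valuation F (x * (π ^ k) ^ 2) = WithZero.exp 0 := by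
      rw [map_mul, map_pow, map_zpow₀, hπ', ← WithZero.exp_log hvx, hk, ← WithZero.exp_zsmul,
        ← WithZero.exp_nsmul, ← WithZero.exp_add]
      congr 1
      simp only [smul_eq_mul]
      ring
    obtain ⟨c, hc, -, hn⟩ := norm_val j
    have h2 := hn _ _ h1
    rw [zpow_zero] at h2
    have h3 : ‖j (x * (π ^ k) ^ 2)‖ = 1 := by
      rwa [pow_eq_one_iff_of_nonneg (norm_nonneg _) (by omega)] at h2
    refine ⟨(π ^ k)⁻¹, inv_ne_zero (zpow_ne_zero _ hπ0), ?_⟩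
    rw [map_mul, map_pow, norm_mul, norm_pow] at h3
    rw [map_inv₀, norm_inv, inv_pow]
    exact eq_inv_of_mul_eq_one_left h3

lemma ev_of_not {x y : F} (hx0 : x ≠ 0) (hy0 : y ≠ 0) (hx : ¬ Ev j x) (hy : ¬ Ev j y) :
    Ev j (x * y) := by
  rw [ev_iff hx0, Int.not_even_iff_odd] at hx
  rw [ev_iff hy0, Int.not_even_iff_odd] at hy
  rw [ev_iff (mul_ne_zero hx0 hy0), map_mul, WithZero.log_mul]
  · exact hx.add_odd hy
  · exact (Valuation.ne_zero_iff _).2 hx0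
  · exact (Valuation.ne_zero_iff _).2 hy0

end ev

section dec

variable {F : Type} [Field F] [NumberField F] [IsGalois ℚ F] {p : ℕ} [hp : Fact p.Prime]
  (j : F →+* PadicAlgCl p)

/-- restriction of the local automorphisms -/
noncomputable def rs : Au p →* (F ≃ₐ[ℚ] F) :=
  (resA j).comp
    { toFun := fun τ => τ.restrictScalars ℚ
      map_one' := rfl
      map_mul' := fun _ _ => rfl }

lemma rs_spec (τ : Au p) (x : F) : j (rs j τ x) = τ (j x) := resA_spec j (τ.restrictScalars ℚ) x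

noncomputable instance : Fintype (rs j).range := Fintype.ofFinite _

/-- the product over the decomposition group -/
noncomputable def dp (x : F) : F := ∏ g : (rs j).range, (g : F ≃ₐ[ℚ] F) x

lemma dp_fix (τ : Au p) (x : F) : τ (j (dp j x)) = j (dp j x) := by
  rw [← rs_spec]
  congr 1
  unfold dp
  rw [map_prod (rs j τ)]
  exact Fintype.prod_equiv (Equiv.mulLeft (⟨rs j τ, τ, rfl⟩ : (rs j).range)) _ _ fun g => rfl

lemma dp_norm (x : F) : ‖j (dp j x)‖ = ‖j x‖ ^ Nat.card (rs j).range := by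
  unfold dp
  rw [map_prod, norm_prod, Nat.card_eq_fintype_card]
  have h1 : ∀ g ∈ (Finset.univ : Finset (rs j).range), ‖j ((g : F ≃ₐ[ℚ] F) x)‖ = ‖j x‖ := by
    rintro ⟨g, τ, rfl⟩ -
    show ‖j (rs j τ x)‖ = _
    rw [rs_spec, nrm]
  rw [Finset.prod_congr rfl h1, Finset.prod_const, Finset.card_univ]

lemma card_range_odd (hodd : Odd (finrank ℚ F)) : Odd (Nat.card (rs j).range) := by
  have h2 : Nat.card (rs j).range ∣ finrank ℚ F := by
    rw [← IsGalois.card_aut_eq_finrank]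
    exact Subgroup.card_subgroup_dvd_card _
  obtain ⟨k, hk⟩ := h2
  rw [hk] at hodd
  exact (Nat.odd_mul.1 hodd).1

/-- a local square integer is a square modulo `p` -/
theorem isSquare_of_ls (hodd : Odd (finrank ℚ F)) {d : ℤ} (hd : ¬ (p : ℤ) ∣ d)
    (h : LS j (d : F)) : IsSquare ((d : ℤ) : ZMod p) := by
  obtain ⟨t, ht, h1⟩ := h
  obtain ⟨m, hm⟩ := card_range_odd j hodd
  have hd1 : ‖((d : ℤ) : PadicAlgCl p)‖ = 1 := by
    have e2 : ((d : ℤ) : PadicAlgCl p) = (((d : ℤ) : ℚ_[p]) : PadicAlgCl p) := by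
      change _ = algebraMap ℚ_[p] (PadicAlgCl p) ((d : ℤ) : ℚ_[p])
      rw [map_intCast]
    rw [e2, PadicAlgCl.norm_extends]
    refine le_antisymm (Padic.norm_int_le_one _) ?_
    by_contra hcon
    rw [not_le] at hcon
    exact hd (Padic.norm_intCast_lt_one_iff.1 hcon)
  have ht1 : ‖j t‖ = 1 := by
    have h2 := norm_one_near h1
    rw [map_mul, map_pow, map_intCast, norm_mul, norm_pow, hd1, one_mul] at h2
    rwa [pow_eq_one_iff_of_nonneg (norm_nonneg _) two_ne_zero] at h2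
  have h3 : ‖j (dp j ((d : F) * t ^ 2)) - 1‖ < 1 := by
    unfold dp
    rw [map_prod]
    refine prod_near _ _ ?_
    rintro ⟨g, τ, rfl⟩ -
    show ‖j (rs j τ _) - 1‖ < 1
    rw [rs_spec, ← map_one τ, ← map_sub, nrm]
    exact h1
  have h4 : dp j ((d : F) * t ^ 2) = (d : F) ^ (2 * m + 1) * (dp j t) ^ 2 := by
    rw [← hm]
    unfold dp
    rw [Nat.card_eq_fintype_card, ← Finset.card_univ, ← Finset.prod_const, ← Finset.prod_pow,
      ← Finset.prod_mul_distrib]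
    refine Finset.prod_congr rfl fun g _ => ?_
    rw [map_mul, map_pow, map_intCast]
  have h5 : ‖j (dp j t)‖ = 1 := by rw [dp_norm, ht1, one_pow]
  obtain ⟨a, ha⟩ := near h5.le (fun τ => dp_fix j τ t)
  have h6 : ‖((d ^ (2 * m + 1) * a ^ 2 - 1 : ℤ) : PadicAlgCl p)‖ < 1 := by
    have e : ((d ^ (2 * m + 1) * a ^ 2 - 1 : ℤ) : PadicAlgCl p) =
        (j (dp j ((d : F) * t ^ 2)) - 1) -
          (d : PadicAlgCl p) ^ (2 * m + 1) * ((j (dp j t) - a) * (j (dp j t) + a)) := by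
      rw [h4, map_mul, map_pow, map_pow, map_intCast]
      push_cast
      ring
    rw [e]
    refine sub_lt h3 ?_
    have h7 : ‖j (dp j t) + a‖ ≤ 1 := by
      refine add_le h5.le ?_
      have e2 : ((a : ℤ) : PadicAlgCl p) = (((a : ℤ) : ℚ_[p]) : PadicAlgCl p) := by
        change _ = algebraMap ℚ_[p] (PadicAlgCl p) ((a : ℤ) : ℚ_[p])
        rw [map_intCast]
      rw [e2, PadicAlgCl.norm_extends]
      exact Padic.norm_int_le_one _
    rw [norm_mul, norm_pow, hd1, one_pow, one_mul, norm_mul]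
    calc _ ≤ ‖j (dp j t) - a‖ * 1 := mul_le_mul_of_nonneg_left h7 (norm_nonneg _)
      _ < 1 := by rw [mul_one]; exact ha
  have h8 : (p : ℤ) ∣ d ^ (2 * m + 1) * a ^ 2 - 1 := by
    have e2 : ((d ^ (2 * m + 1) * a ^ 2 - 1 : ℤ) : PadicAlgCl p) =
        (((d ^ (2 * m + 1) * a ^ 2 - 1 : ℤ) : ℚ_[p]) : PadicAlgCl p) := by
      change _ = algebraMap ℚ_[p] (PadicAlgCl p) ((d ^ (2 * m + 1) * a ^ 2 - 1 : ℤ) : ℚ_[p])
      rw [map_intCast]
    rw [e2, PadicAlgCl.norm_extends] at h6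
    exact Padic.norm_intCast_lt_one_iff.1 h6
  have h9 := (ZMod.intCast_zmod_eq_zero_iff_dvd _ p).2 h8
  push_cast at h9
  have h10 : ((d : ℤ) : ZMod p) * (((d : ℤ) : ZMod p) ^ m * (a : ZMod p)) ^ 2 = 1 := by
    linear_combination h9
  have hne : ((d : ℤ) : ZMod p) ^ m * (a : ZMod p) ≠ 0 := by
    intro h0
    rw [h0] at h10
    norm_num at h10
  refine ⟨(((d : ℤ) : ZMod p) ^ m * (a : ZMod p))⁻¹, ?_⟩
  rw [← mul_inv, ← pow_two]
  exact eq_inv_of_mul_eq_one_left h10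

/-- the valuation of `p` is odd -/
theorem not_ev_p (hodd : Odd (finrank ℚ F)) : ¬ Ev j (p : F) := by
  rintro ⟨z, hz, h1⟩
  obtain ⟨m, hm⟩ := card_range_odd j hodd
  obtain ⟨y, hy⟩ := fix_mem (fun τ => dp_fix j τ z)
  have h2 := dp_norm j z
  rw [← hy, PadicAlgCl.norm_extends] at h2
  have hy0 : y ≠ 0 := by
    rintro rfl
    rw [norm_zero] at h2
    have h3 : 0 < ‖j z‖ := norm_pos_iff.2 ((_root_.map_ne_zero j).2 hz)
    have h4 : 0 < ‖j z‖ ^ Nat.card (rs j).range := by positivity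
    linarith
  rw [Padic.norm_eq_zpow_neg_valuation hy0] at h2
  rw [map_natCast, Pool.Agent.W571.RK.norm_p_Om] at h1
  have hp1 : (1 : ℝ) < (p : ℝ) := by exact_mod_cast hp.out.one_lt
  have h5 : (p : ℝ) ^ (-(y.valuation) * 2) = (p : ℝ) ^ (-((2 * m + 1 : ℕ) : ℤ)) := by
    rw [zpow_mul, h2, hm, zpow_neg, zpow_natCast, ← inv_pow, h1]
    norm_cast
    rw [← pow_mul, ← pow_mul, mul_comm]
  have h6 := zpow_right_injective₀ (by positivity) hp1.ne' h5
  push_cast at h6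
  omega

end dec

end Pool.Agent.Helper891_EG
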