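import Pool.Agent.Helper891_EG.Sq

/-!
# The places where all the clusters of roots are odd, of even depth
-/

set_option autoImplicit false
set_option linter.unusedSectionVars false

namespace Pool.Agent.Helper891_EG

open Polynomial NumberField IsDedekindDomain Module
open Pool.Agent.Y723.HJ (hpol hpol_map)
open Pool.Agent.Y715.Nr Pool.Agent.Y715.Red
open Pool.Agent.TH841.NF (pls lf mem_lf)
open Pool.Agent.Helper891_JO

variable {g : ℕ} {a : Fin (2 * g + 1) → ℤ} {p : ℕ} [hp : Fact p.Prime]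

open Classical in
/-- an element with `‖zr‖ ^ 2 = r` -/
noncomputable def zr (a : Fin (2 * g + 1) → ℤ) (i : Fin (2 * g + 1)) (n : Fin (2 * g + 1) → ℕ)
    (r : ℝ) (y w : PadicAlgCl p) : PadicAlgCl p :=
  if h : ∃ l, l ≠ i ∧ r = ‖A a p i - A a p l‖ then (p : PadicAlgCl p) ^ n h.choose
  else y / (w ^ (((Finset.univ.erase i).filter fun l => ‖A a p i - A a p l‖ < r).card / 2) *
    (p : PadicAlgCl p) ^ (∑ l ∈ (Finset.univ.erase i).filter
      (fun l => ¬ ‖A a p i - A a p l‖ < r), n l))

lemma zr_map (i : Fin (2 * g + 1)) (n : Fin (2 * g + 1) → ℕ) (r : ℝ) (τ : Au p)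
    (y w : PadicAlgCl p) : zr a i n r (τ y) (τ w) = τ (zr a i n r y w) := by
  unfold zr
  split_ifs
  · rw [map_pow, map_natCast]
  · rw [map_div₀, map_mul, map_pow, map_pow, map_natCast]

lemma even_card {i : Fin (2 * g + 1)}
    (h2 : ∀ l, l ≠ i → Odd ((Finset.univ.filter fun k =>
      ‖A a p i - A a p k‖ ≤ ‖A a p i - A a p l‖).card)) (r : ℝ) :
    Even ((Finset.univ.erase i).filter fun l => ‖A a p i - A a p l‖ < r).card := by
  classical
  set S := (Finset.univ.erase i).filter fun l => ‖A a p i - A a p l‖ < r with hS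
  rcases S.eq_empty_or_nonempty with h | h
  · rw [h, Finset.card_empty]
    exact Even.zero
  · obtain ⟨l, hl, hmax⟩ := S.exists_max_image (fun l => ‖A a p i - A a p l‖) h
    have hl' := Finset.mem_filter.1 hl
    have hli := Finset.ne_of_mem_erase hl'.1
    have h3 := h2 l hli
    have e : (Finset.univ.filter fun k => ‖A a p i - A a p k‖ ≤ ‖A a p i - A a p l‖) =
        insert i S := by
      ext k
      rw [Finset.mem_filter, Finset.mem_insert]
      constructor
      · rintro ⟨-, hk⟩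
        by_cases hki : k = i
        · exact Or.inl hki
        · exact Or.inr (Finset.mem_filter.2 ⟨Finset.mem_erase.2 ⟨hki, Finset.mem_univ _⟩,
            hk.trans_lt hl'.2⟩)
      · rintro (rfl | hk)
        · refine ⟨Finset.mem_univ _, ?_⟩
          rw [sub_self, norm_zero]
          exact norm_nonneg _
        · exact ⟨Finset.mem_univ _, hmax k hk⟩
    rw [e, Finset.card_insert_of_notMem (by simp [hS])] at h3
    rw [← Nat.not_odd_iff_even]
    intro h4
    exact (Nat.not_even_iff_odd.2 h3) h4.add_one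

lemma zr_norm {i : Fin (2 * g + 1)} {n : Fin (2 * g + 1) → ℕ}
    (h1 : ∀ l, l ≠ i → ‖A a p i - A a p l‖ = ‖(p : PadicAlgCl p) ^ n l‖ ^ 2)
    (h2 : ∀ l, l ≠ i → Odd ((Finset.univ.filter fun k =>
      ‖A a p i - A a p k‖ ≤ ‖A a p i - A a p l‖).card))
    {y x : PadicAlgCl p} (hx : x ≠ A a p i)
    (hf : (hpol a (PadicAlgCl p)).eval x = y ^ 2) :
    ‖x - A a p i‖ = ‖zr a i n ‖x - A a p i‖ y (x - A a p i)‖ ^ 2 := by
  classical
  set r := ‖x - A a p i‖ with hr
  have hr0 : 0 < r := norm_pos_iff.2 (sub_ne_zero.2 hx)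
  unfold zr
  split_ifs with h
  · have h3 := h.choose_spec
    rw [← h1 _ h3.1]
    exact h3.2
  · push Not at h
    have hn := congrArg norm hf
    rw [hpol_eval, norm_prod, norm_pow, ← Finset.mul_prod_erase Finset.univ _ (Finset.mem_univ i),
      ← Finset.prod_filter_mul_prod_filter_not (Finset.univ.erase i)
        (fun l => ‖A a p i - A a p l‖ < r)] at hn
    obtain ⟨m, hm⟩ := even_card h2 r
    have e1 : ∏ l ∈ (Finset.univ.erase i).filter (fun l => ‖A a p i - A a p l‖ < r),
        ‖x - A a p l‖ = r ^ (2 * m) := by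
      rw [Finset.prod_congr rfl (g := fun _ => r), Finset.prod_const, hm]
      · congr 1
        ring
      · intro l hl
        have h3 := (Finset.mem_filter.1 hl).2
        have e : x - A a p l = (x - A a p i) + (A a p i - A a p l) := by ring
        rw [e, eq_of_lt h3]
    have e2 : ∏ l ∈ (Finset.univ.erase i).filter (fun l => ¬ ‖A a p i - A a p l‖ < r),
        ‖x - A a p l‖ = ‖(p : PadicAlgCl p) ^ (∑ l ∈ (Finset.univ.erase i).filter
          (fun l => ¬ ‖A a p i - A a p l‖ < r), n l)‖ ^ 2 := by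
      rw [norm_pow, ← Finset.prod_pow_eq_pow_sum, ← Finset.prod_pow]
      refine Finset.prod_congr rfl fun l hl => ?_
      obtain ⟨h3, h4⟩ := Finset.mem_filter.1 hl
      have hli := Finset.ne_of_mem_erase h3
      rw [not_lt] at h4
      have h5 := lt_of_le_of_ne h4 (h l hli)
      have e : x - A a p l = (A a p i - A a p l) + (x - A a p i) := by ring
      rw [e, eq_of_lt h5, h1 l hli, norm_pow]
    rw [e1, e2] at hn
    have hm' : ((Finset.univ.erase i).filter fun l => ‖A a p i - A a p l‖ < r).card / 2 = m := by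
      omega
    rw [hm', norm_div, norm_mul, norm_pow, ← hr, div_pow, mul_pow, ← hn]
    have hpn : ‖(p : PadicAlgCl p) ^ (∑ l ∈ (Finset.univ.erase i).filter
          (fun l => ¬ ‖A a p i - A a p l‖ < r), n l)‖ ≠ 0 := by
      rw [norm_ne_zero_iff]
      refine pow_ne_zero _ ?_
      have h3 := Pool.Agent.W571.RK.norm_p_Om (p := p)
      intro h0
      rw [h0, norm_zero] at h3
      have h4 : (0 : ℝ) < (p : ℝ)⁻¹ := inv_pos.2 (by exact_mod_cast hp.out.pos)
      linarith
    rw [eq_div_iff (mul_ne_zero (pow_ne_zero _ (pow_ne_zero _ hr0.ne')) (pow_ne_zero _ hpn))]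
    ring

/-- even valuations -/
theorem tree_val {i : Fin (2 * g + 1)} {n : Fin (2 * g + 1) → ℕ}
    (h1 : ∀ l, l ≠ i → ‖A a p i - A a p l‖ = ‖(p : PadicAlgCl p) ^ n l‖ ^ 2)
    (h2 : ∀ l, l ≠ i → Odd ((Finset.univ.filter fun k =>
      ‖A a p i - A a p k‖ ≤ ‖A a p i - A a p l‖).card))
    {K : IntermediateField ℚ_[p] (PadicAlgCl p)} {u v : K[X]} (hu : u.Monic)
    (huv : u ∣ hpol a K - v ^ 2) (h0 : ∀ i, u.eval ((a i : ℤ) : K) ≠ 0) :
    ∃ k : K, ‖algebraMap K (PadicAlgCl p) ((-1) ^ u.natDegree * u.eval ((a i : ℤ) : K))‖ =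
      ‖algebraMap K (PadicAlgCl p) k‖ ^ 2 := by
  set V := v.map (algebraMap K (PadicAlgCl p)) with hV
  obtain ⟨k, hk⟩ := prod_fix u
    (fun x => zr a i n ‖x - A a p i‖ (V.eval x) (x - A a p i)) (fun τ x => by
      have e : τ x - A a p i = τ (x - A a p i) := by
        rw [map_sub, map_intCast]
      have e2 : ‖τ (x - A a p i)‖ = ‖x - A a p i‖ := nrm (τ.restrictScalars ℚ_[p]) _
      have e3 : V.eval (τ x) = τ (V.eval x) :=
        eval_fix (τ.restrictScalars ℚ_[p]) (map_fix v τ) x
      rw [e, e2, e3]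
      exact zr_map i n _ (τ.restrictScalars ℚ_[p]) _ _)
  refine ⟨k, ?_⟩
  rw [hk, delta hu, map_intCast]
  have hZ : ∀ x ∈ (u.map (algebraMap K (PadicAlgCl p))).roots,
      x ≠ A a p i ∧ (hpol a (PadicAlgCl p)).eval x = V.eval x ^ 2 := by
    intro x hx
    have h3 := root_eval hu hx
    refine ⟨?_, root_sq (dvd_map _ huv) h3⟩
    rintro rfl
    rw [show A a p i = algebraMap K (PadicAlgCl p) ((a i : ℤ) : K) from (map_intCast _ _).symm,
      eval_map_algebraMap, aeval_algebraMap_apply] at h3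
    exact h0 i ((_root_.map_eq_zero _).1 h3)
  have key : ∀ Y : Multiset (PadicAlgCl p), (∀ x ∈ Y, x ≠ A a p i ∧
      (hpol a (PadicAlgCl p)).eval x = V.eval x ^ 2) →
      ‖(Y.map (fun x => x - A a p i)).prod‖ =
        ‖(Y.map (fun x => zr a i n ‖x - A a p i‖ (V.eval x) (x - A a p i))).prod‖ ^ 2 := by
    intro Y
    induction Y using Multiset.induction_on with
    | empty => intro _; simp
    | cons x Y ih =>
      intro hY
      simp only [Multiset.map_cons, Multiset.prod_cons]
      obtain ⟨h3, h4⟩ := hY x (Multiset.mem_cons_self _ _)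
      rw [norm_mul, norm_mul, ih fun y hy => hY y (Multiset.mem_cons_of_mem hy), mul_pow,
        ← zr_norm h1 h2 h3 h4]
  exact key _ hZ

end Pool.Agent.Helper891_EG
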